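import Pool.Agent.Poly.Defs

/-!
Module DIG (helper86): basic facts on the coset digraph.
-/

set_option autoImplicit false

namespace Poly

section

variable {G H S : Type} [Group G] [Group H] [Group S] (D : CData G H S)

theorem Dig.dbl_iff (g : H → G) (z k k' : G) (hk : k ∈ D.K) (hk' : k' ∈ D.K) :
    Dbl D g (k * z * k') ↔ Dbl D g z := by
  have hπ : D.π (k * z * k') = D.π z := by
    rw [map_mul, map_mul, (D.K_le hk : D.π k = 1), (D.K_le hk' : D.π k' = 1), one_mul, mul_one]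
  constructor
  · rintro ⟨a, ha, b, hb, e⟩
    rw [hπ] at e
    refine ⟨k⁻¹ * a, D.K.mul_mem (D.K.inv_mem hk) ha, b * k'⁻¹, D.K.mul_mem hb (D.K.inv_mem hk'), ?_⟩
    calc z = k⁻¹ * (k * z * k') * k'⁻¹ := by group
      _ = k⁻¹ * (a * g (D.π z) * b) * k'⁻¹ := by rw [e]
      _ = _ := by group
  · rintro ⟨a, ha, b, hb, e⟩
    refine ⟨k * a, D.K.mul_mem hk ha, b * k', D.K.mul_mem hb hk', ?_⟩
    rw [hπ]
    calc k * z * k' = k * (a * g (D.π z) * b) * k' := by rw [← e]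
      _ = _ := by group

theorem Dig.arc_iff (A : Set H) (g : H → G) (z k k' : G) (hk : k ∈ D.K) (hk' : k' ∈ D.K) :
    Arc D A g (k * z * k') ↔ Arc D A g z := by
  have hπ : D.π (k * z * k') = D.π z := by
    rw [map_mul, map_mul, (D.K_le hk : D.π k = 1), (D.K_le hk' : D.π k' = 1), one_mul, mul_one]
  unfold Arc
  rw [hπ, Dig.dbl_iff D g z k k' hk hk']

theorem adj_mk (A : Set H) (g : H → G) (x y : G) :
    (dig D A g).Adj (QuotientGroup.mk x : G ⧸ D.K) (QuotientGroup.mk y : G ⧸ D.K) ↔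
      Arc D A g (x⁻¹ * y) := by
  constructor
  · rintro ⟨x', y', hx, hy, h⟩
    rw [QuotientGroup.eq] at hx hy
    have h1 : x⁻¹ * y = (x⁻¹ * x') * (x'⁻¹ * y') * (y⁻¹ * y')⁻¹ := by group
    rw [h1, Dig.arc_iff D A g _ _ _ hx (D.K.inv_mem hy)]
    exact h
  · intro h
    exact ⟨x, y, rfl, rfl, h⟩

theorem leftMul_aut (A : Set H) (g : H → G) (g₀ : G) : IsAut (dig D A g) (leftMul D g₀) := by
  intro u v
  obtain ⟨x, rfl⟩ := QuotientGroup.mk_surjective u
  obtain ⟨y, rfl⟩ := QuotientGroup.mk_surjective v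
  rw [leftMul_mk, leftMul_mk, adj_mk, adj_mk]
  have h1 : (g₀ * x)⁻¹ * (g₀ * y) = x⁻¹ * y := by group
  rw [h1]

theorem dig_trans (A : Set H) (g : H → G) (u v : G ⧸ D.K) :
    ∃ σ : Equiv.Perm (G ⧸ D.K), IsAut (dig D A g) σ ∧ σ u = v := by
  obtain ⟨x, rfl⟩ := QuotientGroup.mk_surjective u
  obtain ⟨y, rfl⟩ := QuotientGroup.mk_surjective v
  refine ⟨leftMul D (y * x⁻¹), leftMul_aut D A g _, ?_⟩
  rw [leftMul_mk]
  congr 1
  group

end

end Poly
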