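import Mathlib

set_option autoImplicit false

namespace Poly

/-- a permutation all of whose minimal periods are equal has a power of prime order without fixed points -/
theorem exists_prime_power {V : Type} [Finite V] [Nonempty V] (σ : Equiv.Perm V) (h1 : σ ≠ 1)
    (h : ∀ x y : V, Function.minimalPeriod σ x = Function.minimalPeriod σ y) :
    ∃ r k : ℕ, r.Prime ∧ (σ ^ k) ^ r = 1 ∧ ∀ x, (σ ^ k) x ≠ x := by
  classical
  obtain ⟨x₀⟩ := (inferInstance : Nonempty V)
  set m := Function.minimalPeriod σ x₀ with hm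
  have hall : ∀ x, Function.minimalPeriod σ x = m := fun x => h x x₀
  have hit : ∀ (n : ℕ) (x : V), (σ ^ n) x = (σ : V → V)^[n] x := by
    intro n x
    rw [← Equiv.Perm.iterate_eq_pow]
  have hσm : σ ^ m = 1 := by
    ext x
    rw [hit, ← hall x, Function.iterate_minimalPeriod, Equiv.Perm.one_apply]
  have hm0 : 0 < m := by
    have hfin : ∃ n, 0 < n ∧ σ ^ n = 1 := by
      have := isOfFinOrder_iff_pow_eq_one.1 (isOfFinOrder_of_finite σ)
      exact this
    obtain ⟨n, hn, hn'⟩ := hfin
    have : x₀ ∈ Function.periodicPts σ := by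
      refine ⟨n, hn, ?_⟩
      change (σ : V → V)^[n] x₀ = x₀
      rw [← hit, hn', Equiv.Perm.one_apply]
    exact Function.minimalPeriod_pos_of_mem_periodicPts this
  have hm1 : m ≠ 1 := by
    intro e
    apply h1
    rw [e, pow_one] at hσm
    exact hσm
  obtain ⟨r, hr, hrm⟩ := Nat.exists_prime_and_dvd hm1
  obtain ⟨k, hk⟩ := hrm
  refine ⟨r, k, hr, ?_, ?_⟩
  · rw [← pow_mul, mul_comm k r, ← hk, hσm]
  · intro x hx
    have hk0 : 0 < k := by
      rcases Nat.eq_zero_or_pos k with h0 | h0
      · rw [h0, mul_zero] at hk; omega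
      · exact h0
    have hd : m ∣ k := by
      rw [← hall x]
      apply Function.IsPeriodicPt.minimalPeriod_dvd
      change (σ : V → V)^[k] x = x
      rw [← hit, hx]
    have hle := Nat.le_of_dvd hk0 hd
    have h2 := hr.two_le
    nlinarith

end Poly
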