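import Pool.Agent.Poly.Dig

set_option autoImplicit false

namespace Poly

section

variable {G H S : Type} [Group G] [Group H] [Group S] (D : CData G H S)

namespace Step12

theorem rho_ne_one : D.ρ ≠ 1 := by
  intro h
  apply D.s_ρ
  rw [h]; simp

theorem rho_ne_x0 : D.ρ ≠ D.x₀ := by
  intro h
  apply D.s_ρ
  rw [h]
  exact D.s_x₀_sq

theorem x0_ne_one : D.x₀ ≠ 1 := by
  intro h
  apply D.x₀_sq
  rw [h]; simp

variable {D}

theorem arc_mem {A : Set H} {g : H → G} (hA : Half D A) {z : G} (h : Arc D A g z) :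
    D.π z = 1 ∨ D.π z ∈ A := by
  rcases h with h | h | h | h
  · exact Or.inl h
  · right; rw [h]; exact hA.ρ_mem
  · right; rw [h.1]; exact hA.x₀_mem
  · exact Or.inr h.1

/-- mutual arcs -/
theorem mutual_arcs {A : Set H} {g : H → G} (hA : Half D A) (x y : G) :
    (Arc D A g (x⁻¹ * y) ∧ Arc D A g (y⁻¹ * x)) ↔ D.π x = D.π y := by
  constructor
  · rintro ⟨h1, h2⟩
    have e : D.π (y⁻¹ * x) = (D.π (x⁻¹ * y))⁻¹ := by
      rw [← map_inv]; congr 1; group
    rcases arc_mem hA h1 with h1 | h1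
    · rw [map_mul, map_inv, inv_mul_eq_one] at h1
      exact h1
    · rcases arc_mem hA h2 with h2 | h2
      · rw [map_mul, map_inv, inv_mul_eq_one] at h2
        exact h2.symm
      · rw [e] at h2
        exact absurd h2 (hA.anti _ h1)
  · intro h
    constructor
    · left; rw [map_mul, map_inv, h]; simp
    · left; rw [map_mul, map_inv, h]; simp

/-- three different cosets in every block -/
theorem three (z : G) : ∃ z₁ z₂ : G, D.π z₁ = D.π z ∧ D.π z₂ = D.π z ∧ z⁻¹ * z₁ ∉ D.K ∧ z⁻¹ * z₂ ∉ D.K ∧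
    z₁⁻¹ * z₂ ∉ D.K := by
  obtain ⟨n₁, hn₁, n₂, hn₂, h1, h2, h3⟩ := D.big
  refine ⟨z * n₁, z * n₂, ?_, ?_, ?_, ?_, ?_⟩
  · rw [map_mul, (MonoidHom.mem_ker).1 hn₁, mul_one]
  · rw [map_mul, (MonoidHom.mem_ker).1 hn₂, mul_one]
  · simpa using h1
  · simpa using h2
  · have : (z * n₁)⁻¹ * (z * n₂) = n₁⁻¹ * n₂ := by group
    rw [this]; exact h3

/-- a block all of whose elements are out-neighbours -/
theorem full {A : Set H} {g : H → G} (hg : ∀ d, D.π (g d) = d) (d : H)
    (h : ∀ z, D.π z = d → Arc D A g z) : d = 1 ∨ d = D.ρ := by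
  by_contra hd
  push Not at hd
  obtain ⟨hd1, hdρ⟩ := hd
  by_cases hx : d = D.x₀
  · -- the lift itself is not an out-neighbour
    have := h (g d) (hg d)
    rcases this with h' | h' | h' | h'
    · exact hd1 (by rw [← hg d]; exact h')
    · exact hdρ (by rw [← hg d]; exact h')
    · exact h'.2 ⟨1, D.K.one_mem, 1, D.K.one_mem, by rw [hg]; simp⟩
    · exact h'.2.2.1 (by rw [hg]; exact hx)
  · have h0 := h (g d) (hg d)
    rcases h0 with h' | h' | h' | h'
    · exact hd1 (by rw [← hg d]; exact h')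
    · exact hdρ (by rw [← hg d]; exact h')
    · exact hx (by rw [← hg d]; exact h'.1)
    · obtain ⟨y, hy, hy'⟩ := h'.2.2.2.1
      rw [hg] at hy
      have := h y hy
      rcases this with h'' | h'' | h'' | h''
      · exact hd1 (by rw [← hy]; exact h'')
      · exact hdρ (by rw [← hy]; exact h'')
      · exact hx (by rw [← hy]; exact h''.1)
      · exact hy' h''.2.2.2.2

theorem conj_ker {z w : G} (h : D.π z = D.π w) (k : G) (_hk : k ∈ D.K) (hc : w⁻¹ * k * w ∈ D.K) :
    z⁻¹ * k * z ∈ D.K := by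
  have hn : w⁻¹ * z ∈ D.π.ker := by
    rw [MonoidHom.mem_ker, map_mul, map_inv, h]; simp
  have hc' : w⁻¹ * k * w ∈ D.π.ker := D.K_le hc
  have := D.comm _ hn _ hc'
  have e : z⁻¹ * k * z = (w⁻¹ * z)⁻¹ * (w⁻¹ * k * w) * (w⁻¹ * z) := by group
  have e2 : (w⁻¹ * z)⁻¹ * (w⁻¹ * k * w) * (w⁻¹ * z) = w⁻¹ * k * w := by
    rw [mul_assoc, ← this]; group
  rw [e, e2]
  exact hc

/-- a block with exactly one element which is not an out-neighbour -/
theorem uniq {A : Set H} {g : H → G} (hg : ∀ d, D.π (g d) = d) (d : H)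
    (hex : ∃ z, D.π z = d ∧ ¬ Arc D A g z)
    (h : ∀ z z', D.π z = d → D.π z' = d → ¬ Arc D A g z → ¬ Arc D A g z' → z⁻¹ * z' ∈ D.K) : d = D.x₀ := by
  by_contra hx
  obtain ⟨z, hz, hz'⟩ := hex
  have hd1 : d ≠ 1 := fun e => hz' (Or.inl (hz.trans e))
  have hdρ : d ≠ D.ρ := fun e => hz' (Or.inr (Or.inl (hz.trans e)))
  by_cases hgen : d ∈ A ∧ ∃ y, D.π y = d ∧ ¬ Dbl D g y
  · obtain ⟨hdA, y, hy, hy'⟩ := hgen
    -- arcs are exactly the elements of the double coset
    have key : ∀ w, D.π w = d → (Arc D A g w ↔ Dbl D g w) := by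
      intro w hw
      constructor
      · rintro (h' | h' | h' | h')
        · exact absurd (hw.symm.trans h') hd1
        · exact absurd (hw.symm.trans h') hdρ
        · exact absurd (hw.symm.trans h'.1) hx
        · exact h'.2.2.2.2
      · intro h'
        exact Or.inr (Or.inr (Or.inr ⟨by rw [hw]; exact hdA, by rw [hw]; exact hdρ, by rw [hw]; exact hx,
          ⟨y, hy.trans hw.symm, hy'⟩, h'⟩))
    -- `K` is normalised by the elements over `d`
    have hnorm : ∀ k ∈ D.K, y⁻¹ * k * y ∈ D.K := by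
      intro k hk
      have hky : D.π (k * y) = d := by
        rw [map_mul, (MonoidHom.mem_ker).1 (D.K_le hk), one_mul, hy]
      have hkd : ¬ Dbl D g (k * y) := by
        rintro ⟨a, ha, b, hb, e⟩
        refine hy' ⟨k⁻¹ * a, D.K.mul_mem (D.K.inv_mem hk) ha, b, hb, ?_⟩
        rw [hky] at e
        rw [hy]
        calc y = k⁻¹ * (k * y) := by group
          _ = k⁻¹ * a * g d * b := by rw [e]; group
      have := h y (k * y) hy hky (fun h' => hy' ((key y hy).1 h')) (fun h' => hkd ((key _ hky).1 h'))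
      simpa [mul_assoc] using this
    -- the elements of the double coset form one coset
    have hone : ∀ w, D.π w = d → Dbl D g w → (g d)⁻¹ * w ∈ D.K := by
      rintro w hw ⟨a, ha, b, hb, e⟩
      rw [hw] at e
      have h1 := conj_ker (z := g d) (w := y) ((hg d).trans hy.symm) a ha (hnorm a ha)
      rw [e]
      have : (g d)⁻¹ * (a * g d * b) = (g d)⁻¹ * a * g d * b := by group
      rw [this]
      exact D.K.mul_mem h1 hb
    obtain ⟨z₁, z₂, e1, e2, h1, h2, h3⟩ := three (D := D) (g d)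
    rw [hg] at e1 e2
    refine h3 (h z₁ z₂ e1 e2 ?_ ?_)
    · intro h'
      exact h1 (hone _ e1 ((key _ e1).1 h'))
    · intro h'
      exact h2 (hone _ e2 ((key _ e2).1 h'))
  · -- no arcs at all
    have key : ∀ w, D.π w = d → ¬ Arc D A g w := by
      rintro w hw (h' | h' | h' | h')
      · exact absurd (hw.symm.trans h') hd1
      · exact absurd (hw.symm.trans h') hdρ
      · exact absurd (hw.symm.trans h'.1) hx
      · refine hgen ⟨by rw [← hw]; exact h'.1, ?_⟩
        obtain ⟨y, hy, hy'⟩ := h'.2.2.2.1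
        exact ⟨y, hy.trans hw, hy'⟩
    obtain ⟨z₁, z₂, e1, e2, h1, h2, h3⟩ := three (D := D) z
    rw [hz] at e1 e2
    exact h1 (h z z₁ hz e1 (key _ hz) (key _ e1))

theorem x0_block {A : Set H} {g : H → G} (hg : ∀ d, D.π (g d) = d) :
    (∃ z, D.π z = D.x₀ ∧ ¬ Arc D A g z) ∧
    ∀ z z', D.π z = D.x₀ → D.π z' = D.x₀ → ¬ Arc D A g z → ¬ Arc D A g z' → z⁻¹ * z' ∈ D.K := by
  have hone : ∀ w, D.π w = D.x₀ → ¬ Arc D A g w → (g D.x₀)⁻¹ * w ∈ D.K := by
    intro w hw hn
    have : Dbl D g w := by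
      by_contra hd
      exact hn (Or.inr (Or.inr (Or.inl ⟨hw, hd⟩)))
    obtain ⟨a, ha, b, hb, e⟩ := this
    rw [hw] at e
    rw [e]
    have : (g D.x₀)⁻¹ * (a * g D.x₀ * b) = ((g D.x₀)⁻¹ * a * g D.x₀) * b := by group
    rw [this]
    exact D.K.mul_mem (D.x₀_norm _ (hg _) a ha) hb
  refine ⟨⟨g D.x₀, hg _, ?_⟩, ?_⟩
  · rintro (h' | h' | h' | h')
    · rw [hg] at h'; exact x0_ne_one D h'
    · rw [hg] at h'; exact rho_ne_x0 D h'.symm
    · exact h'.2 ⟨1, D.K.one_mem, 1, D.K.one_mem, by rw [hg]; simp⟩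
    · exact h'.2.2.1 (hg _)
  · intro z z' hz hz' h1 h2
    have a1 := hone z hz h1
    have a2 := hone z' hz' h2
    have : z⁻¹ * z' = ((g D.x₀)⁻¹ * z)⁻¹ * ((g D.x₀)⁻¹ * z') := by group
    rw [this]
    exact D.K.mul_mem (D.K.inv_mem a1) a2

end Step12

open Step12 in
theorem step12 [Finite G] (A : Set H) (g : H → G) (hA : Half D A) (hg : ∀ d, D.π (g d) = d)
    (φ : Equiv.Perm (G ⧸ D.K)) (hφ : IsAut (dig D A g) φ) :
    ∃ g₀ : G, ∀ x y : G, φ (QuotientGroup.mk x : G ⧸ D.K) = (QuotientGroup.mk y : G ⧸ D.K) →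
      D.π y = D.π g₀ * D.π x := by
  -- arcs are preserved
  have harc : ∀ x y x' y' : G, φ (QuotientGroup.mk x : G ⧸ D.K) = (QuotientGroup.mk x' : G ⧸ D.K) →
      φ (QuotientGroup.mk y : G ⧸ D.K) = (QuotientGroup.mk y' : G ⧸ D.K) →
      (Arc D A g (x'⁻¹ * y') ↔ Arc D A g (x⁻¹ * y)) := by
    intro x y x' y' hx hy
    rw [← adj_mk D A g x' y', ← adj_mk D A g x y, ← hx, ← hy]
    exact hφ _ _
  have hblock : ∀ x y x' y' : G, φ (QuotientGroup.mk x : G ⧸ D.K) = (QuotientGroup.mk x' : G ⧸ D.K) →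
      φ (QuotientGroup.mk y : G ⧸ D.K) = (QuotientGroup.mk y' : G ⧸ D.K) →
      (D.π x' = D.π y' ↔ D.π x = D.π y) := by
    intro x y x' y' hx hy
    rw [← mutual_arcs hA x' y', ← mutual_arcs hA x y, harc x y x' y' hx hy, harc y x y' x' hy hx]
  have hfwd : ∀ x : G, ∃ x' : G, φ (QuotientGroup.mk x : G ⧸ D.K) = (QuotientGroup.mk x' : G ⧸ D.K) := by
    intro x
    obtain ⟨x', hx'⟩ := QuotientGroup.mk_surjective (φ (QuotientGroup.mk x : G ⧸ D.K))
    exact ⟨x', hx'.symm⟩
  have hbwd : ∀ x' : G, ∃ x : G, φ (QuotientGroup.mk x : G ⧸ D.K) = (QuotientGroup.mk x' : G ⧸ D.K) := by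
    intro x'
    obtain ⟨x, hx⟩ := QuotientGroup.mk_surjective (φ.symm (QuotientGroup.mk x' : G ⧸ D.K))
    exact ⟨x, by rw [hx]; simp⟩
  -- the good elements of `H`
  let P : H → Prop := fun d => ∀ x y x' y' : G,
    φ (QuotientGroup.mk x : G ⧸ D.K) = (QuotientGroup.mk x' : G ⧸ D.K) →
    φ (QuotientGroup.mk y : G ⧸ D.K) = (QuotientGroup.mk y' : G ⧸ D.K) →
    D.π y = D.π x * d → D.π y' = D.π x' * d
  have hdiv : ∀ x z : G, D.π (x⁻¹ * z) = (D.π x)⁻¹ * D.π z := by intro x z; rw [map_mul, map_inv]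
  have hρ : P D.ρ := by
    intro x y x' y' hx hy h
    have hfull : ∀ z, D.π z = (D.π x')⁻¹ * D.π y' → Arc D A g z := by
      intro z hz
      obtain ⟨w, hw⟩ := hbwd (x' * z)
      have h1 : D.π (x' * z) = D.π y' := by rw [map_mul, hz]; group
      have h2 := (hblock w y _ _ hw hy).1 h1
      have h3 : Arc D A g (x⁻¹ * w) := by
        right; left
        rw [hdiv, h2, h]; group
      have := (harc x w x' (x' * z) hx hw).2 h3
      simpa using this
    rcases full hg _ hfull with h1 | h1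
    · exfalso
      have : D.π x' = D.π y' := by
        rw [inv_mul_eq_one] at h1; exact h1
      have := (hblock x y x' y' hx hy).1 this
      rw [h] at this
      exact rho_ne_one D (by simpa using this.symm)
    · rw [← h1]; group
  have hx₀ : P D.x₀ := by
    intro x y x' y' hx hy h
    obtain ⟨⟨z, hz, hz'⟩, hu⟩ := x0_block (A := A) hg
    have := uniq (A := A) hg ((D.π x')⁻¹ * D.π y') ?_ ?_
    · rw [← this]; group
    · obtain ⟨w', hw'⟩ := hfwd (x * z)
      have h1 : D.π (x * z) = D.π y := by rw [map_mul, hz, h]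
      have h2 := (hblock (x * z) y w' y' hw' hy).2 h1
      refine ⟨x'⁻¹ * w', by rw [hdiv, h2], ?_⟩
      intro h3
      have := (harc x (x * z) x' w' hx hw').1 h3
      exact hz' (by simpa using this)
    · intro z₁ z₂ e1 e2 n1 n2
      obtain ⟨w₁, hw₁⟩ := hbwd (x' * z₁)
      obtain ⟨w₂, hw₂⟩ := hbwd (x' * z₂)
      have a1 : D.π w₁ = D.π y := (hblock w₁ y _ _ hw₁ hy).1 (by rw [map_mul, e1]; group)
      have a2 : D.π w₂ = D.π y := (hblock w₂ y _ _ hw₂ hy).1 (by rw [map_mul, e2]; group)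
      have b1 : ¬ Arc D A g (x⁻¹ * w₁) := by
        intro h3
        have := (harc x w₁ x' (x' * z₁) hx hw₁).2 h3
        exact n1 (by simpa using this)
      have b2 : ¬ Arc D A g (x⁻¹ * w₂) := by
        intro h3
        have := (harc x w₂ x' (x' * z₂) hx hw₂).2 h3
        exact n2 (by simpa using this)
      have c := hu (x⁻¹ * w₁) (x⁻¹ * w₂) (by rw [hdiv, a1, h]; group) (by rw [hdiv, a2, h]; group) b1 b2
      have c' : w₁⁻¹ * w₂ ∈ D.K := by
        have : (x⁻¹ * w₁)⁻¹ * (x⁻¹ * w₂) = w₁⁻¹ * w₂ := by group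
        rwa [this] at c
      have e : (QuotientGroup.mk w₁ : G ⧸ D.K) = (QuotientGroup.mk w₂ : G ⧸ D.K) := QuotientGroup.eq.2 c'
      rw [e, hw₂] at hw₁
      have := QuotientGroup.eq.1 hw₁.symm
      have e' : (x' * z₁)⁻¹ * (x' * z₂) = z₁⁻¹ * z₂ := by group
      rwa [e'] at this
  have hall : ∀ d : H, P d := by
    intro d
    have hd : d ∈ Subgroup.closure {D.ρ, D.x₀} := by rw [D.gen]; trivial
    induction hd using Subgroup.closure_induction with
    | mem d hd =>
      rcases hd with rfl | hd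
      · exact hρ
      · rw [Set.mem_singleton_iff] at hd
        rw [hd]; exact hx₀
    | one =>
      intro x y x' y' hx hy h
      rw [mul_one] at h ⊢
      exact ((hblock x y x' y' hx hy).2 h.symm).symm
    | mul a b _ _ ha hb =>
      intro x y x' y' hx hy h
      obtain ⟨t, ht⟩ := D.surj a
      obtain ⟨w, hw⟩ := hfwd (x * t)
      have h1 := ha x (x * t) x' w hx hw (by rw [map_mul, ht])
      have h2 := hb (x * t) y w y' hw hy (by rw [h, map_mul, ht, mul_assoc])
      rw [h2, h1, mul_assoc]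
    | inv a _ ha =>
      intro x y x' y' hx hy h
      have := ha y x y' x' hy hx (by rw [h]; group)
      rw [this]; group
  obtain ⟨g₀, hg₀⟩ := hfwd 1
  refine ⟨g₀, fun x y h => ?_⟩
  exact hall (D.π x) 1 x g₀ y hg₀ h (by simp)

end

end Poly
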