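import Pool.Agent.Poly.Defs

/-!
Module STEP56 (helper86): consistency of the translations and use of `D.closed`.
-/

set_option autoImplicit false

namespace Poly

section

variable {G H S : Type} [Group G] [Group H] [Group S] (D : CData G H S)

namespace Step56

/-- elements over `E` normalise `K` -/
theorem norm_E (z : G) (hz : D.π z ∈ D.E) (k : G) (hk : k ∈ D.K) : z * k * z⁻¹ ∈ D.K := by
  have h1 := D.E_act z⁻¹ (by rw [map_inv]; exact D.E.inv_mem hz) k (D.K_le hk)
  have h2 := D.K.mul_mem h1 hk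
  simpa using h2

/-- conjugation by an element of the kernel is trivial on the kernel -/
theorem conj_ker (n : G) (hn : n ∈ D.π.ker) (k : G) (hk : k ∈ D.K) : n * k * n⁻¹ = k := by
  rw [D.comm n hn k (D.K_le hk)]
  group

theorem sρ_ne : D.s D.ρ ≠ 1 := by
  intro h
  exact D.s_ρ (by rw [h, one_pow])

theorem E_ne_ρ (e : H) (he : e ∈ D.E) : e ≠ D.ρ ∧ e ≠ D.ρ⁻¹ := by
  have h1 : D.s e = 1 := D.E_le he
  constructor
  · rintro rfl
    exact sρ_ne D h1
  · rintro rfl
    rw [map_inv, inv_eq_one] at h1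
    exact sρ_ne D h1

/-- the choice of `e` -/
theorem exists_e (z : H) : ∃ e ∈ D.E, (z * e) ^ 2 ≠ 1 ∧ z * e ≠ D.ρ ∧ z * e ≠ D.ρ⁻¹ := by
  have h1 : ∃ e ∈ D.E, (z * e) ^ 2 ≠ 1 := by
    by_contra hcon
    push Not at hcon
    have hz : z ^ 2 = 1 := by simpa using hcon 1 D.E.one_mem
    have hinv : ∀ e ∈ D.E, z * e * z = e⁻¹ := by
      intro e he
      have := hcon e he
      rw [pow_two] at this
      exact eq_inv_of_mul_eq_one_left (by simpa [mul_assoc] using this)
    obtain ⟨e, he, f, hf, hne⟩ := D.E_na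
    apply hne
    have h2 := hinv (e * f) (D.E.mul_mem he hf)
    have hzz : z * z = 1 := by rw [← pow_two]; exact hz
    have h3 : z * (e * f) * z = (z * e * z) * (z * f * z) := by
      calc z * (e * f) * z = z * e * 1 * (f * z) := by group
        _ = z * e * (z * z) * (f * z) := by rw [hzz]
        _ = _ := by group
    rw [h3, hinv e he, hinv f hf, ← mul_inv_rev] at h2
    have h4 := inv_injective h2
    exact h4.symm
  obtain ⟨e, he, h2⟩ := h1
  by_cases h3 : z * e ≠ D.ρ ∧ z * e ≠ D.ρ⁻¹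
  · exact ⟨e, he, h2, h3⟩
  · have ha1 : D.a ≠ 1 := by
      have := D.a_pow 1 le_rfl (by omega)
      rwa [pow_one] at this
    have hsa : D.s D.a = 1 := D.E_le D.a_mem
    have hse : D.s e = 1 := D.E_le he
    refine ⟨e * D.a, D.E.mul_mem he D.a_mem, ?_⟩
    have hcase : z * e = D.ρ ∨ z * e = D.ρ⁻¹ := by tauto
    rw [← mul_assoc]
    rcases hcase with hc | hc
    · rw [hc]
      refine ⟨fun h => D.s_ρ ?_, fun h => ha1 ?_, fun h => D.s_ρ ?_⟩
      · have := congrArg D.s h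
        rwa [map_pow, map_mul, hsa, mul_one, map_one] at this
      · exact mul_eq_left.1 h
      · have := congrArg D.s h
        rw [map_mul, hsa, mul_one, map_inv] at this
        rw [pow_two]
        nth_rewrite 1 [this]
        rw [inv_mul_cancel]
    · rw [hc]
      refine ⟨fun h => D.s_ρ ?_, fun h => D.s_ρ ?_, fun h => ha1 ?_⟩
      · have := congrArg D.s h
        rw [map_pow, map_mul, hsa, mul_one, map_one, map_inv, inv_pow, inv_eq_one] at this
        exact this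
      · have := congrArg D.s h
        rw [map_mul, hsa, mul_one, map_inv] at this
        rw [pow_two]
        nth_rewrite 1 [← this]
        rw [inv_mul_cancel]
      · exact mul_eq_left.1 h

/-- consistency of two values -/
def Con (w : H → G) (x y : G) : Prop :=
  ∃ k ∈ D.K, ∃ k' ∈ D.K, (w (D.π x))⁻¹ * w (D.π y) = (x * k * x⁻¹) * (y * k' * y⁻¹)

variable {D} in
theorem Con.symm {w : H → G} {x y : G} (h : Con D w x y) : Con D w y x := by
  obtain ⟨k, hk, k', hk', e⟩ := h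
  refine ⟨k'⁻¹, D.K.inv_mem hk', k⁻¹, D.K.inv_mem hk, ?_⟩
  have h1 : (w (D.π y))⁻¹ * w (D.π x) = ((w (D.π x))⁻¹ * w (D.π y))⁻¹ := by group
  rw [h1, e]
  group

end Step56

open Step56

theorem step56 (A : Set H) (g : H → G) (hA : Half D A) (hg : ∀ d, D.π (g d) = d)
    (φ : Equiv.Perm (G ⧸ D.K))
    (hπ : ∀ x y : G, φ (QuotientGroup.mk x : G ⧸ D.K) = (QuotientGroup.mk y : G ⧸ D.K) → D.π y = D.π x)
    (h3 : ∀ x y x' y' : G, φ (QuotientGroup.mk x : G ⧸ D.K) = (QuotientGroup.mk x' : G ⧸ D.K) →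
      φ (QuotientGroup.mk y : G ⧸ D.K) = (QuotientGroup.mk y' : G ⧸ D.K) →
      D.π (x⁻¹ * y) ∈ A → D.π (x⁻¹ * y) ≠ D.ρ → (Dbl D g (x⁻¹ * y) ↔ Dbl D g (x'⁻¹ * y')))
    (h4 : ∀ x n x' : G, n ∈ D.π.ker → φ (QuotientGroup.mk x : G ⧸ D.K) = (QuotientGroup.mk x' : G ⧸ D.K) →
      φ (QuotientGroup.mk (x * n) : G ⧸ D.K) = (QuotientGroup.mk (x' * n) : G ⧸ D.K)) :
    ∃ v ∈ D.π.ker, ∀ x : G, φ (QuotientGroup.mk x : G ⧸ D.K) = (QuotientGroup.mk (v * x) : G ⧸ D.K) := by
  -- the translation above `h`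
  have hex : ∀ h : H, ∃ w : G, w ∈ D.π.ker ∧ ∀ y : G, D.π y = h →
      φ (QuotientGroup.mk y : G ⧸ D.K) = (QuotientGroup.mk (w * y) : G ⧸ D.K) := by
    intro h
    obtain ⟨x, hx⟩ := D.surj h
    obtain ⟨x', hx'⟩ := QuotientGroup.mk_surjective (φ (QuotientGroup.mk x : G ⧸ D.K))
    refine ⟨x' * x⁻¹, ?_, fun y hy => ?_⟩
    · rw [MonoidHom.mem_ker, map_mul, map_inv, hπ x x' hx'.symm, mul_inv_cancel]
    · have h1 := h4 x (x⁻¹ * y) x' (by rw [MonoidHom.mem_ker, map_mul, map_inv, hx, hy, inv_mul_cancel])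
        hx'.symm
      rw [mul_inv_cancel_left] at h1
      rw [h1, mul_assoc]
  choose w hwk hw using hex
  -- step 5
  have hconA : ∀ x y : G, D.π (x⁻¹ * y) ∈ A → D.π (x⁻¹ * y) ≠ D.ρ → Con D w x y := by
    intro x y h1 h2
    set d := D.π (x⁻¹ * y) with hd
    have hy0 : D.π (x⁻¹ * (x * g d)) = d := by rw [inv_mul_cancel_left, hg]
    have hπy : D.π (x * g d) = D.π y := by
      rw [map_mul, hg, hd, map_mul, map_inv, mul_inv_cancel_left]
    have h5 := (h3 x (x * g d) (w (D.π x) * x) (w (D.π (x * g d)) * (x * g d)) (hw _ x rfl)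
      (hw _ (x * g d) rfl) (by rw [hy0]; exact h1) (by rw [hy0]; exact h2)).1
      ⟨1, D.K.one_mem, 1, D.K.one_mem, by rw [hy0]; group⟩
    obtain ⟨k, hk, k', hk', e⟩ := h5
    have hz : D.π ((w (D.π x) * x)⁻¹ * (w (D.π (x * g d)) * (x * g d))) = d := by
      rw [map_mul, map_inv, map_mul, map_mul, (hwk _ : D.π _ = 1), (hwk _ : D.π _ = 1), one_mul,
        one_mul, ← map_inv, ← map_mul, hy0]
    rw [hz, hπy] at e
    refine ⟨k, hk, k', hk', ?_⟩
    have h6 : (w (D.π x))⁻¹ * w (D.π y) = x * (k * g d * k') * (g d)⁻¹ * x⁻¹ := by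
      rw [← e]; group
    rw [h6]
    have h7 : y * k' * y⁻¹ = x * g d * k' * (x * g d)⁻¹ := by
      have h8 : y = x * g d * ((x * g d)⁻¹ * y) := by group
      have h9 : ((x * g d)⁻¹ * y) ∈ D.π.ker := by
        rw [MonoidHom.mem_ker, map_mul, map_inv, hπy, inv_mul_cancel]
      have h10 := conj_ker D _ h9 k' hk'
      calc y * k' * y⁻¹ = (x * g d * ((x * g d)⁻¹ * y)) * k' * (x * g d * ((x * g d)⁻¹ * y))⁻¹ := by
            rw [← h8]
        _ = x * g d * (((x * g d)⁻¹ * y) * k' * ((x * g d)⁻¹ * y)⁻¹) * (x * g d)⁻¹ := by group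
        _ = _ := by rw [h10]
    rw [h7]
    group
  have hcon : ∀ x y : G, (D.π (x⁻¹ * y)) ^ 2 ≠ 1 → D.π (x⁻¹ * y) ≠ D.ρ →
      D.π (x⁻¹ * y) ≠ D.ρ⁻¹ → Con D w x y := by
    intro x y h1 h2 h5
    rcases hA.tot _ h1 with h6 | h6
    · exact hconA x y h6 h2
    · refine (hconA y x ?_ ?_).symm
      · rw [← map_inv] at h6
        simpa using h6
      · intro h7
        apply h5
        rw [← h7, ← map_inv]
        congr 1
        group
  -- values along `E`
  have hE : ∀ e ∈ D.E, ∀ x z : G, D.π z = e →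
      x⁻¹ * ((w (D.π x))⁻¹ * w (D.π (x * z))) * x ∈ D.K := by
    intro e he
    have he' := D.E_gen he
    have hle : Subgroup.closure {e : H | e ∈ D.E ∧ e ^ 2 ≠ 1} ≤ D.E := by
      rw [Subgroup.closure_le]
      exact fun f hf => hf.1
    clear he
    induction he' using Subgroup.closure_induction with
    | mem f hf =>
      intro x z hz
      have h1 : D.π (x⁻¹ * (x * z)) = f := by rw [inv_mul_cancel_left, hz]
      obtain ⟨k, hk, k', hk', e1⟩ := hcon x (x * z) (by rw [h1]; exact hf.2)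
        (by rw [h1]; exact (E_ne_ρ D f hf.1).1) (by rw [h1]; exact (E_ne_ρ D f hf.1).2)
      rw [e1]
      have h2 : x⁻¹ * (x * k * x⁻¹ * (x * z * k' * (x * z)⁻¹)) * x = k * (z * k' * z⁻¹) := by group
      rw [h2]
      exact D.K.mul_mem hk (norm_E D z (by rw [hz]; exact hf.1) k' hk')
    | one =>
      intro x z hz
      have h1 : D.π (x * z) = D.π x := by rw [map_mul, hz, mul_one]
      rw [h1]
      have h2 : x⁻¹ * ((w (D.π x))⁻¹ * w (D.π x)) * x = 1 := by group
      rw [h2]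
      exact D.K.one_mem
    | mul f f' hf hf' ih ih' =>
      intro x z hz
      obtain ⟨z₁, hz₁⟩ := D.surj f
      have h1 := ih x z₁ hz₁
      have h2 := ih' (x * z₁) (z₁⁻¹ * z) (by rw [map_mul, map_inv, hz₁, hz, inv_mul_cancel_left])
      have h3' := norm_E D z₁ (by rw [hz₁]; exact hle hf) _ h2
      have h5 := D.K.mul_mem h1 h3'
      have h6 : x * z₁ * (z₁⁻¹ * z) = x * z := by group
      rw [h6] at h5
      convert h5 using 1
      group
    | inv f hf ih =>
      intro x z hz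
      have h1 := ih (x * z) z⁻¹ (by rw [map_inv, hz, inv_inv])
      have h6 : x * z * z⁻¹ = x := by group
      rw [h6] at h1
      have h2 := norm_E D z (by rw [hz]; exact D.E.inv_mem (hle hf)) _ (D.K.inv_mem h1)
      convert h2 using 1
      group
  -- all pairs are consistent
  have hall : ∀ x y : G, Con D w x y := by
    intro x y
    obtain ⟨e, he, h1, h2, h5⟩ := exists_e D (D.π (x⁻¹ * y))
    have h6 : D.π (x⁻¹ * (y * g e)) = D.π (x⁻¹ * y) * e := by
      rw [← mul_assoc, map_mul _ (x⁻¹ * y), hg]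
    obtain ⟨k, hk, k', hk', e1⟩ := hcon x (y * g e) (by rw [h6]; exact h1) (by rw [h6]; exact h2)
      (by rw [h6]; exact h5)
    have h7 := hE e he y (g e) (hg e)
    refine ⟨k, hk, (g e * k' * (g e)⁻¹) * (y⁻¹ * ((w (D.π y))⁻¹ * w (D.π (y * g e))) * y)⁻¹,
      D.K.mul_mem (norm_E D (g e) (by rw [hg]; exact he) k' hk') (D.K.inv_mem h7), ?_⟩
    have h8 : (w (D.π x))⁻¹ * w (D.π y) = ((w (D.π x))⁻¹ * w (D.π (y * g e))) *
        ((w (D.π y))⁻¹ * w (D.π (y * g e)))⁻¹ := by group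
    rw [h8, e1]
    group
  obtain ⟨v, hv, hv'⟩ := D.closed w hwk hall
  refine ⟨v, hv, fun x => ?_⟩
  rw [hw _ x rfl, QuotientGroup.eq]
  have := hv' x
  have h9 : (w (D.π x) * x)⁻¹ * (v * x) = x⁻¹ * ((w (D.π x))⁻¹ * v) * x := by group
  rw [h9]
  exact this

end

end Poly
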