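import Pool.Agent.Poly.Dig
import Pool.Agent.Poly.Step56

/-!
Module STEP34 (helper86): preservation of the double coset relations, and translations by the kernel.
-/

set_option autoImplicit false

namespace Poly

section

variable {G H S : Type} [Group G] [Group H] [Group S] (D : CData G H S)

theorem step3 (A : Set H) (g : H → G) (hA : Half D A) (hg : ∀ d, D.π (g d) = d)
    (φ : Equiv.Perm (G ⧸ D.K)) (hφ : IsAut (dig D A g) φ)
    (hπ : ∀ x y : G, φ (QuotientGroup.mk x : G ⧸ D.K) = (QuotientGroup.mk y : G ⧸ D.K) → D.π y = D.π x)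
    (x y x' y' : G) (hx : φ (QuotientGroup.mk x : G ⧸ D.K) = (QuotientGroup.mk x' : G ⧸ D.K))
    (hy : φ (QuotientGroup.mk y : G ⧸ D.K) = (QuotientGroup.mk y' : G ⧸ D.K))
    (h1 : D.π (x⁻¹ * y) ∈ A) (h2 : D.π (x⁻¹ * y) ≠ D.ρ) :
    Dbl D g (x⁻¹ * y) ↔ Dbl D g (x'⁻¹ * y') := by
  have hd : D.π (x'⁻¹ * y') = D.π (x⁻¹ * y) := by
    rw [map_mul, map_inv, hπ x x' hx, hπ y y' hy, map_mul, map_inv]
  have hadj : Arc D A g (x'⁻¹ * y') ↔ Arc D A g (x⁻¹ * y) := by
    rw [← adj_mk, ← adj_mk, ← hx, ← hy]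
    exact hφ _ _
  have hne : D.π (x⁻¹ * y) ≠ 1 := by
    intro h
    rw [h] at h1
    exact hA.anti 1 h1 (by rw [inv_one]; exact h1)
  unfold Arc at hadj
  rw [hd] at hadj
  by_cases hx0 : D.π (x⁻¹ * y) = D.x₀
  · simp only [hne, h2, hx0, ne_eq, not_true_eq_false, false_and, and_false, or_false, false_or,
      true_and] at hadj
    by_cases hc : D.x₀ = 1 ∨ D.x₀ = D.ρ
    · rcases hc with hc | hc
      · exact absurd (hx0.trans hc) hne
      · exact absurd (hx0.trans hc) h2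
    · rw [not_or] at hc
      simp only [hc.1, hc.2, false_or] at hadj
      exact (not_iff_not.1 hadj).symm
  · by_cases hex : ∃ z, D.π z = D.π (x⁻¹ * y) ∧ ¬ Dbl D g z
    · simp only [hne, h2, hx0, h1, ne_eq, not_false_eq_true, false_and, false_or, true_and,
        hex] at hadj
      exact hadj.symm
    · push Not at hex
      exact ⟨fun _ => hex _ hd, fun _ => hex _ rfl⟩

namespace Step34

/-- elements above `E` whose right multiplication commutes with `φ` -/
def comm (φ : Equiv.Perm (G ⧸ D.K)) : Subgroup G where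
  carrier := {u | D.π u ∈ D.E ∧ ∀ x x' : G, φ (QuotientGroup.mk x : G ⧸ D.K) = (QuotientGroup.mk x' : G ⧸ D.K) →
    φ (QuotientGroup.mk (x * u) : G ⧸ D.K) = (QuotientGroup.mk (x' * u) : G ⧸ D.K)}
  one_mem' := ⟨by rw [map_one]; exact D.E.one_mem, fun x x' h => by rw [mul_one, mul_one]; exact h⟩
  mul_mem' := by
    rintro u v ⟨hu, hu'⟩ ⟨hv, hv'⟩
    refine ⟨by rw [map_mul]; exact D.E.mul_mem hu hv, fun x x' h => ?_⟩
    rw [← mul_assoc, ← mul_assoc]
    exact hv' _ _ (hu' _ _ h)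
  inv_mem' := by
    rintro u ⟨hu, hu'⟩
    refine ⟨by rw [map_inv]; exact D.E.inv_mem hu, fun x x' h => ?_⟩
    obtain ⟨y', hy'⟩ := QuotientGroup.mk_surjective (φ (QuotientGroup.mk (x * u⁻¹) : G ⧸ D.K))
    have h1 := hu' _ _ hy'.symm
    rw [inv_mul_cancel_right, h, QuotientGroup.eq] at h1
    rw [← hy', QuotientGroup.eq]
    have h2 := Step56.norm_E D u hu _ (D.K.inv_mem h1)
    convert h2 using 1
    group

end Step34

open Step34

theorem step4 (A : Set H) (g : H → G) (a₁ : G) (hA : Half D A) (hg : Lift D g a₁)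
    (φ : Equiv.Perm (G ⧸ D.K)) (hφ : IsAut (dig D A g) φ)
    (hπ : ∀ x y : G, φ (QuotientGroup.mk x : G ⧸ D.K) = (QuotientGroup.mk y : G ⧸ D.K) → D.π y = D.π x)
    (x n x' : G) (hn : n ∈ D.π.ker)
    (hx : φ (QuotientGroup.mk x : G ⧸ D.K) = (QuotientGroup.mk x' : G ⧸ D.K)) :
    φ (QuotientGroup.mk (x * n) : G ⧸ D.K) = (QuotientGroup.mk (x' * n) : G ⧸ D.K) := by
  -- the lifts of elements of `E ∩ A`
  have hlift : ∀ d ∈ D.E, d ∈ A → g d ∈ comm D φ := by
    intro d hd hdA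
    refine ⟨by rw [hg.sec]; exact hd, fun x x' hx => ?_⟩
    obtain ⟨y', hy'⟩ := QuotientGroup.mk_surjective (φ (QuotientGroup.mk (x * g d) : G ⧸ D.K))
    have h0 : D.π (x⁻¹ * (x * g d)) = d := by rw [inv_mul_cancel_left, hg.sec]
    have h1 := (step3 D A g hA hg.sec φ hφ hπ x (x * g d) x' y' hx hy'.symm (by rw [h0]; exact hdA)
      (by rw [h0]; exact (Step56.E_ne_ρ D d hd).1)).1 ⟨1, D.K.one_mem, 1, D.K.one_mem, by rw [h0]; group⟩
    obtain ⟨k, hk, k', hk', e⟩ := h1
    have h2 : D.π (x'⁻¹ * y') = d := by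
      rw [map_mul, map_inv, hπ x x' hx, hπ (x * g d) y' hy'.symm, map_mul, hg.sec,
        inv_mul_cancel_left]
    rw [h2] at e
    rw [← hy', QuotientGroup.eq]
    have h3 := Step56.norm_E D (g d)⁻¹ (by rw [map_inv, hg.sec]; exact D.E.inv_mem hd) k hk
    have h4 := D.K.inv_mem (D.K.mul_mem h3 hk')
    have h5 : y' = x' * (k * g d * k') := by rw [← e]; group
    rw [h5]
    convert h4 using 1
    group
  -- the prescribed lifts
  have hpow : ∀ j : Fin (D.m + 1), a₁ ^ (j.val + 1) * D.n' j ∈ comm D φ := by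
    intro j
    have hdE : D.a ^ (j.val + 1) ∈ D.E := D.E.pow_mem D.a_mem _
    have hsq : (D.a ^ (j.val + 1)) ^ 2 ≠ 1 := by
      rw [← pow_mul]
      exact D.a_pow _ (by omega) (by have := j.2; omega)
    rcases hA.tot _ hsq with h1 | h1
    · rw [← hg.pow j]
      exact hlift _ hdE h1
    · have h2 := hlift _ (D.E.inv_mem hdE) h1
      rw [hg.pow_inv j] at h2
      have h3 := (comm D φ).inv_mem h2
      rwa [inv_inv] at h3
  have ha₁ : a₁ ∈ comm D φ := by
    have h1 := hpow 0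
    simpa [CData.n'] using h1
  have hn' : ∀ i : Fin D.m, D.n i ∈ comm D φ := by
    intro i
    have h1 := hpow i.succ
    have h2 : D.n' i.succ = D.n i := by simp [CData.n']
    rw [h2] at h1
    have h3 := (comm D φ).mul_mem ((comm D φ).inv_mem ((comm D φ).pow_mem ha₁ (i.succ.val + 1))) h1
    rwa [inv_mul_cancel_left] at h3
  have hK : ∀ k ∈ D.K, k ∈ comm D φ := by
    intro k hk
    refine ⟨by rw [(D.K_le hk : D.π k = 1)]; exact D.E.one_mem, fun x x' hx => ?_⟩
    have h1 : ∀ z : G, (QuotientGroup.mk (z * k) : G ⧸ D.K) = (QuotientGroup.mk z : G ⧸ D.K) := by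
      intro z
      rw [QuotientGroup.eq]
      have h2 : (z * k)⁻¹ * z = k⁻¹ := by group
      rw [h2]
      exact D.K.inv_mem hk
    rw [h1, h1, hx]
  have hle : D.π.ker ≤ comm D φ := by
    refine D.n_gen.trans ?_
    rw [Subgroup.closure_le]
    rintro u (hu | ⟨i, rfl⟩)
    · exact hK u hu
    · exact hn' i
  exact (hle hn).2 x x' hx

end

end Poly
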