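import Pool.Agent.Poly.Half
import Pool.Agent.Poly.Dig
import Pool.Agent.Poly.Step12
import Pool.Agent.Poly.Step34
import Pool.Agent.Poly.Step56
import Pool.Agent.Poly.Semi

set_option autoImplicit false

namespace Poly

section

variable {G H S : Type} [Group G] [Group H] [Group S] (D : CData G H S)

theorem aut_eq [Finite G] (A : Set H) (g : H → G) (a₁ : G) (hA : Half D A) (hg : Lift D g a₁)
    (φ : Equiv.Perm (G ⧸ D.K)) (hφ : IsAut (dig D A g) φ) : ∃ g₀ : G, φ = leftMul D g₀ := by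
  obtain ⟨g₀, h⟩ := step12 D A g hA hg.sec φ hφ
  have hψ : IsAut (dig D A g) ((leftMul D g₀)⁻¹ * φ) := by
    intro x y
    have := leftMul_aut D A g g₀ ((leftMul D g₀)⁻¹ (φ x)) ((leftMul D g₀)⁻¹ (φ y))
    rw [show leftMul D g₀ ((leftMul D g₀)⁻¹ (φ x)) = φ x from Equiv.apply_symm_apply _ _,
      show leftMul D g₀ ((leftMul D g₀)⁻¹ (φ y)) = φ y from Equiv.apply_symm_apply _ _] at this
    rw [Equiv.Perm.mul_apply, Equiv.Perm.mul_apply, ← this]
    exact hφ x y
  have hπ : ∀ x y : G, ((leftMul D g₀)⁻¹ * φ) (QuotientGroup.mk x : G ⧸ D.K) = (QuotientGroup.mk y : G ⧸ D.K) →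
      D.π y = D.π x := by
    intro x y e
    rw [Equiv.Perm.mul_apply, Equiv.Perm.inv_eq_iff_eq] at e
    rw [leftMul_mk] at e
    have := h x _ e
    rw [map_mul] at this
    exact mul_left_cancel this
  obtain ⟨v, hv, hv'⟩ := step56 D A g hA hg.sec _ hπ
    (fun x y x' y' hx hy h1 h2 => step3 D A g hA hg.sec _ hψ hπ x y x' y' hx hy h1 h2)
    (fun x n x' hn hx => step4 D A g a₁ hA hg _ hψ hπ x n x' hn hx)
  refine ⟨g₀ * v, ?_⟩
  ext u
  obtain ⟨x, rfl⟩ := QuotientGroup.mk_surjective u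
  have := hv' x
  rw [Equiv.Perm.mul_apply, Equiv.Perm.inv_eq_iff_eq, leftMul_mk] at this
  rw [this, leftMul_mk, mul_assoc]

/-- the abstract theorem -/
theorem thmA [Finite G] (D : CData G H S) :
    ¬ (∀ (V : Type) [Fintype V] [Nontrivial V] (Γ : Digraph V),
      (∀ u v : V, ∃ σ : Equiv.Perm V,
          (∀ x y : V, Γ.Adj (σ x) (σ y) ↔ Γ.Adj x y) ∧ σ u = v) →
      ∃ σ : Equiv.Perm V,
        (∀ x y : V, Γ.Adj (σ x) (σ y) ↔ Γ.Adj x y) ∧ σ ≠ 1 ∧
        ∀ x y : V, Function.minimalPeriod σ x = Function.minimalPeriod σ y) := by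
  intro hall
  obtain ⟨A, hA⟩ := exists_half D
  obtain ⟨g, a₁, hg⟩ := exists_lift D
  have : Fintype (G ⧸ D.K) := Fintype.ofFinite _
  have : Nontrivial (G ⧸ D.K) := by
    obtain ⟨n₁, hn₁, n₂, hn₂, h1, h2, h3⟩ := D.big
    refine ⟨⟨(QuotientGroup.mk 1 : G ⧸ D.K), (QuotientGroup.mk n₁ : G ⧸ D.K), ?_⟩⟩
    intro e
    rw [QuotientGroup.eq] at e
    simp only [inv_one, one_mul] at e
    exact h1 e
  obtain ⟨σ, hσ, hne, hper⟩ := hall (G ⧸ D.K) (dig D A g) (dig_trans D A g)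
  obtain ⟨r, k, hr, hpow, hfix⟩ := exists_prime_power σ hne hper
  have hk : IsAut (dig D A g) (σ ^ k) := by
    clear hpow hfix
    induction k with
    | zero => intro x y; simp
    | succ k ih =>
      intro x y
      rw [pow_succ', Equiv.Perm.mul_apply, Equiv.Perm.mul_apply]
      exact (hσ _ _).trans (ih x y)
  obtain ⟨g₀, hg₀⟩ := aut_eq D A g a₁ hA hg _ hk
  have hpow' : ∀ j : ℕ, ∀ x : G, (leftMul D g₀ ^ j) (QuotientGroup.mk x : G ⧸ D.K) =
      (QuotientGroup.mk (g₀ ^ j * x) : G ⧸ D.K) := by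
    intro j
    induction j with
    | zero => intro x; simp
    | succ j ih =>
      intro x
      rw [pow_succ', Equiv.Perm.mul_apply, ih, leftMul_mk, pow_succ', mul_assoc]
  have hcore : ∀ x : G, x⁻¹ * g₀ ^ r * x ∈ D.K := by
    intro x
    have := hpow' r x
    rw [← hg₀, hpow] at this
    rw [Equiv.Perm.one_apply, QuotientGroup.eq] at this
    simpa [mul_assoc] using this
  have h1 := D.tors g₀ r hr hcore
  obtain ⟨x, hx⟩ := D.cover g₀ (by simpa [MonoidHom.mem_ker] using h1) r hr hcore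
  refine hfix (QuotientGroup.mk x : G ⧸ D.K) ?_
  rw [hg₀, leftMul_mk, eq_comm, QuotientGroup.eq]
  simpa [mul_assoc] using hx

end

end Poly
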