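import Pool.Agent.Poly.Obj

set_option autoImplicit false

namespace Poly

/-- embeddings of a set of size at most 31 are conjugate under the alternating group -/
theorem alt_ext {Y : Type} [Finite Y] (hY : Nat.card Y ≤ 31) (f f' : Y ↪ Fin 33) :
    ∃ σ : alternatingGroup (Fin 33), ∀ y, (σ : Equiv.Perm (Fin 33)) (f y) = f' y := by
  have h31 : MulAction.IsMultiplyPretransitive (alternatingGroup (Fin 33)) (Fin 33) 31 := by
    have h := alternatingGroup.isMultiplyPretransitive (Fin 33)
    simpa using h
  have hm : MulAction.IsMultiplyPretransitive (alternatingGroup (Fin 33)) (Fin 33) (Nat.card Y) :=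
    MulAction.isMultiplyPretransitive_of_le hY (by simp)
  let e : Fin (Nat.card Y) ≃ Y := (Finite.equivFin Y).symm
  rw [MulAction.isMultiplyPretransitive_iff] at hm
  obtain ⟨σ, hσ⟩ := hm (e.toEmbedding.trans f) (e.toEmbedding.trans f')
  refine ⟨σ, fun y => ?_⟩
  have h := DFunLike.congr_fun hσ (e.symm y)
  simpa [Function.Embedding.smul_apply, Subgroup.smul_def] using h

/-- embeddings into `Fin 6` are conjugate under the symmetric group -/
theorem perm_ext {Y : Type} [Finite Y] (f f' : Y → Fin 6) (hf : Function.Injective f)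
    (hf' : Function.Injective f') : ∃ σ : Equiv.Perm (Fin 6), ∀ y, σ (f y) = f' y := by
  obtain ⟨σ, hσ⟩ := Equiv.Perm.exists_extending_pair f f' hf hf'
  exact ⟨σ, hσ⟩

end Poly
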