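import Pool.Agent.Poly.Alt

set_option autoImplicit false

namespace Poly

instance finite_BObj {X : Type} [Finite X] : Finite (BObj X) := by
  refine Finite.of_injective (β := Fin 6 × (X ↪ Fin 33)) (fun o => (o.i, o.β)) ?_
  rintro ⟨i, β⟩ ⟨i', β'⟩ e
  simp only [Prod.mk.injEq] at e
  rw [e.1, e.2]

theorem base_stab {r : ℕ} (L : Loc r) (b : L.B) (α : BObj L.X) : b • α = α ↔ b ∈ L.M := by
  rw [B_smul_B, ← inv_mem_iff, L.ker]
  constructor
  · intro h x
    have h2 : pre b α.β = α.β := congrArg BObj.β h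
    have h3 := DFunLike.congr_fun h2 x
    rw [pre_apply] at h3
    exact α.β.injective h3
  · intro h
    ext1
    · rfl
    · ext x
      simp [h x]

theorem base_perp2 {X : Type} (α β β' : BObj X) : ∃ γ : BObj X, α.i ≠ γ.i ∧ β.i ≠ γ.i ∧ β'.i ≠ γ.i := by
  have h : ∀ i j k : Fin 6, ∃ l : Fin 6, i ≠ l ∧ j ≠ l ∧ k ≠ l := by decide
  obtain ⟨l, h1, h2, h3⟩ := h α.i β.i β'.i
  exact ⟨⟨l, α.β⟩, h1, h2, h3⟩

theorem base_perp3 {r : ℕ} (L : Loc r) (f f' : Fin 3 → BObj L.X) (hf : ∀ i j, i ≠ j → (f i).i ≠ (f j).i)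
    (hf' : ∀ i j, i ≠ j → (f' i).i ≠ (f' j).i) : ∃ h : HH, ∀ i, h • f i = f' i := by
  classical
  have hi : Function.Injective fun j => (f j).i := by
    intro i j h
    by_contra hne
    exact hf i j hne h
  have hi' : Function.Injective fun j => (f' j).i := by
    intro i j h
    by_contra hne
    exact hf' i j hne h
  obtain ⟨s, hs⟩ := perm_ext (fun j => (f j).i) (fun j => (f' j).i) hi hi'
  have hc : Nat.card L.X ≤ 31 := by
    rw [Nat.card_eq_fintype_card]; exact L.card_X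
  choose σ hσ using fun j : Fin 3 => alt_ext hc (f j).β (f' j).β
  refine ⟨⟨s, fun i => if h : ∃ j, (f j).i = i then σ h.choose else 1⟩, fun j => ?_⟩
  have hex : ∃ j', (f j').i = (f j).i := ⟨j, rfl⟩
  have hch : hex.choose = j := hi hex.choose_spec
  rw [HH_smul_B]
  ext1
  · exact hs j
  · simp only [dif_pos hex, hch]
    ext x
    simp [hσ j x]

end Poly
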