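import Pool.Agent.Poly.Defs

set_option autoImplicit false

/-!
Module CLOSED (helper74): pairwise consistent families come from one equivariant function.
-/

namespace Poly

section

variable {H : Type} [Group H] (T : PType H)

namespace ClosedAux

theorem exists_h {T : PType H} {α β γ : T.A} (h1 : T.perp α β) (h2 : T.perp α γ)
    (h3 : T.perp β γ) : ∃ h : H, h • T.tm 0 = α ∧ h • T.tm 1 = β ∧ h • T.tm 2 = γ := by
  obtain ⟨h, hh⟩ := T.perp3 T.tm ![α, β, γ] T.tm_perp (by
    intro i j hij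
    fin_cases i <;> fin_cases j <;> simp at hij ⊢
    · exact h1
    · exact h2
    · exact T.perp_symm _ _ h1
    · exact h3
    · exact T.perp_symm _ _ h2
    · exact T.perp_symm _ _ h3)
  exact ⟨h, hh 0, hh 1, hh 2⟩

theorem exists_h2 {T : PType H} {α β : T.A} (h1 : T.perp α β) :
    ∃ h : H, h • T.tm 0 = α ∧ h • T.tm 1 = β := by
  obtain ⟨γ, h2, h3, _⟩ := T.perp2 α β β h1 h1
  obtain ⟨h, e1, e2, _⟩ := exists_h h1 h2 h3
  exact ⟨h, e1, e2⟩

theorem perp_BB {T : PType H} {α β : T.A} (b b' : T.B) (h : T.perp α β) :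
    T.perp (b • α) (b' • β) :=
  T.perp_symm _ _ (T.perp_B b' _ _ (T.perp_symm _ _ (T.perp_B b _ _ h)))

theorem closed_abs {N : Type} [AddCommGroup N] (c : T.B → N →+ N)
    (c_mul : ∀ b b' n, c (b * b') n = c b (c b' n))
    (c_comm : ∀ b n, c (T.c₀ * b) n = c (b * T.c₀) n)
    (c_one : ∀ n, c 1 n = n)
    (c_inj : ∀ n, c T.c₀ n = n → n = 0) (c_surj : ∀ n, ∃ m, c T.c₀ m - m = n)
    (W : H → T.A → N) (hW : ∀ h b α, W h (b • α) = c b (W h α))
    (hc : ∀ h h' : H, ∃ u u' : T.A → N, (∀ b α, u (b • α) = c b (u α)) ∧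
      (∀ b α, u' (b • α) = c b (u' α)) ∧ (∀ i j, u (h • T.tm i) = u (h • T.tm j)) ∧
      (∀ i j, u' (h' • T.tm i) = u' (h' • T.tm j)) ∧ ∀ x, W h' x = W h x + u x + u' x) :
    ∃ v : T.A → N, (∀ b α, v (b • α) = c b (v α)) ∧
      ∀ (h : H) (i j : Fin 3), - W h (h • T.tm i) + v (h • T.tm i)
        = - W h (h • T.tm j) + v (h • T.tm j) := by
  classical
  -- the key comparison
  have key : ∀ (h h' : H) (i j i' j' : Fin 3) (b b' : T.B), (∀ n, c b n = c b' n) →
      h' • T.tm i' = b • h • T.tm i → h' • T.tm j' = b' • h • T.tm j →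
      W h' (h' • T.tm j') - W h' (h' • T.tm i')
        = c b (W h (h • T.tm j) - W h (h • T.tm i)) := by
    intro h h' i j i' j' b b' hb e1 e2
    obtain ⟨u, u', hu, hu', hui, hui', hx⟩ := hc h h'
    have a1 := hx (h' • T.tm i')
    have a2 := hx (h' • T.tm j')
    have a3 : W h (h' • T.tm i') = c b (W h (h • T.tm i)) := by rw [e1, hW]
    have a4 : W h (h' • T.tm j') = c b (W h (h • T.tm j)) := by rw [e2, hW, hb]
    have a5 : u (h' • T.tm i') = c b (u (h • T.tm i)) := by rw [e1, hu]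
    have a6 : u (h' • T.tm j') = c b (u (h • T.tm j)) := by rw [e2, hu, hb]
    have a7 := hui i j
    have a8 := hui' i' j'
    rw [a1, a2, a3, a4, a5, a6, a7, a8, map_sub]
    abel
  let F : T.A → T.A → N := fun α β =>
    if hab : T.perp α β then W (exists_h2 hab).choose β - W (exists_h2 hab).choose α else 0
  have F_eq : ∀ {α β : T.A} (hab : T.perp α β) (h : H) (i j : Fin 3), h • T.tm i = α →
      h • T.tm j = β → F α β = W h β - W h α := by
    intro α β hab h i j e1 e2
    have hsp := (exists_h2 hab).choose_spec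
    have := key h (exists_h2 hab).choose i j 0 1 1 1 (fun _ => rfl)
      (by rw [hsp.1, one_smul, e1]) (by rw [hsp.2, one_smul, e2])
    rw [c_one, hsp.1, hsp.2, e1, e2] at this
    simp only [F, dif_pos hab]
    exact this
  have F_anti : ∀ {α β : T.A}, T.perp α β → F β α = - F α β := by
    intro α β hab
    obtain ⟨h, e1, e2⟩ := exists_h2 hab
    rw [F_eq hab h 0 1 e1 e2, F_eq (T.perp_symm _ _ hab) h 1 0 e2 e1]
    abel
  have F_coc : ∀ {α β γ : T.A}, T.perp α β → T.perp α γ → T.perp β γ →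
      F α β + F β γ = F α γ := by
    intro α β γ h1 h2 h3
    obtain ⟨h, e1, e2, e3⟩ := exists_h h1 h2 h3
    rw [F_eq h1 h 0 1 e1 e2, F_eq h3 h 1 2 e2 e3, F_eq h2 h 0 2 e1 e3]
    abel
  have F_equiv : ∀ {α β : T.A}, T.perp α β → ∀ b b' : T.B, (∀ n, c b n = c b' n) →
      F (b • α) (b' • β) = c b (F α β) := by
    intro α β hab b b' hb
    obtain ⟨h, e1, e2⟩ := exists_h2 hab
    obtain ⟨h', e1', e2'⟩ := exists_h2 (perp_BB b b' hab)
    rw [F_eq hab h 0 1 e1 e2, F_eq (perp_BB b b' hab) h' 0 1 e1' e2']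
    have := key h h' 0 1 0 1 b b' hb (by rw [e1', e1]) (by rw [e2', e2])
    rw [e1', e2', e1, e2] at this
    exact this
  -- the function `(c₀ - 1) v`
  have D_indep : ∀ {α β β' : T.A}, T.perp α β → T.perp α β' →
      F α β - F (T.c₀ • α) β = F α β' - F (T.c₀ • α) β' := by
    have aux : ∀ {α β γ : T.A}, T.perp α β → T.perp α γ → T.perp β γ →
        F α β - F (T.c₀ • α) β = F α γ - F (T.c₀ • α) γ := by
      intro α β γ h1 h2 h3
      have a1 := F_coc h1 h2 h3
      have a2 := F_coc (T.perp_B T.c₀ _ _ h1) (T.perp_B T.c₀ _ _ h2) h3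
      rw [← a1, ← a2]
      abel
    intro α β β' h1 h2
    obtain ⟨γ, g1, g2, g3⟩ := T.perp2 α β β' h1 h2
    rw [aux h1 g1 g2, aux h2 g1 g3]
  have hv : ∀ α : T.A, ∃ n : N, ∀ β, T.perp α β → c T.c₀ n - n = F α β - F (T.c₀ • α) β := by
    intro α
    obtain ⟨β, hβ⟩ := T.perp_ex α
    obtain ⟨n, hn⟩ := c_surj (F α β - F (T.c₀ • α) β)
    exact ⟨n, fun β' hβ' => by rw [hn]; exact D_indep hβ hβ'⟩
  choose v hv using hv
  have c_cancel : ∀ n n' : N, c T.c₀ n - n = c T.c₀ n' - n' → n = n' := by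
    intro n n' e
    have : c T.c₀ (n - n') = n - n' := by
      rw [map_sub]
      have := sub_eq_sub_iff_add_eq_add.1 e
      rw [sub_eq_sub_iff_add_eq_add]
      rw [this]
      abel
    exact sub_eq_zero.1 (c_inj _ this)
  have v_equiv : ∀ (b : T.B) (α : T.A), v (b • α) = c b (v α) := by
    intro b α
    obtain ⟨β, hβ⟩ := T.perp_ex α
    apply c_cancel
    rw [hv (b • α) (b • β) (perp_BB b b hβ), F_equiv hβ b b (fun _ => rfl)]
    have e1 : T.c₀ • b • α = (T.c₀ * b * T.c₀⁻¹) • (T.c₀ • α) := by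
      rw [← mul_smul, ← mul_smul]; congr 1; group
    have hcc : ∀ n, c (T.c₀ * b * T.c₀⁻¹) n = c b n := by
      intro n
      rw [c_mul, c_comm, ← c_mul]
      congr 2
      group
    rw [e1, F_equiv (T.perp_B T.c₀ _ _ hβ) (T.c₀ * b * T.c₀⁻¹) b hcc, hcc, ← map_sub,
      ← hv α β hβ, map_sub, ← c_mul, ← c_mul, c_comm]
  have F_dv : ∀ {α β : T.A}, T.perp α β → v β - v α = F α β := by
    intro α β hab
    obtain ⟨γ, h1, h2, _⟩ := T.perp2 α β β hab hab
    apply c_cancel
    have e1 := hv β γ h2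
    have e2 := hv α γ h1
    have e3 := F_coc hab h1 h2
    have e4 := F_coc (perp_BB T.c₀ T.c₀ hab) (T.perp_B T.c₀ _ _ h1) (T.perp_B T.c₀ _ _ h2)
    have e5 := F_equiv hab T.c₀ T.c₀ (fun _ => rfl)
    rw [map_sub]
    have e6 : c T.c₀ (v β) - c T.c₀ (v α) - (v β - v α)
        = (c T.c₀ (v β) - v β) - (c T.c₀ (v α) - v α) := by abel
    rw [e6, e1, e2, ← e3, ← e4, e5]
    abel
  refine ⟨v, v_equiv, ?_⟩
  intro h i j
  by_cases hij : i = j
  · rw [hij]
  · have hp := T.perp_H h _ _ (T.tm_perp i j hij)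
    have e1 := F_dv hp
    rw [F_eq hp h i j rfl rfl] at e1
    have e2 : v (h • T.tm j) = W h (h • T.tm j) - W h (h • T.tm i) + v (h • T.tm i) := by
      rw [← e1]; abel
    rw [e2]
    abel

/-- conjugation by `b` as an endomorphism of `M` -/
def cj (b : T.B) : T.M →* T.M where
  toFun m := ⟨b * m * b⁻¹, T.normal b m m.2⟩
  map_one' := by ext; simp
  map_mul' m m' := by ext; simp

end ClosedAux

open ClosedAux

theorem closed_type (w : H → T.A → T.B) (hw : ∀ h, w h ∈ Eqv T)
    (hc : ∀ h h' : H, ∃ u ∈ Eqv T, ∃ u' ∈ Eqv T, Fixes T u h ∧ Fixes T u' h' ∧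
      (w h)⁻¹ * w h' = u * u') :
    ∃ v ∈ Eqv T, ∀ h, Fixes T ((w h)⁻¹ * v) h := by
  classical
  let : CommGroup T.M := { (inferInstance : Group T.M) with
    mul_comm := fun a b => Subtype.ext (T.abel a a.2 b b.2) }
  let c : T.B → Additive T.M →+ Additive T.M := fun b => MonoidHom.toAdditive (cj T b)
  have c_val : ∀ (b : T.B) (n : Additive T.M),
      ((c b n).toMul : T.B) = b * (n.toMul : T.B) * b⁻¹ := fun b n => rfl
  have next : ∀ n n' : Additive T.M, (n.toMul : T.B) = (n'.toMul : T.B) → n = n' :=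
    fun n n' h => Additive.toMul.injective (Subtype.ext h)
  have hadd : ∀ n n' : Additive T.M, ((n + n').toMul : T.B) = (n.toMul : T.B) * n'.toMul :=
    fun n n' => rfl
  have hinj : ∀ n, c T.c₀ n = n → n = 0 := by
    intro n hn
    apply next
    have h1 : T.c₀ * (n.toMul : T.B) * T.c₀⁻¹ = n.toMul := by
      rw [← c_val, hn]
    exact T.c₀_fix _ n.toMul.2 h1
  have hsurj : ∀ n, ∃ m, c T.c₀ m - m = n := by
    have hfin : Finite (Additive T.M) := inferInstanceAs (Finite T.M)
    have h1 : Function.Injective (fun m : Additive T.M => c T.c₀ m - m) := by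
      intro m m' h
      simp only at h
      have h2 : c T.c₀ (m - m') = m - m' := by
        rw [map_sub]
        have := sub_eq_sub_iff_add_eq_add.1 h
        rw [sub_eq_sub_iff_add_eq_add, this]
        abel
      exact sub_eq_zero.1 (hinj _ h2)
    exact Finite.surjective_of_injective h1
  let W : H → T.A → Additive T.M := fun h α => Additive.ofMul ⟨w h α, (hw h).1 α⟩
  obtain ⟨v, hv1, hv2⟩ := closed_abs (T := T) c
    (fun b b' n => next _ _ (by rw [c_val, c_val, c_val]; group))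
    (fun b n => next _ _ (by rw [c_val, c_val]; exact T.c₀_comm b _ n.toMul.2))
    (fun n => next _ _ (by rw [c_val]; simp)) hinj hsurj W
    (fun h b α => next _ _ (by rw [c_val]; exact (hw h).2 b α))
    (by
      intro h h'
      obtain ⟨u, hu, u', hu', hf, hf', he⟩ := hc h h'
      refine ⟨fun α => Additive.ofMul ⟨u α, hu.1 α⟩, fun α => Additive.ofMul ⟨u' α, hu'.1 α⟩,
        fun b α => next _ _ (by rw [c_val]; exact hu.2 b α),
        fun b α => next _ _ (by rw [c_val]; exact hu'.2 b α),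
        fun i j => next _ _ (hf i j), fun i j => next _ _ (hf' i j), fun x => next _ _ ?_⟩
      rw [hadd, hadd]
      show w h' x = w h x * u x * u' x
      have := congrFun he x
      simp only [Pi.mul_apply, Pi.inv_apply] at this
      rw [mul_assoc, ← this]
      group)
  refine ⟨fun α => ((v α).toMul : T.B), ⟨fun α => (v α).toMul.2, fun b α => ?_⟩, fun h i j => ?_⟩
  · show ((v (b • α)).toMul : T.B) = b * ((v α).toMul : T.B) * b⁻¹
    rw [hv1, c_val]
  · have := congrArg (fun n : Additive T.M => (n.toMul : T.B)) (hv2 h i j)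
    exact this

end

end Poly
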