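import Pool.Agent.Poly.Defs

/-!
# Module CORE: the core is trivial; prescribed values at the templates
-/

set_option autoImplicit false

namespace Poly

section

variable {H : Type} [Group H] (T : PType H)

theorem core_type (w : T.A → T.B) (hw : w ∈ Eqv T) (hf : ∀ h : H, Fixes T w h) : w = 1 := by
  have key : ∀ α β : T.A, T.perp α β → w α = w β := by
    intro α β hαβ
    obtain ⟨γ, h1, h2, _⟩ := T.perp2 α β β hαβ hαβ
    obtain ⟨h, hh⟩ := T.perp3 T.tm ![α, β, γ] T.tm_perp (by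
      intro i j hij
      fin_cases i <;> fin_cases j
      · exact absurd rfl hij
      · exact hαβ
      · exact h1
      · exact T.perp_symm _ _ hαβ
      · exact absurd rfl hij
      · exact h2
      · exact T.perp_symm _ _ h1
      · exact T.perp_symm _ _ h2
      · exact absurd rfl hij)
    have h3 := hf h 0 1
    rw [hh, hh] at h3
    exact h3
  funext α
  obtain ⟨β, hβ⟩ := T.perp_ex α
  have h1 : w (T.c₀ • α) = w α := by
    rw [key _ _ hβ, key _ _ (T.perp_B T.c₀ _ _ hβ)]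
  rw [hw.2] at h1
  exact T.c₀_fix _ (hw.1 α) h1

open Classical in
theorem exists_val (f : Fin 3 → T.B) (hf : ∀ i, f i ∈ T.M) : ∃ w ∈ Eqv T, ∀ i, w (T.tm i) = f i := by
  -- well-definedness
  have wd : ∀ (i j : Fin 3) (b c : T.B), b • T.tm i = c • T.tm j →
      b * f i * b⁻¹ = c * f j * c⁻¹ := by
    intro i j b c h
    have h1 : (c⁻¹ * b) • T.tm i = T.tm j := by
      rw [mul_smul, h, inv_smul_smul]
    have hij : i = j := by
      by_contra hne
      exact T.perp_ne _ _ _ (T.tm_perp i j hne) h1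
    subst hij
    have h2 : c⁻¹ * b ∈ T.M := (T.stab _ _).mp h1
    have h3 := T.abel _ h2 _ (hf i)
    have h4 : b * f i * b⁻¹ = c * ((c⁻¹ * b) * f i) * b⁻¹ := by group
    rw [h4, h3]
    group
  let w : T.A → T.B := fun α =>
    if h : ∃ p : Fin 3 × T.B, p.2 • T.tm p.1 = α then
      h.choose.2 * f h.choose.1 * h.choose.2⁻¹ else 1
  have hw1 : ∀ (i : Fin 3) (b : T.B), w (b • T.tm i) = b * f i * b⁻¹ := by
    intro i b
    have h : ∃ p : Fin 3 × T.B, p.2 • T.tm p.1 = b • T.tm i := ⟨(i, b), rfl⟩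
    change (if h : ∃ p : Fin 3 × T.B, p.2 • T.tm p.1 = b • T.tm i then
      h.choose.2 * f h.choose.1 * h.choose.2⁻¹ else 1) = _
    rw [dif_pos h]
    exact wd _ _ _ _ h.choose_spec
  have hw2 : ∀ α : T.A, (¬ ∃ p : Fin 3 × T.B, p.2 • T.tm p.1 = α) → w α = 1 := by
    intro α h
    change (if h : ∃ p : Fin 3 × T.B, p.2 • T.tm p.1 = α then
      h.choose.2 * f h.choose.1 * h.choose.2⁻¹ else 1) = _
    rw [dif_neg h]
  refine ⟨w, ⟨?_, ?_⟩, ?_⟩
  · intro α
    by_cases h : ∃ p : Fin 3 × T.B, p.2 • T.tm p.1 = α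
    · obtain ⟨⟨i, b⟩, rfl⟩ := h
      change w (b • T.tm i) ∈ T.M
      rw [hw1]
      exact T.normal b _ (hf i)
    · rw [hw2 α h]
      exact T.M.one_mem
  · intro b α
    by_cases h : ∃ p : Fin 3 × T.B, p.2 • T.tm p.1 = α
    · obtain ⟨⟨i, c⟩, rfl⟩ := h
      change w (b • c • T.tm i) = b * w (c • T.tm i) * b⁻¹
      rw [← mul_smul, hw1, hw1]
      group
    · have h' : ¬ ∃ p : Fin 3 × T.B, p.2 • T.tm p.1 = b • α := by
        rintro ⟨⟨i, c⟩, hc⟩
        refine h ⟨(i, b⁻¹ * c), ?_⟩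
        change (b⁻¹ * c) • T.tm i = α
        change c • T.tm i = b • α at hc
        rw [mul_smul, hc, inv_smul_smul]
      rw [hw2 α h, hw2 _ h']
      group
  · intro i
    have := hw1 i 1
    rw [one_smul] at this
    rw [this]
    group

end

end Poly
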