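import Pool.Agent.Poly.Obj
import Pool.Agent.Poly.Alt

set_option autoImplicit false

namespace Poly

/-- three of the six fibres can be moved to the fibres `0, 1, 2` -/
theorem cover_three (T : Finset (Fin 6)) (hT : 3 ≤ T.card) :
    ∃ s : Equiv.Perm (Fin 6), ∀ j : Fin 3, s ⟨j.val, by omega⟩ ∈ T := by
  obtain ⟨T', hT', hc⟩ := Finset.exists_subset_card_eq hT
  obtain ⟨σ, hσ⟩ := perm_ext (Y := Fin 3) (fun j => ⟨j.val, by omega⟩)
    (fun j => T'.orderEmbOfFin hc j)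
    (fun i j h => by
      have := congrArg Fin.val h
      exact Fin.ext this)
    (T'.orderEmbOfFin hc).injective
  refine ⟨σ, fun j => ?_⟩
  rw [hσ j]
  exact hT' (T'.orderEmbOfFin_mem hc j)

/-- three of six fibres with equal values -/
theorem cover_aux {r : ℕ} (L : Loc r) (w : BObj L.X → L.B) (hM : ∀ α, w α ∈ L.M)
    (hw : ∀ (b : L.B) (α : BObj L.X), w (b • α) = b * w α * b⁻¹) :
    ∃ (s : Equiv.Perm (Fin 6)) (β : Fin 6 → (L.X ↪ Fin 33)) (v : L.B),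
      ∀ j : Fin 3, w ⟨s ⟨j.val, by omega⟩, β ⟨j.val, by omega⟩⟩ = v := by
  classical
  let Z : Fin 6 → Prop := fun i => ∀ β : L.X ↪ Fin 33, w ⟨i, β⟩ = 1
  have hsum := Finset.card_filter_add_card_filter_not (s := (Finset.univ : Finset (Fin 6))) Z
  rw [Finset.card_univ, Fintype.card_fin] at hsum
  by_cases h3 : 3 ≤ (Finset.univ.filter Z).card
  · obtain ⟨s, hs⟩ := cover_three _ h3
    refine ⟨s, fun _ => L.bt, 1, fun j => ?_⟩
    exact (Finset.mem_filter.1 (hs j)).2 L.bt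
  · obtain ⟨s, hs⟩ := cover_three (Finset.univ.filter fun i => ¬ Z i) (by omega)
    have hne : ∀ j : Fin 3, ∃ β : L.X ↪ Fin 33, w ⟨s ⟨j.val, by omega⟩, β⟩ ≠ 1 := by
      intro j
      have := (Finset.mem_filter.1 (hs j)).2
      simpa [Z] using this
    choose γ hγ using hne
    set v : L.B := w ⟨s ⟨(0 : Fin 3).val, by omega⟩, γ 0⟩ with hv
    have hb : ∀ j : Fin 3, ∃ b : L.B, b * w ⟨s ⟨j.val, by omega⟩, γ j⟩ * b⁻¹ = v := fun j =>
      L.tr _ (hM _) _ (hM _) (hγ j) (hγ 0)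
    choose b hb using hb
    refine ⟨s, fun i => if hi : i.val < 3 then pre (b ⟨i.val, hi⟩) (γ ⟨i.val, hi⟩) else L.bt, v,
      fun j => ?_⟩
    have hj : (j.val : ℕ) < 3 := j.2
    simp only [hj, dif_pos]
    rw [← hb j, ← hw]
    rfl

theorem cover_base {r : ℕ} (L : Loc r) (w : BObj L.X → L.B) (hM : ∀ α, w α ∈ L.M)
    (hw : ∀ (b : L.B) (α : BObj L.X), w (b • α) = b * w α * b⁻¹) :
    ∃ h : HH, ∀ j j' : Fin 3, w (h • btm L.bt j) = w (h • btm L.bt j') := by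
  obtain ⟨s, β, v, hv⟩ := cover_aux L w hM hw
  have hσ : ∀ i : Fin 6, ∃ σ : alternatingGroup (Fin 33), ∀ y,
      (σ : Equiv.Perm (Fin 33)) (L.bt y) = β i y := fun i =>
    alt_ext (by rw [Nat.card_eq_fintype_card]; exact L.card_X) L.bt (β i)
  choose σ hσ using hσ
  have key : ∀ j : Fin 3, w ((⟨s, σ⟩ : HH) • btm L.bt j) = v := by
    intro j
    rw [← hv j, HH_smul_B]
    congr 2
    ext y
    rw [lab_apply]
    exact congrArg Fin.val (hσ _ y)
  exact ⟨⟨s, σ⟩, fun j j' => by rw [key, key]⟩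

end Poly
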