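import Pool.Agent.Poly.CoverB
import Pool.Agent.Poly.Alt

set_option autoImplicit false

namespace Poly

private theorem pig : ∀ c : Fin 5 → Bool, ∃ a b d : Fin 5, a ≠ b ∧ a ≠ d ∧ b ≠ d ∧
    c a = c b ∧ c a = c d := by decide

/-- the object over the fibres `0, …, r-1` with prescribed injections -/
private def tobj {X : Type} (r : ℕ) (hr : r ≤ 6) (f : Fin 6 → (X ↪ Fin 33)) : TObj X r where
  α i := if i.val < r then some (f i) else none
  card := by
    interval_cases r <;> simp <;> decide

/-- extension of an injection to a larger set -/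
private theorem extend_emb {X Z : Type} [Fintype X] [Fintype Z] (f : X ↪ Fin 33)
    (h : Fintype.card X + Fintype.card Z ≤ 33) :
    ∃ g : X ⊕ Z ↪ Fin 33, ∀ x, g (Sum.inl x) = f x := by
  classical
  have h1 : Fintype.card Z ≤ Fintype.card {y : Fin 33 // y ∉ Set.range f} := by
    have h2 : Fintype.card {y : Fin 33 // y ∈ Set.range f} = Fintype.card X := by
      rw [← Fintype.card_congr (Equiv.ofInjective f f.injective)]
    have h3 := Fintype.card_subtype_compl (fun y : Fin 33 => y ∈ Set.range f)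
    rw [h2, Fintype.card_fin] at h3
    rw [h3]
    omega
  obtain ⟨e⟩ := Function.Embedding.nonempty_of_card_le h1
  refine ⟨⟨Sum.elim f (fun z => (e z).1), ?_⟩, fun x => rfl⟩
  rintro (x | z) (x' | z') hh
  · simp only [Sum.elim_inl] at hh
    rw [f.injective hh]
  · simp only [Sum.elim_inl, Sum.elim_inr] at hh
    exact absurd ⟨x, hh⟩ (e z').2
  · simp only [Sum.elim_inl, Sum.elim_inr] at hh
    exact absurd ⟨x', hh.symm⟩ (e z).2
  · simp only [Sum.elim_inr] at hh
    rw [e.injective (Subtype.ext hh)]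

theorem cover_both {r : ℕ} (L : Loc r) (hr : r ≤ 5) (hr1 : 1 ≤ r) (w : BObj L.X → L.B) (hM : ∀ α, w α ∈ L.M)
    (hw : ∀ (b : L.B) (α : BObj L.X), w (b • α) = b * w α * b⁻¹)
    (w' : TObj L.X r → L.B) (hM' : ∀ α, w' α ∈ L.M)
    (hw' : ∀ (b : L.B) (α : TObj L.X r), w' (b • α) = b * w' α * b⁻¹) :
    ∃ h : HH, (∀ j j' : Fin 3, w (h • btm L.bt j) = w (h • btm L.bt j')) ∧
      ∀ j j' : Fin 3, w' (h • tconst r (hr.trans (by norm_num)) (L.tt j)) =
        w' (h • tconst r (hr.trans (by norm_num)) (L.tt j')) := by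
  classical
  obtain ⟨s, β, v, hv⟩ := cover_aux L w hM hw
  have hX := L.small hr
  have hr6 : r ≤ 6 := hr.trans (by norm_num)
  have hex : ∀ i : Fin 6, ∃ g : L.X ⊕ (Fin 5 × L.X) ↪ Fin 33, ∀ x, g (Sum.inl x) = β i x := by
    intro i
    refine extend_emb (β i) ?_
    simp only [Fintype.card_prod, Fintype.card_fin]
    omega
  choose e he using hex
  have hin : ∀ (i : Fin 6) (k : Fin 5), Function.Injective fun x : L.X => e i (Sum.inr (k, x)) := by
    intro i k x x' h
    have h1 := (e i).injective h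
    simp only [Sum.inr.injEq, Prod.mk.injEq, true_and] at h1
    exact h1
  let Δ : Fin 5 → TObj L.X r := fun k =>
    (⟨s, 1⟩ : HH) • tobj r hr6 (fun i => ⟨fun x => e i (Sum.inr (k, x)), hin i k⟩)
  obtain ⟨κ, hκ, b, v', hv'⟩ : ∃ κ : Fin 3 → Fin 5, Function.Injective κ ∧ ∃ (b : Fin 3 → L.B) (v' : L.B),
      ∀ k, w' (b k • Δ (κ k)) = v' := by
    obtain ⟨a, c, d, hac, had, hcd, h1, h2⟩ := pig (fun k => decide (w' (Δ k) = 1))
    have hinj : Function.Injective (![a, c, d] : Fin 3 → Fin 5) := by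
      intro i j hij
      fin_cases i <;> fin_cases j <;> simp_all
    refine ⟨![a, c, d], hinj, ?_⟩
    have h1' : (w' (Δ a) = 1) ↔ (w' (Δ c) = 1) := by simpa using h1
    have h2' : (w' (Δ a) = 1) ↔ (w' (Δ d) = 1) := by simpa using h2
    by_cases h : w' (Δ a) = 1
    · refine ⟨fun _ => 1, 1, fun k => ?_⟩
      rw [one_smul]
      fin_cases k
      · exact h
      · exact h1'.1 h
      · exact h2'.1 h
    · have key : ∀ k : Fin 3, ∃ b : L.B, w' (b • Δ ((![a, c, d] : Fin 3 → Fin 5) k)) = w' (Δ a) := by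
        intro k
        have hne : w' (Δ ((![a, c, d] : Fin 3 → Fin 5) k)) ≠ 1 := by
          fin_cases k
          · exact h
          · exact fun h' => h (h1'.2 h')
          · exact fun h' => h (h2'.2 h')
        obtain ⟨b, hb⟩ := L.tr _ (hM' _) _ (hM' (Δ a)) hne h
        exact ⟨b, by rw [hw', hb]⟩
      choose b hb using key
      exact ⟨b, _, hb⟩
  let S : L.X ⊕ (Fin 3 × L.X) ↪ Fin 33 :=
    ⟨Sum.elim L.bt (fun p => L.tt p.1 p.2), by
      rintro (x | ⟨k, x⟩) (x' | ⟨k', x'⟩) hh
      · simp only [Sum.elim_inl] at hh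
        rw [L.bt.injective hh]
      · simp only [Sum.elim_inl, Sum.elim_inr] at hh
        exact absurd hh (L.bt_tt hr _ _ _)
      · simp only [Sum.elim_inl, Sum.elim_inr] at hh
        exact absurd hh.symm (L.bt_tt hr _ _ _)
      · simp only [Sum.elim_inr] at hh
        by_cases hk : k = k'
        · subst hk
          rw [(L.tt k).injective hh]
        · exact absurd hh (L.tt_tt hr _ _ _ _ hk)⟩
  let T : Fin 6 → (L.X ⊕ (Fin 3 × L.X) ↪ Fin 33) := fun i =>
    ⟨Sum.elim (fun x => e i (Sum.inl x)) (fun p => e i (Sum.inr (κ p.1, (b p.1)⁻¹ • p.2))), by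
      rintro (x | ⟨k, x⟩) (x' | ⟨k', x'⟩) hh
      · simp only [Sum.elim_inl, EmbeddingLike.apply_eq_iff_eq, Sum.inl.injEq] at hh
        rw [hh]
      · simp only [Sum.elim_inl, Sum.elim_inr, EmbeddingLike.apply_eq_iff_eq] at hh
        cases hh
      · simp only [Sum.elim_inl, Sum.elim_inr, EmbeddingLike.apply_eq_iff_eq] at hh
        cases hh
      · simp only [Sum.elim_inr, EmbeddingLike.apply_eq_iff_eq, Sum.inr.injEq, Prod.mk.injEq] at hh
        obtain ⟨h1, h2⟩ := hh
        have hk := hκ h1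
        subst hk
        rw [smul_left_cancel _ h2]⟩
  have hcard : Nat.card (L.X ⊕ (Fin 3 × L.X)) ≤ 31 := by
    rw [Nat.card_eq_fintype_card]
    simp only [Fintype.card_sum, Fintype.card_prod, Fintype.card_fin]
    omega
  have hσ : ∀ i : Fin 6, ∃ σ : alternatingGroup (Fin 33), ∀ y, (σ : Equiv.Perm (Fin 33)) (S y) = T i y :=
    fun i => alt_ext hcard S (T i)
  choose σ hσ using hσ
  refine ⟨⟨s, σ⟩, ?_, ?_⟩
  · have key : ∀ j : Fin 3, w ((⟨s, σ⟩ : HH) • btm L.bt j) = v := by
      intro j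
      rw [← hv j, HH_smul_B]
      congr 1
      ext1
      · rfl
      · ext x
        have h1 := hσ ⟨j.val, by omega⟩ (Sum.inl x)
        have h2 := he ⟨j.val, by omega⟩ x
        simp only [S, T, Function.Embedding.coeFn_mk, Sum.elim_inl] at h1
        simp only [btm, lab_apply]
        rw [h1, h2]
    intro j j'
    rw [key, key]
  · have key : ∀ k : Fin 3, w' ((⟨s, σ⟩ : HH) • tconst r (hr.trans (by norm_num)) (L.tt k)) = v' := by
      intro k
      rw [← hv' k]
      congr 1
      ext1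
      funext i
      rw [HH_smul_T, B_smul_T, HH_smul_T]
      simp only [tconst, tobj]
      by_cases hi : (s⁻¹ i).val < r
      · rw [if_pos hi, if_pos hi]
        simp only [Option.map_some, Option.some.injEq]
        ext x
        have h1 := hσ (s⁻¹ i) (Sum.inr (k, x))
        simp only [S, T, Function.Embedding.coeFn_mk, Sum.elim_inr] at h1
        simp only [lab_apply, pre_apply, h1]
        rfl
      · rw [if_neg hi, if_neg hi]
        rfl
    intro j j'
    rw [key, key]

end Poly
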