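import Mathlib

set_option autoImplicit false

namespace Poly

/-! ### Part A: the abstract coset digraph -/

/-- The data of the abstract theorem: a surjection of groups with abelian kernel, a subgroup `K` of the kernel,
and everything that makes the automorphism group of the coset digraph equal to `G`. -/
structure CData (G H S : Type) [Group G] [Group H] [Group S] where
  π : G →* H
  surj : Function.Surjective π
  K : Subgroup G
  K_le : K ≤ π.ker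
  comm : ∀ a ∈ π.ker, ∀ b ∈ π.ker, a * b = b * a
  /-- the quotient of the kernel by `K` has at least three elements -/
  big : ∃ n₁ ∈ π.ker, ∃ n₂ ∈ π.ker, n₁ ∉ K ∧ n₂ ∉ K ∧ n₁⁻¹ * n₂ ∉ K
  /-- pairwise consistent families come from the kernel -/
  closed : ∀ w : H → G, (∀ h, w h ∈ π.ker) →
    (∀ x y : G, ∃ k ∈ K, ∃ k' ∈ K, (w (π x))⁻¹ * w (π y) = (x * k * x⁻¹) * (y * k' * y⁻¹)) →
    ∃ v ∈ π.ker, ∀ x : G, x⁻¹ * ((w (π x))⁻¹ * v) * x ∈ K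
  s : H →* S
  ρ : H
  x₀ : H
  gen : Subgroup.closure {ρ, x₀} = ⊤
  x₀_sq : x₀ ^ 2 ≠ 1
  x₀_norm : ∀ g, π g = x₀ → ∀ k ∈ K, g⁻¹ * k * g ∈ K
  s_ρ : (s ρ) ^ 2 ≠ 1
  s_x₀ : s x₀ ≠ 1
  s_x₀_sq : (s x₀) ^ 2 = 1
  E : Subgroup H
  E_le : E ≤ s.ker
  E_na : ∃ e ∈ E, ∃ f ∈ E, e * f ≠ f * e
  E_gen : E ≤ Subgroup.closure {e : H | e ∈ E ∧ e ^ 2 ≠ 1}
  E_act : ∀ g, π g ∈ E → ∀ n ∈ π.ker, g⁻¹ * n * g * n⁻¹ ∈ K
  a : H
  a_mem : a ∈ E
  m : ℕ
  n : Fin m → G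
  n_mem : ∀ i, n i ∈ π.ker
  n_gen : π.ker ≤ Subgroup.closure ((K : Set G) ∪ Set.range n)
  a_pow : ∀ j : ℕ, 1 ≤ j → j ≤ 2 * (m + 1) → a ^ j ≠ 1
  tors : ∀ g : G, ∀ r : ℕ, r.Prime → (∀ x : G, x⁻¹ * g ^ r * x ∈ K) → π g = 1
  cover : ∀ w ∈ π.ker, ∀ r : ℕ, r.Prime → (∀ x : G, x⁻¹ * w ^ r * x ∈ K) → ∃ x : G, x⁻¹ * w * x ∈ K

section

variable {G H S : Type} [Group G] [Group H] [Group S] (D : CData G H S)

/-- a choice of one of each pair `d, d⁻¹` with `d ^ 2 ≠ 1` -/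
structure Half (A : Set H) : Prop where
  anti : ∀ d, d ∈ A → d⁻¹ ∉ A
  tot : ∀ d : H, d ^ 2 ≠ 1 → d ∈ A ∨ d⁻¹ ∈ A
  ρ_mem : D.ρ ∈ A
  x₀_mem : D.x₀ ∈ A

/-- the shifts used in the lifts of the powers of `a` -/
def CData.n' : Fin (D.m + 1) → G := Fin.cons 1 D.n

/-- a section of `π` with prescribed values at the powers of `a` -/
structure Lift (g : H → G) (a₁ : G) : Prop where
  sec : ∀ d, D.π (g d) = d
  a₁_map : D.π a₁ = D.a
  pow : ∀ j : Fin (D.m + 1), g (D.a ^ (j.val + 1)) = a₁ ^ (j.val + 1) * D.n' j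
  pow_inv : ∀ j : Fin (D.m + 1), g ((D.a ^ (j.val + 1))⁻¹) = (a₁ ^ (j.val + 1) * D.n' j)⁻¹

/-- `z` lies in the double coset `K g_d K`, `d = π z` -/
def Dbl (g : H → G) (z : G) : Prop := ∃ k ∈ D.K, ∃ k' ∈ D.K, z = k * g (D.π z) * k'

/-- the arc condition -/
def Arc (A : Set H) (g : H → G) (z : G) : Prop :=
  D.π z = 1 ∨ D.π z = D.ρ ∨ (D.π z = D.x₀ ∧ ¬ Dbl D g z) ∨
    (D.π z ∈ A ∧ D.π z ≠ D.ρ ∧ D.π z ≠ D.x₀ ∧ (∃ y, D.π y = D.π z ∧ ¬ Dbl D g y) ∧ Dbl D g z)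

/-- the coset digraph -/
def dig (A : Set H) (g : H → G) : Digraph (G ⧸ D.K) where
  Adj u v := ∃ x y : G, u = (QuotientGroup.mk x : G ⧸ D.K) ∧ v = (QuotientGroup.mk y : G ⧸ D.K) ∧ Arc D A g (x⁻¹ * y)

/-- left multiplication -/
def leftMul (g₀ : G) : Equiv.Perm (G ⧸ D.K) := MulAction.toPerm g₀

theorem leftMul_mk (g₀ x : G) :
    leftMul D g₀ (QuotientGroup.mk x : G ⧸ D.K) = (QuotientGroup.mk (g₀ * x) : G ⧸ D.K) := rfl

/-- automorphism of the digraph -/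
def IsAut {V : Type} (Γ : Digraph V) (φ : Equiv.Perm V) : Prop :=
  ∀ x y : V, Γ.Adj (φ x) (φ y) ↔ Γ.Adj x y

end

/-! ### Part B: types -/

/-- A type of objects: a finite set `A` with commuting left actions of `H` and of a finite group `B`,
all stabilisers in `B` being the abelian normal subgroup `M`. -/
structure PType (H : Type) [Group H] where
  A : Type
  B : Type
  [finA : Finite A]
  [groupB : Group B]
  [finB : Finite B]
  [actH : MulAction H A]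
  [actB : MulAction B A]
  comm : ∀ (h : H) (b : B) (α : A), h • b • α = b • h • α
  M : Subgroup B
  normal : ∀ b : B, ∀ m ∈ M, b * m * b⁻¹ ∈ M
  abel : ∀ m ∈ M, ∀ m' ∈ M, m * m' = m' * m
  stab : ∀ (b : B) (α : A), b • α = α ↔ b ∈ M
  c₀ : B
  c₀_fix : ∀ m ∈ M, c₀ * m * c₀⁻¹ = m → m = 1
  c₀_comm : ∀ b : B, ∀ m ∈ M, (c₀ * b) * m * (c₀ * b)⁻¹ = (b * c₀) * m * (b * c₀)⁻¹
  perp : A → A → Prop
  perp_symm : ∀ α β, perp α β → perp β α
  perp_H : ∀ (h : H) (α β : A), perp α β → perp (h • α) (h • β)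
  perp_B : ∀ (b : B) (α β : A), perp α β → perp (b • α) β
  perp_ne : ∀ (b : B) (α β : A), perp α β → b • α ≠ β
  perp_ex : ∀ α : A, ∃ β, perp α β
  perp2 : ∀ α β β' : A, perp α β → perp α β' → ∃ γ, perp α γ ∧ perp β γ ∧ perp β' γ
  perp3 : ∀ f f' : Fin 3 → A, (∀ i j, i ≠ j → perp (f i) (f j)) → (∀ i j, i ≠ j → perp (f' i) (f' j)) →
    ∃ h : H, ∀ i, h • f i = f' i
  tm : Fin 3 → A
  tm_perp : ∀ i j, i ≠ j → perp (tm i) (tm j)

attribute [instance] PType.finA PType.groupB PType.finB PType.actH PType.actB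

section

variable {H : Type} [Group H] (T : PType H)

/-- equivariant functions with values in `M` -/
def Eqv : Subgroup (T.A → T.B) where
  carrier := {w | (∀ α, w α ∈ T.M) ∧ ∀ (b : T.B) (α : T.A), w (b • α) = b * w α * b⁻¹}
  mul_mem' := by
    rintro w w' ⟨h1, h2⟩ ⟨h1', h2'⟩
    refine ⟨fun α => T.M.mul_mem (h1 α) (h1' α), fun b α => ?_⟩
    simp only [Pi.mul_apply, h2, h2']
    group
  one_mem' := ⟨fun _ => T.M.one_mem, fun b α => by simp⟩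
  inv_mem' := by
    rintro w ⟨h1, h2⟩
    refine ⟨fun α => T.M.inv_mem (h1 α), fun b α => ?_⟩
    simp only [Pi.inv_apply, h2]
    group

/-- `w` takes the same value at the three objects `h • tm i` -/
def Fixes (w : T.A → T.B) (h : H) : Prop := ∀ i j : Fin 3, w (h • T.tm i) = w (h • T.tm j)

/-- an extension of `H` by the product of the groups `Eqv (T i)` -/
structure Ext {ι : Type} (T : ι → PType H) (G : Type) [Group G] where
  π : G →* H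
  surj : Function.Surjective π
  W : G → ∀ i, (T i).A → (T i).B
  W_mem : ∀ n ∈ π.ker, ∀ i, W n i ∈ Eqv (T i)
  W_mul : ∀ n ∈ π.ker, ∀ n' ∈ π.ker, ∀ i, W (n * n') i = W n i * W n' i
  W_inj : ∀ n ∈ π.ker, (∀ i, W n i = 1) → n = 1
  W_surj : ∀ f : ∀ i, (T i).A → (T i).B, (∀ i, f i ∈ Eqv (T i)) → ∃ n ∈ π.ker, ∀ i, W n i = f i
  W_conj : ∀ g : G, ∀ n ∈ π.ker, ∀ i, ∀ α : (T i).A, W (g * n * g⁻¹) i (π g • α) = W n i α
  W_pow : ∀ (g : G) (i : ι) (α : (T i).A) (t : (T i).B), π g • α = t • α →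
    ∀ k : ℕ, π g ^ k = 1 → ∃ m ∈ (T i).M, W (g ^ k) i α = (t * m) ^ k

end

end Poly
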