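import Pool.Agent.Poly.Obj

set_option autoImplicit false

namespace Poly

namespace Efib

/-- the embedding of `A_33` in the fibre 5 -/
def fib : alternatingGroup (Fin 33) →* HH where
  toFun σ := ⟨1, fun i => if i = 5 then σ else 1⟩
  map_one' := by
    ext1
    · rfl
    · funext i; simp
  map_mul' σ τ := by
    ext1
    · simp
    · funext i
      by_cases h : i = 5 <;> simp [h]

theorem fib_s (σ : alternatingGroup (Fin 33)) : (fib σ).s = 1 := rfl

theorem fib_h (σ : alternatingGroup (Fin 33)) : (fib σ).h 5 = σ := by simp [fib]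

theorem fib_mem (σ : alternatingGroup (Fin 33)) : fib σ ∈ EE :=
  ⟨rfl, fun i hi => by simp [fib, hi]⟩

theorem fib_inj : Function.Injective fib := by
  intro σ τ h
  have := congrArg (fun g : HH => g.h 5) h
  simpa [fib_h] using this

theorem eq_fib {g : HH} (hg : g ∈ EE) : g = fib (g.h 5) := by
  obtain ⟨h1, h2⟩ := hg
  ext1
  · exact h1
  · funext i
    by_cases h : i = 5
    · subst h; simp [fib]
    · rw [h2 i h]; simp [fib, h]

/-- the auxiliary permutation with cycles of lengths 5, 7, 9, 11 -/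
def bfun (x : ℕ) : ℕ :=
  if x < 5 then (x + 1) % 5 else if x < 12 then 5 + (x - 5 + 1) % 7
  else if x < 21 then 12 + (x - 12 + 1) % 9 else if x < 32 then 21 + (x - 21 + 1) % 11 else x

def binv (x : ℕ) : ℕ :=
  if x < 5 then (x + 4) % 5 else if x < 12 then 5 + (x - 5 + 6) % 7
  else if x < 21 then 12 + (x - 12 + 8) % 9 else if x < 32 then 21 + (x - 21 + 10) % 11 else x

theorem bfun_lt (x : ℕ) (h : x < 33) : bfun x < 33 := by
  unfold bfun; split_ifs <;> omega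

theorem binv_lt (x : ℕ) (h : x < 33) : binv x < 33 := by
  unfold binv; split_ifs <;> omega

def b : Equiv.Perm (Fin 33) where
  toFun x := ⟨bfun x.val, bfun_lt _ x.isLt⟩
  invFun x := ⟨binv x.val, binv_lt _ x.isLt⟩
  left_inv := by decide
  right_inv := by decide

theorem b_pow (j : ℕ) : ((b ^ j) 0).val = j % 5 ∧ ((b ^ j) 5).val = 5 + j % 7 ∧
    ((b ^ j) 12).val = 12 + j % 9 ∧ ((b ^ j) 21).val = 21 + j % 11 := by
  induction j with
  | zero => decide
  | succ j ih =>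
    obtain ⟨h0, h1, h2, h3⟩ := ih
    rw [pow_succ']
    simp only [Equiv.Perm.mul_apply]
    have hb : ∀ x : Fin 33, (b x).val = bfun x.val := fun _ => rfl
    rw [hb, hb, hb, hb, h0, h1, h2, h3]
    unfold bfun
    refine ⟨?_, ?_, ?_, ?_⟩ <;> split_ifs <;> omega

theorem dd0 (j : ℕ) (g0 : 2 * j % 5 = 0) : 5 ∣ j :=
  (Nat.Coprime.dvd_mul_left (by norm_num : Nat.Coprime 5 2)).mp (Nat.dvd_of_mod_eq_zero g0)
theorem dd1 (j : ℕ) (g0 : 2 * j % 7 = 0) : 7 ∣ j :=
  (Nat.Coprime.dvd_mul_left (by norm_num : Nat.Coprime 7 2)).mp (Nat.dvd_of_mod_eq_zero g0)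
theorem dd2 (j : ℕ) (g0 : 2 * j % 9 = 0) : 9 ∣ j :=
  (Nat.Coprime.dvd_mul_left (by norm_num : Nat.Coprime 9 2)).mp (Nat.dvd_of_mod_eq_zero g0)
theorem dd3 (j : ℕ) (g0 : 2 * j % 11 = 0) : 11 ∣ j :=
  (Nat.Coprime.dvd_mul_left (by norm_num : Nat.Coprime 11 2)).mp (Nat.dvd_of_mod_eq_zero g0)
theorem arith (j : ℕ) (h1 : 1 ≤ j) (h2 : j ≤ 3464) (g0 : 2 * j % 5 = 0) (g1 : 5 + 2 * j % 7 = 5)
    (g2 : 12 + 2 * j % 9 = 12) (g3 : 21 + 2 * j % 11 = 21) : False := by
  have d0 : 5 ∣ j := dd0 j g0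
  have d1 : 7 ∣ j := dd1 j (by rw [← Nat.add_left_cancel_iff (n := 5)]; exact g1)
  have d2 : 9 ∣ j := dd2 j (by rw [← Nat.add_left_cancel_iff (n := 12)]; exact g2)
  have d3 : 11 ∣ j := dd3 j (by rw [← Nat.add_left_cancel_iff (n := 21)]; exact g3)
  have d4 : 5 * 7 ∣ j := Nat.Coprime.mul_dvd_of_dvd_of_dvd (by norm_num) d0 d1
  have d5 : 5 * 7 * 9 ∣ j := Nat.Coprime.mul_dvd_of_dvd_of_dvd (by norm_num) d4 d2
  have d6 : 5 * 7 * 9 * 11 ∣ j := Nat.Coprime.mul_dvd_of_dvd_of_dvd (by norm_num) d5 d3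
  have h3 : 5 * 7 * 9 * 11 ≤ j := Nat.le_of_dvd h1 d6
  exact absurd (h3.trans h2) (by norm_num)

end Efib

open Efib

theorem EE_gen : EE ≤ Subgroup.closure {e : HH | e ∈ EE ∧ e ^ 2 ≠ 1} := by
  intro g hg
  rw [eq_fib hg]
  obtain ⟨σ, hσ⟩ : ∃ σ, σ = g.h 5 := ⟨_, rfl⟩
  rw [← hσ]
  clear hσ hg
  have key : ∀ τ : Equiv.Perm (Fin 33), τ ∈ alternatingGroup (Fin 33) →
      ∀ h : τ ∈ alternatingGroup (Fin 33),
        fib ⟨τ, h⟩ ∈ Subgroup.closure {e : HH | e ∈ EE ∧ e ^ 2 ≠ 1} := by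
    intro τ hτ
    rw [← Equiv.Perm.closure_three_cycles_eq_alternating] at hτ
    induction hτ using Subgroup.closure_induction with
    | mem x hx =>
      intro h
      refine Subgroup.subset_closure ⟨fib_mem _, fun h2 => ?_⟩
      rw [← map_pow] at h2
      have h3 := fib_inj (h2.trans (map_one fib).symm)
      have h4 : x ^ 2 = 1 := by
        have := congrArg Subtype.val h3
        simpa using this
      have h5 := hx.orderOf
      have h6 := orderOf_dvd_of_pow_eq_one h4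
      rw [h5] at h6
      omega
    | one =>
      intro h
      have : fib ⟨1, h⟩ = 1 := map_one fib
      rw [this]
      exact one_mem _
    | mul x y hx hy ihx ihy =>
      intro h
      rw [Equiv.Perm.closure_three_cycles_eq_alternating] at hx hy
      have : fib ⟨x * y, h⟩ = fib ⟨x, hx⟩ * fib ⟨y, hy⟩ := map_mul fib ⟨x, hx⟩ ⟨y, hy⟩
      rw [this]
      exact mul_mem (ihx hx) (ihy hy)
    | inv x hx ihx =>
      intro h
      rw [Equiv.Perm.closure_three_cycles_eq_alternating] at hx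
      have : fib ⟨x⁻¹, h⟩ = (fib ⟨x, hx⟩)⁻¹ := map_inv fib ⟨x, hx⟩
      rw [this]
      exact inv_mem (ihx hx)
  exact key σ.1 σ.2 σ.2

theorem EE_na : ∃ e ∈ EE, ∃ f ∈ EE, e * f ≠ f * e := by
  refine ⟨fib thr, fib_mem _, fib (cyc * thr * cyc⁻¹), fib_mem _, fun h => ?_⟩
  rw [← map_mul, ← map_mul] at h
  have h1 := congrArg (fun σ : alternatingGroup (Fin 33) => (σ : Equiv.Perm (Fin 33)) 0)
    (fib_inj h)
  revert h1
  decide

theorem rr_s : (HH.sHom rr) ^ 2 ≠ 1 := by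
  change (finRotate 6) ^ 2 ≠ 1
  decide

theorem xx_sq : xx ^ 2 ≠ 1 := by
  intro h
  have h1 := congrArg (fun g : HH => ((g.h 5 : alternatingGroup (Fin 33)) : Equiv.Perm (Fin 33)) 0) h
  rw [pow_two] at h1
  revert h1
  decide

theorem xx_s : HH.sHom xx ≠ 1 := by
  change (Equiv.swap 0 1 : Equiv.Perm (Fin 6)) ≠ 1
  decide

theorem xx_s_sq : (HH.sHom xx) ^ 2 = 1 := by
  change (Equiv.swap 0 1 : Equiv.Perm (Fin 6)) ^ 2 = 1
  decide

theorem exists_a_EE : ∃ a ∈ EE, ∀ j : ℕ, 1 ≤ j → j ≤ 3464 → a ^ j ≠ 1 := by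
  have hb : b ^ 2 ∈ alternatingGroup (Fin 33) := by
    rw [Equiv.Perm.mem_alternatingGroup, map_pow, pow_two]
    exact Int.units_mul_self _
  refine ⟨fib ⟨b ^ 2, hb⟩, fib_mem _, fun j h1 h2 h => ?_⟩
  rw [← map_pow] at h
  have h3 := fib_inj (h.trans (map_one fib).symm)
  have h4 : b ^ (2 * j) = 1 := by
    have := congrArg Subtype.val h3
    rw [pow_mul]
    simpa using this
  obtain ⟨e0, e1, e2, e3⟩ := b_pow (2 * j)
  rw [h4] at e0 e1 e2 e3
  simp only [Equiv.Perm.one_apply] at e0 e1 e2 e3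
  have f0 : ((0 : Fin 33)).val = 0 := rfl
  have f1 : ((5 : Fin 33)).val = 5 := rfl
  have f2 : ((12 : Fin 33)).val = 12 := rfl
  have f3 : ((21 : Fin 33)).val = 21 := rfl
  exact arith j h1 h2 (e0.symm.trans f0) (e1.symm.trans f1) (e2.symm.trans f2) (e3.symm.trans f3)

end Poly
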