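import Pool.Agent.Poly.Defs

set_option autoImplicit false

namespace Poly

/-! Module EXT: the extension of `H` by the product of the groups `Eqv (T i)` -/

section ext

variable {H : Type} [Group H]

/-- the set of `B`-orbits -/
abbrev EOm (T : PType H) : Type := MulAction.orbitRel.Quotient T.B T.A

/-- the set on which the extension acts -/
abbrev EX (T : PType H) : Type := EOm T × T.B

/-- left multiplication of `B` -/
def elm (T : PType H) (b : T.B) (x : EX T) : EX T := (x.1, b * x.2)

/-- projection to the objects -/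
noncomputable def epr (T : PType H) (x : EX T) : T.A := x.2 • (Quotient.out x.1 : T.A)

theorem elm_elm (T : PType H) (b b' : T.B) (x : EX T) : elm T b (elm T b' x) = elm T (b * b') x := by
  simp [elm, mul_assoc]

theorem elm_one (T : PType H) (x : EX T) : elm T 1 x = x := by
  simp [elm]

theorem elm_inj (T : PType H) (b b' : T.B) (x : EX T) (h : elm T b x = elm T b' x) : b = b' := by
  have := congrArg Prod.snd h
  simpa [elm] using this

theorem epr_elm (T : PType H) (b : T.B) (x : EX T) : epr T (elm T b x) = b • epr T x := by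
  simp [epr, elm, mul_smul]

theorem epr_surj (T : PType H) (α : T.A) : ∃ x : EX T, epr T x = α := by
  have h : (Quotient.out (Quotient.mk _ α : EOm T) : T.A) ∈ MulAction.orbit T.B α := by
    have := Quotient.mk_out (s := MulAction.orbitRel T.B T.A) α
    exact this
  obtain ⟨b, hb⟩ := h
  refine ⟨(Quotient.mk _ α, b⁻¹), ?_⟩
  simp only [epr]
  rw [← hb]
  exact inv_smul_smul b α

theorem orbit_eq (T : PType H) (ω ω' : EOm T) (b : T.B)
    (h : b • (Quotient.out ω : T.A) = (Quotient.out ω' : T.A)) : ω = ω' := by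
  rw [← Quotient.out_eq ω, ← Quotient.out_eq ω']
  refine (Quotient.sound ?_).symm
  exact ⟨b, h⟩

theorem epr_eq (T : PType H) (x y : EX T) (h : epr T x = epr T y) : ∃ m ∈ T.M, y = elm T m x := by
  obtain ⟨ω, b⟩ := x
  obtain ⟨ω', b'⟩ := y
  simp only [epr] at h
  have h1 : (b'⁻¹ * b) • (Quotient.out ω : T.A) = (Quotient.out ω' : T.A) := by
    rw [mul_smul, h, inv_smul_smul]
  have h2 := orbit_eq T ω ω' _ h1
  subst h2
  refine ⟨b' * b⁻¹, ?_, ?_⟩
  · rw [← T.stab _ (b • (Quotient.out ω : T.A)), mul_smul, inv_smul_smul, h]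
  · simp [elm]

/-- the compatibility of a permutation `f` with `h` -/
def ECompat (T : PType H) (h : H) (f : Equiv.Perm (EX T)) : Prop :=
  (∀ (b : T.B) (x : EX T), f (elm T b x) = elm T b (f x)) ∧ ∀ x : EX T, epr T (f x) = h • epr T x

theorem ecompat_one (T : PType H) : ECompat T (1 : H) (1 : Equiv.Perm (EX T)) :=
  ⟨fun _ _ => rfl, fun x => by simp⟩

theorem ecompat_mul (T : PType H) (h h' : H) (f f' : Equiv.Perm (EX T)) (hf : ECompat T h f)
    (hf' : ECompat T h' f') : ECompat T (h * h') (f * f') := by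
  refine ⟨fun b x => ?_, fun x => ?_⟩
  · rw [Equiv.Perm.mul_apply, hf'.1, hf.1, Equiv.Perm.mul_apply]
  · rw [Equiv.Perm.mul_apply, hf.2, hf'.2, mul_smul]

theorem ecompat_inv (T : PType H) (h : H) (f : Equiv.Perm (EX T)) (hf : ECompat T h f) :
    ECompat T h⁻¹ f⁻¹ := by
  refine ⟨fun b x => ?_, fun x => ?_⟩
  · rw [Equiv.Perm.inv_eq_iff_eq, hf.1]
    congr 1
    exact (Equiv.apply_symm_apply f x).symm
  · have := hf.2 (f⁻¹ x)
    rw [show f (f⁻¹ x) = x from Equiv.apply_symm_apply f x] at this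
    rw [this, inv_smul_smul]

/-- every `h` lifts -/
theorem ecompat_exists (T : PType H) (h : H) : ∃ f : Equiv.Perm (EX T), ECompat T h f := by
  classical
  have h0 : ∀ ω : EOm T, ∃ x : EX T, epr T x = h • (Quotient.out ω : T.A) := fun ω => epr_surj T _
  choose s hs using h0
  let F : EX T → EX T := fun x => elm T x.2 (s x.1)
  have hF : ∀ x, epr T (F x) = h • epr T x := by
    intro x
    simp only [F]
    rw [epr_elm, hs, epr, T.comm]
  have hc : ∀ b x, F (elm T b x) = elm T b (F x) := by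
    intro b x
    simp only [F]
    rw [elm_elm]
    rfl
  have hinj : Function.Injective F := by
    intro x y hxy
    have h1 := hF x
    rw [hxy, hF y] at h1
    have h2 : epr T y = epr T x := by
      have := congrArg (fun α => h⁻¹ • α) h1
      simpa using this
    obtain ⟨m, hm, e⟩ := epr_eq T x y h2.symm
    have h3 : F y = elm T m (F x) := by rw [e, hc]
    rw [hxy] at h3
    have h4 : elm T 1 (F y) = elm T m (F y) := by rw [elm_one]; exact h3
    have h5 := elm_inj T _ _ _ h4
    rw [e, ← h5, elm_one]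
  refine ⟨Equiv.ofBijective F (Finite.injective_iff_bijective.1 hinj), ?_, ?_⟩
  · intro b x
    exact hc b x
  · intro x
    exact hF x

/-- the extension -/
def EG {ι : Type} (T : ι → PType H) : Subgroup (H × ∀ i, Equiv.Perm (EX (T i))) where
  carrier := {g | ∀ i, ECompat (T i) g.1 (g.2 i)}
  mul_mem' := fun hg hg' i => ecompat_mul (T i) _ _ _ _ (hg i) (hg' i)
  one_mem' := fun i => ecompat_one (T i)
  inv_mem' := fun hg i => ecompat_inv (T i) _ _ (hg i)

/-- the projection to `H` -/
def Eπ {ι : Type} (T : ι → PType H) : EG T →* H :=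
  (MonoidHom.fst H (∀ i, Equiv.Perm (EX (T i)))).comp (EG T).subtype

theorem Eπ_apply {ι : Type} (T : ι → PType H) (g : EG T) : Eπ T g = g.1.1 := rfl

/-- a chosen point over an object -/
noncomputable def ept (T : PType H) (α : T.A) : EX T := (epr_surj T α).choose

theorem epr_ept (T : PType H) (α : T.A) : epr T (ept T α) = α := (epr_surj T α).choose_spec

/-- the functions attached to an element of the kernel -/
noncomputable def EW {ι : Type} (T : ι → PType H) (g : EG T) (i : ι) (α : (T i).A) : (T i).B :=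
  (g.1.2 i (ept (T i) α)).2 * (ept (T i) α).2⁻¹

/-- main property of `EW` -/
theorem EW_spec {ι : Type} (T : ι → PType H) (n : EG T) (hn : n.1.1 = 1) (i : ι) (x : EX (T i)) :
    n.1.2 i x = elm (T i) (EW T n i (epr (T i) x)) x := by
  have hf := n.2 i
  have h1 : ∀ y : EX (T i), epr (T i) (n.1.2 i y) = epr (T i) y := by
    intro y
    rw [hf.2, hn, one_smul]
  obtain ⟨m, hm, e⟩ := epr_eq (T i) (ept (T i) (epr (T i) x)) x (epr_ept _ _)
  obtain ⟨m', hm', e'⟩ := epr_eq (T i) _ _ (h1 (ept (T i) (epr (T i) x))).symm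
  have h2 : EW T n i (epr (T i) x) = m' := by
    unfold EW
    rw [e']
    simp [elm]
  rw [h2]
  conv_lhs => rw [e]
  rw [hf.1, e', elm_elm, (T i).abel m hm m' hm', ← elm_elm, ← e]

theorem EW_eq {ι : Type} (T : ι → PType H) (n : EG T) (hn : n.1.1 = 1) (i : ι) (x : EX (T i))
    (b : (T i).B) (h : n.1.2 i x = elm (T i) b x) : EW T n i (epr (T i) x) = b := by
  rw [EW_spec T n hn] at h
  exact elm_inj _ _ _ _ h

theorem EW_mem {ι : Type} (T : ι → PType H) (n : EG T) (hn : n.1.1 = 1) (i : ι) (α : (T i).A) :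
    EW T n i α ∈ (T i).M := by
  obtain ⟨x, rfl⟩ := epr_surj (T i) α
  have h := EW_spec T n hn i x
  have h1 := (n.2 i).2 x
  rw [h, epr_elm, hn, one_smul] at h1
  exact ((T i).stab _ _).1 h1

/-- the permutation attached to an equivariant function -/
noncomputable def eperm (T : PType H) (w : T.A → T.B) (hw : w ∈ Eqv T) : Equiv.Perm (EX T) where
  toFun x := elm T (w (epr T x)) x
  invFun x := elm T (w (epr T x))⁻¹ x
  left_inv x := by
    have : epr T (elm T (w (epr T x)) x) = epr T x := by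
      rw [epr_elm, T.stab]; exact hw.1 _
    show elm T (w (epr T (elm T (w (epr T x)) x)))⁻¹ (elm T (w (epr T x)) x) = x
    rw [this, elm_elm, inv_mul_cancel, elm_one]
  right_inv x := by
    have : epr T (elm T (w (epr T x))⁻¹ x) = epr T x := by
      rw [epr_elm, T.stab]; exact T.M.inv_mem (hw.1 _)
    show elm T (w (epr T (elm T (w (epr T x))⁻¹ x))) (elm T (w (epr T x))⁻¹ x) = x
    rw [this, elm_elm, mul_inv_cancel, elm_one]

theorem eperm_compat (T : PType H) (w : T.A → T.B) (hw : w ∈ Eqv T) : ECompat T (1 : H) (eperm T w hw) := by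
  refine ⟨fun b x => ?_, fun x => ?_⟩
  · show elm T (w (epr T (elm T b x))) (elm T b x) = elm T b (elm T (w (epr T x)) x)
    rw [epr_elm, hw.2, elm_elm, elm_elm]
    simp [mul_assoc]
  · show epr T (elm T (w (epr T x)) x) = _
    rw [epr_elm, one_smul, T.stab]
    exact hw.1 _

theorem exists_ext {ι : Type} [Finite ι] [Finite H] (T : ι → PType H) :
    ∃ (G : Type) (_ : Group G) (_ : Finite G), Nonempty (Ext T G) := by
  classical
  refine ⟨EG T, inferInstance, inferInstance, ⟨?_⟩⟩
  refine
    { π := Eπ T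
      surj := ?_
      W := EW T
      W_mem := ?_
      W_mul := ?_
      W_inj := ?_
      W_surj := ?_
      W_conj := ?_
      W_pow := ?_ }
  · intro h
    choose f hf using fun i => ecompat_exists (T i) h
    exact ⟨⟨(h, f), hf⟩, rfl⟩
  · intro n hn i
    have hn1 : n.1.1 = 1 := hn
    refine ⟨fun α => EW_mem T n hn1 i α, fun b α => ?_⟩
    obtain ⟨x, rfl⟩ := epr_surj (T i) α
    rw [← epr_elm]
    refine EW_eq T n hn1 i _ _ ?_
    rw [(n.2 i).1, EW_spec T n hn1 i x, elm_elm, elm_elm]
    simp [mul_assoc]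
  · intro n hn n' hn' i
    have hn1 : n.1.1 = 1 := hn
    have hn1' : n'.1.1 = 1 := hn'
    funext α
    obtain ⟨x, rfl⟩ := epr_surj (T i) α
    refine EW_eq T (n * n') (by show n.1.1 * n'.1.1 = 1; rw [hn1, hn1', one_mul]) i _ _ ?_
    show n.1.2 i (n'.1.2 i x) = _
    rw [EW_spec T n' hn1' i x, (n.2 i).1, EW_spec T n hn1 i x, elm_elm, Pi.mul_apply,
      (T i).abel _ (EW_mem T n hn1 i _) _ (EW_mem T n' hn1' i _)]
  · intro n hn h1
    have hn1 : n.1.1 = 1 := hn
    refine Subtype.ext (Prod.ext hn1 ?_)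
    funext i
    refine Equiv.ext fun x => ?_
    rw [EW_spec T n hn1 i x, h1 i]
    exact elm_one _ _
  · intro f hf
    refine ⟨⟨(1, fun i => eperm (T i) (f i) (hf i)), fun i => eperm_compat (T i) (f i) (hf i)⟩, rfl, ?_⟩
    intro i
    funext α
    obtain ⟨x, rfl⟩ := epr_surj (T i) α
    exact EW_eq T _ rfl i _ _ rfl
  · intro g n hn i α
    have hn1 : n.1.1 = 1 := hn
    have h0 : (g * n * g⁻¹).1.1 = 1 := by
      show g.1.1 * n.1.1 * g.1.1⁻¹ = 1
      rw [hn1]; simp
    obtain ⟨x, rfl⟩ := epr_surj (T i) α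
    have h1 : Eπ T g • epr (T i) x = epr (T i) (g.1.2 i x) := ((g.2 i).2 x).symm
    rw [h1]
    refine EW_eq T _ h0 i _ _ ?_
    show g.1.2 i (n.1.2 i ((g.1.2 i)⁻¹ (g.1.2 i x))) = _
    rw [show (g.1.2 i)⁻¹ (g.1.2 i x) = x from Equiv.symm_apply_apply (g.1.2 i) x, EW_spec T n hn1 i x,
      (g.2 i).1]
  · intro g i α t ht k hk
    obtain ⟨x, rfl⟩ := epr_surj (T i) α
    have h1 : epr (T i) (elm (T i) t x) = epr (T i) (g.1.2 i x) := by
      rw [epr_elm, (g.2 i).2]
      exact ht.symm
    obtain ⟨m', hm', e⟩ := epr_eq (T i) _ _ h1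
    refine ⟨t⁻¹ * m' * t, ?_, ?_⟩
    · have := (T i).normal t⁻¹ m' hm'
      simpa using this
    · have h0 : (g ^ k).1.1 = 1 := hk
      refine EW_eq T _ h0 i _ _ ?_
      have h2 : ∀ j : ℕ, (g ^ j).1.2 i x = elm (T i) ((t * (t⁻¹ * m' * t)) ^ j) x := by
        intro j
        induction j with
        | zero => rw [pow_zero, pow_zero, elm_one]; rfl
        | succ j ih =>
          have : (g ^ (j + 1)).1.2 i x = g.1.2 i ((g ^ j).1.2 i x) := by
            rw [pow_succ']; rfl
          rw [this, ih, (g.2 i).1, e, elm_elm, elm_elm, pow_succ]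
          congr 1
          group
      exact h2 k

end ext

end Poly
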