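import Pool.Agent.Poly.Obj

set_option autoImplicit false

namespace Poly

open Equiv

/-- the element `g` in the fibre `i` -/
def genFib (i : Fin 6) : alternatingGroup (Fin 33) →* HH where
  toFun g := ⟨1, fun j => if j = i then g else 1⟩
  map_one' := by ext1 <;> simp [funext_iff]
  map_mul' a b := by
    ext1
    · simp
    · funext j
      simp only [HH.mul_h]
      by_cases h : j = i <;> simp [h]

theorem genFib_s (i : Fin 6) (g : alternatingGroup (Fin 33)) : (genFib i g).s = 1 := rfl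
theorem genFib_h (i j : Fin 6) (g : alternatingGroup (Fin 33)) :
    (genFib i g).h j = if j = i then g else 1 := rfl

theorem gen_thr3 : thr * thr * thr = 1 := by
  apply Subtype.ext
  decide +kernel

theorem gen_xx4 : xx * xx * xx * xx = genFib 5 thr := by
  ext1
  · simp only [HH.mul_s, genFib_s]
    decide
  · funext i
    fin_cases i
    · change (1 : alternatingGroup (Fin 33)) * 1 * 1 * 1 = 1
      simp
    · change (1 : alternatingGroup (Fin 33)) * 1 * 1 * 1 = 1
      simp
    · change (1 : alternatingGroup (Fin 33)) * 1 * 1 * 1 = 1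
      simp
    · change (1 : alternatingGroup (Fin 33)) * 1 * 1 * 1 = 1
      simp
    · change (1 : alternatingGroup (Fin 33)) * 1 * 1 * 1 = 1
      simp
    · change thr * thr * thr * thr = thr
      rw [gen_thr3, one_mul]

theorem gen_rr6 : rr * rr * rr * rr * rr * rr = ⟨1, fun _ => cyc⟩ := by
  ext1
  · decide
  · funext i
    fin_cases i
    · change cyc * 1 * 1 * 1 * 1 * 1 = cyc
      simp
    · change 1 * cyc * 1 * 1 * 1 * 1 = cyc
      simp
    · change 1 * 1 * cyc * 1 * 1 * 1 = cyc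
      simp
    · change 1 * 1 * 1 * cyc * 1 * 1 = cyc
      simp
    · change 1 * 1 * 1 * 1 * cyc * 1 = cyc
      simp
    · change 1 * 1 * 1 * 1 * 1 * cyc = cyc
      simp

theorem gen_conj_fib (h : HH) (i : Fin 6) (g : alternatingGroup (Fin 33)) :
    h * genFib i g * h⁻¹ = genFib (h.s i) (h.h i * g * (h.h i)⁻¹) := by
  ext1
  · simp [genFib_s]
  · funext j
    simp only [HH.mul_h, genFib_h, HH.inv_s, HH.inv_h, genFib_s, Perm.one_apply]
    by_cases e : h.s⁻¹ j = i
    · subst e
      simp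
    · have e' : j ≠ h.s i := by
        rintro rfl
        exact e (by simp)
      rw [if_neg e, if_neg e', mul_one, mul_inv_cancel]

/-- `swap k (k+1)` -/
def genSw (k : Fin 32) : Perm (Fin 33) := swap k.castSucc k.succ

theorem genSw_sq (k : Fin 32) : genSw k * genSw k = 1 := swap_mul_self _ _

theorem gen_alt (S : Subgroup (alternatingGroup (Fin 33))) (h1 : thr ∈ S)
    (h2 : ∀ g ∈ S, cyc * g * cyc⁻¹ ∈ S) : S = ⊤ := by
  have hadj : ∀ k : ℕ, ∀ hk : k + 1 < 32, ∃ g ∈ S,
      (g : Perm (Fin 33)) = genSw ⟨k, by omega⟩ * genSw ⟨k + 1, hk⟩ := by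
    intro k
    induction k with
    | zero =>
      intro hk
      exact ⟨thr, h1, rfl⟩
    | succ k ih =>
      intro hk
      obtain ⟨g, hg, e⟩ := ih (by omega)
      refine ⟨_, h2 g hg, ?_⟩
      have hc : ((cyc * g * cyc⁻¹ : alternatingGroup (Fin 33)) : Perm (Fin 33)) =
          finRotate 33 * (g : Perm (Fin 33)) * (finRotate 33)⁻¹ := rfl
      have hs : ∀ j : ℕ, ∀ hj : j + 1 < 32, genSw ⟨j + 1, hj⟩ =
          finRotate 33 * genSw ⟨j, by omega⟩ * (finRotate 33)⁻¹ := by
        intro j hj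
        rw [genSw, genSw, ← swap_apply_apply]
        congr 1
        · exact (finRotate_of_lt (n := 32) (k := j) (by omega)).symm
        · exact (finRotate_of_lt (n := 32) (k := j + 1) (by omega)).symm
      have E1 := hs k (by omega)
      have E2 := hs (k + 1) hk
      rw [hc, e]
      calc finRotate 33 * (genSw ⟨k, by omega⟩ * genSw ⟨k + 1, by omega⟩) * (finRotate 33)⁻¹
          = (finRotate 33 * genSw ⟨k, by omega⟩ * (finRotate 33)⁻¹) *
            (finRotate 33 * genSw ⟨k + 1, by omega⟩ * (finRotate 33)⁻¹) := by group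
        _ = genSw ⟨k + 1, by omega⟩ * genSw ⟨k + 1 + 1, hk⟩ := by rw [← E1, ← E2]
  have h0 : ∀ k : ℕ, ∀ hk : k < 32, ∃ g ∈ S,
      (g : Perm (Fin 33)) = genSw 0 * genSw ⟨k, hk⟩ := by
    intro k
    induction k with
    | zero =>
      intro hk
      exact ⟨1, S.one_mem, (genSw_sq 0).symm⟩
    | succ k ih =>
      intro hk
      obtain ⟨g, hg, e⟩ := ih (by omega)
      obtain ⟨g', hg', e'⟩ := hadj k hk
      refine ⟨g * g', S.mul_mem hg hg', ?_⟩
      rw [Subgroup.coe_mul, e, e', mul_assoc, ← mul_assoc (genSw ⟨k, _⟩), genSw_sq, one_mul]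
  have hP : ∀ σ : Perm (Fin 33), ∃ g ∈ S, (g : Perm (Fin 33)) = σ ∨ (g : Perm (Fin 33)) = σ * genSw 0 := by
    intro σ
    have hσ : σ ∈ Submonoid.closure (Set.range fun i : Fin 32 ↦ swap i.castSucc i.succ) := by
      rw [Perm.mclosure_swap_castSucc_succ]; trivial
    induction hσ using Submonoid.closure_induction_right with
    | one => exact ⟨1, S.one_mem, Or.inl rfl⟩
    | mul_right x hx y hy ih =>
      obtain ⟨⟨k, hk⟩, rfl⟩ := hy
      obtain ⟨g', hg', e'⟩ := h0 k hk
      obtain ⟨g, hg, e | e⟩ := ih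
      · refine ⟨g * g'⁻¹, S.mul_mem hg (S.inv_mem hg'), Or.inr ?_⟩
        rw [Subgroup.coe_mul, Subgroup.coe_inv, e, e', mul_inv_rev]
        change x * ((swap _ _)⁻¹ * (swap _ _)⁻¹) = x * swap _ _ * swap _ _
        rw [swap_inv, swap_inv, mul_assoc]
      · refine ⟨g * g', S.mul_mem hg hg', Or.inl ?_⟩
        rw [Subgroup.coe_mul, e, e', mul_assoc, ← mul_assoc (genSw 0) (genSw 0), genSw_sq, one_mul]
        rfl
  rw [eq_top_iff]
  intro σ _
  obtain ⟨g, hg, e | e⟩ := hP σ
  · rwa [← Subtype.ext e]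
  · exfalso
    have h3 := g.2
    have h4 := σ.2
    rw [Perm.mem_alternatingGroup] at h3 h4
    rw [e, map_mul, h4, genSw, Perm.sign_swap (by decide)] at h3
    exact absurd h3 (by decide)

theorem gen_top : Subgroup.closure {rr, xx} = ⊤ := by
  set C := Subgroup.closure {rr, xx} with hC
  have hr : rr ∈ C := Subgroup.subset_closure (by simp)
  have hx : xx ∈ C := Subgroup.subset_closure (by simp)
  have h5 : Subgroup.comap (genFib 5) C = ⊤ := by
    apply gen_alt
    · rw [Subgroup.mem_comap, ← gen_xx4]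
      exact C.mul_mem (C.mul_mem (C.mul_mem hx hx) hx) hx
    · intro g hg
      rw [Subgroup.mem_comap] at hg ⊢
      have h6 : rr * rr * rr * rr * rr * rr ∈ C :=
        C.mul_mem (C.mul_mem (C.mul_mem (C.mul_mem (C.mul_mem hr hr) hr) hr) hr) hr
      rw [gen_rr6] at h6
      have := C.mul_mem (C.mul_mem h6 hg) (C.inv_mem h6)
      rwa [gen_conj_fib] at this
  have hstep : ∀ i : Fin 6, (∀ g, genFib i g ∈ C) → ∀ g, genFib (finRotate 6 i) g ∈ C := by
    intro i hi g
    have := C.mul_mem (C.mul_mem hr (hi ((rr.h i)⁻¹ * g * rr.h i))) (C.inv_mem hr)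
    rw [gen_conj_fib] at this
    have e : rr.h i * ((rr.h i)⁻¹ * g * rr.h i) * (rr.h i)⁻¹ = g := by group
    rw [e] at this
    exact this
  have f5 : ∀ g, genFib 5 g ∈ C := by
    intro g
    have : g ∈ Subgroup.comap (genFib 5) C := by rw [h5]; trivial
    exact this
  have f0 : ∀ g, genFib 0 g ∈ C := hstep 5 f5
  have f1 : ∀ g, genFib 1 g ∈ C := hstep 0 f0
  have f2 : ∀ g, genFib 2 g ∈ C := hstep 1 f1
  have f3 : ∀ g, genFib 3 g ∈ C := hstep 2 f2
  have f4 : ∀ g, genFib 4 g ∈ C := hstep 3 f3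
  have hker : ∀ h : HH, h.s = 1 → h ∈ C := by
    intro h hs
    have e : h = genFib 0 (h.h 0) * genFib 1 (h.h 1) * genFib 2 (h.h 2) * genFib 3 (h.h 3) *
        genFib 4 (h.h 4) * genFib 5 (h.h 5) := by
      ext1
      · simp [genFib_s, hs]
      · funext j
        simp only [HH.mul_h, genFib_h, genFib_s, Perm.one_apply]
        fin_cases j <;> simp
    rw [e]
    exact C.mul_mem (C.mul_mem (C.mul_mem (C.mul_mem (C.mul_mem (f0 _) (f1 _)) (f2 _)) (f3 _)) (f4 _)) (f5 _)
  have hmap : C.map HH.sHom = ⊤ := by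
    rw [hC, MonoidHom.map_closure, Set.image_pair]
    have := Perm.closure_cycle_adjacent_swap (isCycle_finRotate (n := 4)) support_finRotate 0
    exact this
  rw [eq_top_iff]
  intro h _
  have : h.s ∈ C.map HH.sHom := by rw [hmap]; trivial
  obtain ⟨c, hc, e⟩ := this
  have h1 : h * c⁻¹ ∈ C := by
    apply hker
    change h.s * (c.s)⁻¹ = 1
    rw [← show c.s = h.s from e]
    simp
  have := C.mul_mem h1 hc
  simpa using this

end Poly
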