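import Pool.Agent.Poly.Obj

set_option autoImplicit false

namespace Poly

theorem kill_pow_s (h : HH) (k : ℕ) : (h ^ k).s = h.s ^ k := by
  induction k with
  | zero => rfl
  | succ k ih => rw [pow_succ, HH.mul_s, ih, pow_succ]

theorem kill_pow_h (h : HH) (hs : h.s = 1) (k : ℕ) (i : Fin 6) : (h ^ k).h i = h.h i ^ k := by
  induction k with
  | zero => rfl
  | succ k ih => rw [pow_succ, HH.mul_h, hs, Equiv.Perm.one_apply, ih, pow_succ]

theorem kill_base (h : HH) (hne : h ≠ 1) (hs : h.s = 1) (r : ℕ) (hr : r.Prime) (hp : h ^ r = 1) :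
    r ≤ 33 ∧ ∀ L : Loc r, ∃ α : BObj L.X, h • α = L.t⁻¹ • α := by
  obtain ⟨i, hi⟩ : ∃ i, h.h i ≠ 1 := by
    by_contra hcon
    push Not at hcon
    apply hne
    ext1
    · exact hs
    · funext i
      exact hcon i
  have hσ1 : (h.h i : Equiv.Perm (Fin 33)) ≠ 1 := by
    intro e
    exact hi (Subtype.ext e)
  have hσr : (h.h i : Equiv.Perm (Fin 33)) ^ r = 1 := by
    have e : (h ^ r).h i = 1 := by rw [hp]; rfl
    rw [kill_pow_h h hs] at e
    have := congrArg (fun x : alternatingGroup (Fin 33) => (x : Equiv.Perm (Fin 33))) e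
    simpa using this
  constructor
  · have hfact : Fact r.Prime := ⟨hr⟩
    have ho : orderOf (h.h i : Equiv.Perm (Fin 33)) = r := orderOf_eq_prime hσr hσ1
    have hd := orderOf_dvd_card (x := (h.h i : Equiv.Perm (Fin 33)))
    rw [ho, Fintype.card_perm, Fintype.card_fin] at hd
    exact (hr.dvd_factorial).mp hd
  · intro L
    obtain ⟨β, hβ⟩ := L.emb (h.h i : Equiv.Perm (Fin 33)) (h.h i).2 hσ1 hσr
    refine ⟨⟨i, β⟩, ?_⟩
    rw [HH_smul_B, B_smul_B]
    ext1
    · simp [hs]
    · change lab (h.h i : Equiv.Perm (Fin 33)) β = pre L.t⁻¹ β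
      ext x
      rw [lab_apply, pre_apply, inv_inv, hβ]

theorem kill_top (h : HH) (hs : h.s ≠ 1) (r : ℕ) (hr : r.Prime) (hp : h ^ r = 1) :
    r ≤ 5 ∧ ∀ L : Loc r, ∃ α : TObj L.X r, h • α = L.t⁻¹ • α := by
  have hsr : h.s ^ r = 1 := by rw [← kill_pow_s, hp]; rfl
  constructor
  · have hfact : Fact r.Prime := ⟨hr⟩
    have ho : orderOf h.s = r := orderOf_eq_prime hsr hs
    have hd := orderOf_dvd_card (x := h.s)
    rw [ho, Fintype.card_perm, Fintype.card_fin] at hd
    have h6 : r ≤ 6 := (hr.dvd_factorial).mp hd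
    have : r ≠ 6 := by rintro rfl; revert hr; norm_num
    omega
  · intro L
    classical
    obtain ⟨i₀, hi₀⟩ : ∃ i, h.s i ≠ i := by
      by_contra hcon
      push Not at hcon
      exact hs (Equiv.ext hcon)
    have hfact : Fact r.Prime := ⟨hr⟩
    have hmin : Function.minimalPeriod h.s i₀ = r := by
      apply Function.minimalPeriod_eq_prime
      · change (h.s)^[r] i₀ = i₀
        rw [Equiv.Perm.iterate_eq_pow, hsr]; rfl
      · exact hi₀
    -- the family of injections
    let F : ℕ → (L.X ↪ Fin 33) := fun k => lab ((h ^ k).h i₀ : Equiv.Perm (Fin 33)) (pre (L.t ^ k) L.bt)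
    have hM : ∀ m : ℕ, pre (L.t ^ (r * m)) L.bt = L.bt := by
      intro m
      have hm : L.t ^ (r * m) ∈ L.M := by rw [pow_mul]; exact L.M.pow_mem L.t_pow_mem m
      ext x
      rw [pre_apply, (L.ker _).mp (L.M.inv_mem hm)]
    have hper : ∀ k m : ℕ, F (k + r * m) = F k := by
      intro k m
      change lab ((h ^ (k + r * m)).h i₀ : Equiv.Perm (Fin 33)) (pre (L.t ^ (k + r * m)) L.bt) = _
      rw [pow_add, pow_mul h, hp, one_pow, mul_one, pow_add L.t, pre_mul, hM]
    have hwd' : ∀ k d : ℕ, (h.s ^ k) i₀ = (h.s ^ (k + d)) i₀ → F k = F (k + d) := by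
      intro k d e
      rw [pow_add, Equiv.Perm.mul_apply, EmbeddingLike.apply_eq_iff_eq] at e
      have hd : Function.IsPeriodicPt h.s d i₀ := by
        change (h.s)^[d] i₀ = i₀
        rw [Equiv.Perm.iterate_eq_pow]; exact e.symm
      have := hd.minimalPeriod_dvd
      rw [hmin] at this
      obtain ⟨m, rfl⟩ := this
      exact (hper k m).symm
    have hwd : ∀ k k' : ℕ, (h.s ^ k) i₀ = (h.s ^ k') i₀ → F k = F k' := by
      intro k k' e
      rcases le_total k k' with hle | hle
      · obtain ⟨d, rfl⟩ := Nat.exists_eq_add_of_le hle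
        exact hwd' k d e
      · obtain ⟨d, rfl⟩ := Nat.exists_eq_add_of_le hle
        exact (hwd' k' d e.symm).symm
    -- step
    have hstep : ∀ k : ℕ, lab (h.h ((h.s ^ k) i₀) : Equiv.Perm (Fin 33)) (F k) = pre L.t⁻¹ (F (k + 1)) := by
      intro k
      change lab (h.h ((h.s ^ k) i₀) : Equiv.Perm (Fin 33))
        (lab ((h ^ k).h i₀ : Equiv.Perm (Fin 33)) (pre (L.t ^ k) L.bt)) =
        pre L.t⁻¹ (lab ((h ^ (k + 1)).h i₀ : Equiv.Perm (Fin 33)) (pre (L.t ^ (k + 1)) L.bt))
      rw [← lab_mul, ← lab_pre, ← pre_mul, pow_succ' L.t, inv_mul_cancel_left, pow_succ' h, HH.mul_h, kill_pow_s]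
      rfl
    let P : Fin 6 → Prop := fun j => ∃ k : ℕ, (h.s ^ k) i₀ = j
    let a : Fin 6 → Option (L.X ↪ Fin 33) := fun j => if hj : P j then some (F hj.choose) else none
    have ha : ∀ k : ℕ, a ((h.s ^ k) i₀) = some (F k) := by
      intro k
      have hj : P ((h.s ^ k) i₀) := ⟨k, rfl⟩
      change (if hj : P ((h.s ^ k) i₀) then some (F hj.choose) else none) = _
      rw [dif_pos hj]
      congr 1
      exact hwd _ _ hj.choose_spec
    have hb : ∀ j, ¬ P j → a j = none := fun j hj => dif_neg hj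
    have hPs : ∀ j, P (h.s⁻¹ j) → P j := by
      rintro j ⟨k, hk⟩
      refine ⟨k + 1, ?_⟩
      rw [pow_succ', Equiv.Perm.mul_apply, hk]; simp
    have hPs' : ∀ j, P j → P (h.s⁻¹ j) := by
      rintro j ⟨k, hk⟩
      refine ⟨k + (r - 1), ?_⟩
      have e : (h.s ^ (k + (r - 1))) = h.s⁻¹ * h.s ^ k := by
        rw [eq_inv_mul_iff_mul_eq, ← pow_succ']
        have : k + (r - 1) + 1 = k + r := by have := hr.pos; omega
        rw [this, pow_add, hsr, mul_one]
      rw [e, Equiv.Perm.mul_apply, hk]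
    have hsome : ∀ j, (a j).isSome = true ↔ P j := by
      intro j
      constructor
      · intro e
        by_contra hj
        rw [hb j hj] at e
        simp at e
      · rintro ⟨k, rfl⟩
        rw [ha]; rfl
    have hcard : (Finset.univ.filter fun i => (a i).isSome = true).card = r := by
      have : (Finset.univ.filter fun i => (a i).isSome = true) = (Finset.range r).image (fun k => (h.s ^ k) i₀) := by
        ext j
        simp only [Finset.mem_filter, Finset.mem_univ, true_and, Finset.mem_image, Finset.mem_range]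
        rw [hsome]
        constructor
        · rintro ⟨k, hk⟩
          refine ⟨k % r, Nat.mod_lt _ hr.pos, ?_⟩
          rw [← hk]
          conv_rhs => rw [← Nat.mod_add_div k r]
          rw [pow_add, pow_mul, hsr, one_pow, mul_one]
        · rintro ⟨k, _, hk⟩
          exact ⟨k, hk⟩
      rw [this, Finset.card_image_of_injOn, Finset.card_range]
      intro k hk k' hk' e
      simp only [Finset.coe_range, Set.mem_Iio] at hk hk'
      have e' : (h.s)^[k] i₀ = (h.s)^[k'] i₀ := by
        rw [Equiv.Perm.iterate_eq_pow, Equiv.Perm.iterate_eq_pow]; exact e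
      exact (Function.iterate_eq_iterate_iff_of_lt_minimalPeriod (by rw [hmin]; exact hk) (by rw [hmin]; exact hk')).mp e'
    refine ⟨⟨a, hcard⟩, ?_⟩
    ext1
    funext j
    rw [HH_smul_T, B_smul_T]
    change (a (h.s⁻¹ j)).map _ = (a j).map _
    by_cases hj : P (h.s⁻¹ j)
    · obtain ⟨k, hk⟩ := hj
      have hj' : j = (h.s ^ (k + 1)) i₀ := by
        rw [pow_succ', Equiv.Perm.mul_apply, hk]; simp
      rw [← hk, ha, hj', ha, Option.map_some, Option.map_some, hstep]
    · rw [hb _ hj, hb j (fun h' => hj (hPs' j h'))]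
      rfl

end Poly
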