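import Pool.Agent.Poly.Obj

set_option autoImplicit false

namespace Poly

namespace L2

/-- multiplication by `w ^ k` on `Z/n[w]/(w^2+w+1)` -/
def W {n : ℕ} (k : ZMod 3) (v : ZMod n × ZMod n) : ZMod n × ZMod n :=
  if k = 0 then v else if k = 1 then (-v.2, v.1 - v.2) else (v.2 - v.1, -v.1)

theorem W_zero {n : ℕ} (v : ZMod n × ZMod n) : W 0 v = v := rfl

theorem k_cases (k : ZMod 3) : k = 0 ∨ k = 1 ∨ k = 2 := by revert k; decide

theorem W_one {n : ℕ} (v : ZMod n × ZMod n) : W 1 v = (-v.2, v.1 - v.2) := rfl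
theorem W_two {n : ℕ} (v : ZMod n × ZMod n) : W 2 v = (v.2 - v.1, -v.1) := rfl

theorem W_vadd {n : ℕ} (k : ZMod 3) (v v' : ZMod n × ZMod n) : W k (v + v') = W k v + W k v' := by
  rcases k_cases k with rfl | rfl | rfl
  · simp only [W_zero]
  · simp only [W_one]; ext <;> simp <;> ring
  · simp only [W_two]; ext <;> simp <;> ring

theorem W_vneg {n : ℕ} (k : ZMod 3) (v : ZMod n × ZMod n) : W k (-v) = - W k v := by
  rcases k_cases k with rfl | rfl | rfl
  · simp only [W_zero]
  · simp only [W_one]; ext <;> simp; ring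
  · simp only [W_two]; ext <;> simp; ring

theorem W_vzero {n : ℕ} (k : ZMod 3) : W k (0 : ZMod n × ZMod n) = 0 := by
  have := W_vadd k (0 : ZMod n × ZMod n) 0
  simpa using this

theorem W_add {n : ℕ} (k l : ZMod 3) (v : ZMod n × ZMod n) : W (k + l) v = W k (W l v) := by
  have e1 : (1 + 1 : ZMod 3) = 2 := rfl
  have e2 : (1 + 2 : ZMod 3) = 0 := rfl
  have e3 : (2 + 1 : ZMod 3) = 0 := rfl
  have e4 : (2 + 2 : ZMod 3) = 1 := rfl
  rcases k_cases k with rfl | rfl | rfl <;> rcases k_cases l with rfl | rfl | rfl <;>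
    simp only [e1, e2, e3, e4, zero_add, add_zero, W_zero, W_one, W_two] <;>
    ext <;> simp <;> ring

/-- reduction modulo 2 -/
def red (v : ZMod 4 × ZMod 4) : ZMod 2 × ZMod 2 :=
  (ZMod.castHom (by norm_num : 2 ∣ 4) (ZMod 2) v.1, ZMod.castHom (by norm_num : 2 ∣ 4) (ZMod 2) v.2)

theorem red_add (v v' : ZMod 4 × ZMod 4) : red (v + v') = red v + red v' := by
  unfold red; ext <;> simp

theorem red_W (k : ZMod 3) (v : ZMod 4 × ZMod 4) : red (W k v) = W k (red v) := by
  unfold red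
  rcases k_cases k with rfl | rfl | rfl
  · simp only [W_zero]
  · simp only [W_one]; ext <;> simp
  · simp only [W_two]; ext <;> simp

/-- the affine maps `x ↦ w ^ k x + v` of the Galois ring -/
@[ext] structure B2 where
  k : ZMod 3
  v : ZMod 4 × ZMod 4

instance : Mul B2 := ⟨fun a b => ⟨a.k + b.k, a.v + W a.k b.v⟩⟩
instance : One B2 := ⟨⟨0, 0⟩⟩
instance : Inv B2 := ⟨fun a => ⟨-a.k, -W (-a.k) a.v⟩⟩

@[simp] theorem mul_k (a b : B2) : (a * b).k = a.k + b.k := rfl
@[simp] theorem mul_v (a b : B2) : (a * b).v = a.v + W a.k b.v := rfl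
@[simp] theorem one_k : (1 : B2).k = 0 := rfl
@[simp] theorem one_v : (1 : B2).v = 0 := rfl
@[simp] theorem inv_k (a : B2) : (a⁻¹).k = -a.k := rfl
@[simp] theorem inv_v (a : B2) : (a⁻¹).v = -W (-a.k) a.v := rfl

instance : Group B2 := Group.ofLeftAxioms
  (fun a b c => by
    apply B2.ext
    · simp [add_assoc]
    · simp only [mul_v, mul_k, W_vadd, W_add, add_assoc])
  (fun a => by
    apply B2.ext
    · simp
    · simp only [mul_v, one_v, one_k, W_zero, zero_add])
  (fun a => by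
    apply B2.ext
    · simp
    · simp only [mul_v, inv_v, inv_k, one_v, neg_add_cancel])

instance : Finite B2 := by
  refine Finite.of_injective (β := ZMod 3 × (ZMod 4 × ZMod 4)) (fun a => (a.k, a.v)) ?_
  rintro ⟨k, v⟩ ⟨k', v'⟩ e
  simp only [Prod.mk.injEq] at e
  ext1
  · exact e.1
  · exact e.2

instance : MulAction B2 (ZMod 2 × ZMod 2) where
  smul b x := red b.v + W b.k x
  one_smul x := by
    change red (1 : B2).v + W (1 : B2).k x = x
    rw [one_v, one_k, W_zero]
    have : red 0 = 0 := rfl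
    rw [this, zero_add]
  mul_smul a b x := by
    change red (a * b).v + W (a * b).k x = red a.v + W a.k (red b.v + W b.k x)
    rw [mul_v, mul_k, W_add, red_add, red_W, W_vadd, add_assoc]

theorem smul_def (b : B2) (x : ZMod 2 × ZMod 2) : b • x = red b.v + W b.k x := rfl

/-- translations by `2 R` -/
def M : Subgroup B2 where
  carrier := {m | m.k = 0 ∧ m.v + m.v = 0}
  mul_mem' := by
    rintro a b ⟨h1, h2⟩ ⟨h3, h4⟩
    refine ⟨by simp [h1, h3], ?_⟩
    rw [mul_v, h1, W_zero]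
    calc a.v + b.v + (a.v + b.v) = (a.v + a.v) + (b.v + b.v) := by abel
      _ = 0 := by rw [h2, h4, add_zero]
  one_mem' := ⟨rfl, rfl⟩
  inv_mem' := by
    rintro a ⟨h1, h2⟩
    refine ⟨by simp [h1], ?_⟩
    rw [inv_v, h1, neg_zero, W_zero, ← neg_add, h2, neg_zero]

theorem mem_M (m : B2) : m ∈ M ↔ m.k = 0 ∧ m.v + m.v = 0 := Iff.rfl

theorem conj_eq (b m : B2) (hm : m.k = 0) : b * m * b⁻¹ = ⟨0, W b.k m.v⟩ := by
  apply B2.ext
  · simp [hm]
  · have e : (b * m).k = b.k := by simp [hm]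
    simp only [mul_v, inv_v]
    rw [e, W_vneg, ← W_add, add_neg_cancel, W_zero]
    abel

theorem W_dbl (k : ZMod 3) (v : ZMod 4 × ZMod 4) (h : v + v = 0) : W k v + W k v = 0 := by
  rw [← W_vadd, h, W_vzero]

theorem ker_aux : ∀ (k : ZMod 3) (v : ZMod 4 × ZMod 4),
    (k = 0 ∧ v + v = 0) ↔ ∀ x : ZMod 2 × ZMod 2, red v + W k x = x := by
  decide

theorem tr_aux' : ∀ v : ZMod 4 × ZMod 4, ∀ v' : ZMod 4 × ZMod 4,
    (v + v = 0 ∧ v' + v' = 0 ∧ v ≠ 0 ∧ v' ≠ 0) → (W 0 v = v' ∨ W 1 v = v' ∨ W 2 v = v') := by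
  decide

theorem tr_aux (v v' : ZMod 4 × ZMod 4) (h1 : v + v = 0) (h2 : v' + v' = 0) (h3 : v ≠ 0) (h4 : v' ≠ 0) :
    ∃ k : ZMod 3, W k v = v' := by
  rcases tr_aux' v v' ⟨h1, h2, h3, h4⟩ with h | h | h
  exacts [⟨_, h⟩, ⟨_, h⟩, ⟨_, h⟩]

theorem fix_aux : ∀ v : ZMod 4 × ZMod 4, v + v = 0 → W 1 v = v → v = 0 := by
  decide

/-- an even involution has two disjoint 2-cycles -/
theorem two_cycles (σ : Equiv.Perm (Fin 33)) (hσ : σ ∈ alternatingGroup (Fin 33)) (h1 : σ ≠ 1)
    (h2 : σ ^ 2 = 1) : ∃ a c : Fin 33, σ a ≠ a ∧ σ c ≠ c ∧ c ≠ a ∧ c ≠ σ a := by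
  have hinv : ∀ x, σ (σ x) = x := by
    intro x
    have := congrArg (fun τ : Equiv.Perm (Fin 33) => τ x) h2
    simpa [pow_two] using this
  obtain ⟨a, ha⟩ : ∃ a, σ a ≠ a := by
    by_contra hcon
    push Not at hcon
    exact h1 (Equiv.ext hcon)
  by_cases hτ : σ * Equiv.swap a (σ a) = 1
  · exfalso
    have hs := Equiv.Perm.mem_alternatingGroup.1 hσ
    have h3 := congrArg Equiv.Perm.sign hτ
    rw [map_mul, hs, Equiv.Perm.sign_swap (Ne.symm ha), map_one] at h3
    revert h3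
    decide
  · obtain ⟨c, hc⟩ : ∃ c, (σ * Equiv.swap a (σ a)) c ≠ c := by
      by_contra hcon
      push Not at hcon
      exact hτ (Equiv.ext hcon)
    have hca : c ≠ a := by
      rintro rfl
      apply hc
      simp [hinv]
    have hcs : c ≠ σ a := by
      rintro rfl
      apply hc
      simp
    refine ⟨a, c, ha, ?_, hca, hcs⟩
    intro h
    apply hc
    rw [Equiv.Perm.mul_apply, Equiv.swap_apply_of_ne_of_ne hca hcs, h]

/-- the number of a point -/
def num (x : ZMod 2 × ZMod 2) : ℕ := (x.1.val + 2 * x.2.val)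

theorem num_lt : ∀ x : ZMod 2 × ZMod 2, num x < 4 := by decide
theorem num_inj : ∀ x y : ZMod 2 × ZMod 2, num x = num y → x = y := by decide

/-- the four templates -/
def tmpl (k : ℕ) (hk : k ≤ 3) : (ZMod 2 × ZMod 2) ↪ Fin 33 where
  toFun x := ⟨4 * k + num x, by have := num_lt x; omega⟩
  inj' := by
    intro x y h
    rw [Fin.mk.injEq] at h
    exact num_inj x y (by omega)

theorem tmpl_ne (k k' : ℕ) (hk : k ≤ 3) (hk' : k' ≤ 3) (h : k ≠ k') (x y : ZMod 2 × ZMod 2) :
    tmpl k hk x ≠ tmpl k' hk' y := by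
  intro e
  have e' : 4 * k + num x = 4 * k' + num y := congrArg Fin.val e
  have := num_lt x
  have := num_lt y
  omega

end L2

open L2 in
theorem exists_loc_two : Nonempty (Loc 2) := by
  refine ⟨{
    X := ZMod 2 × ZMod 2
    B := B2
    M := M
    normal := ?_
    abel := ?_
    ker := ?_
    expo := ?_
    tr := ?_
    c₀ := ⟨1, 0⟩
    c₀_fix := ?_
    c₀_comm := ?_
    t := ⟨0, (1, 0)⟩
    t_comm := ?_
    t_pow := ?_
    t_pow_mem := ?_
    card_X := ?_
    nonempty := ⟨0⟩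
    card_M := ?_
    emb := ?_
    small := ?_
    bt := tmpl 0 (by norm_num)
    tt := fun k => tmpl (k.val + 1) (by omega)
    bt_tt := ?_
    tt_tt := ?_ }⟩
  · rintro b m ⟨h1, h2⟩
    rw [conj_eq b m h1]
    exact ⟨rfl, W_dbl _ _ h2⟩
  · rintro m ⟨h1, h2⟩ m' ⟨h1', h2'⟩
    apply B2.ext
    · simp [h1, h1']
    · simp only [mul_v, h1, h1', W_zero, add_comm]
  · intro b
    exact ker_aux b.k b.v
  · rintro m ⟨h1, h2⟩
    rw [pow_two]
    apply B2.ext
    · simp [h1]
    · simp only [mul_v, h1, W_zero, h2, one_v]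
  · rintro m ⟨h1, h2⟩ m' ⟨h1', h2'⟩ hm hm'
    obtain ⟨k, hk⟩ := tr_aux m.v m'.v h2 h2' (fun e => hm (B2.ext h1 e)) (fun e => hm' (B2.ext h1' e))
    refine ⟨⟨k, 0⟩, ?_⟩
    rw [conj_eq _ m h1]
    apply B2.ext
    · exact h1'.symm
    · exact hk
  · rintro m ⟨h1, h2⟩ h
    rw [conj_eq _ m h1] at h
    exact B2.ext h1 (fix_aux m.v h2 (congrArg B2.v h))
  · rintro b m ⟨h1, h2⟩
    rw [conj_eq _ m h1, conj_eq _ m h1, mul_k, mul_k, add_comm]
  · rintro m ⟨h1, h2⟩
    apply B2.ext
    · simp [h1]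
    · simp only [mul_v, h1, W_zero, add_comm]
  · intro h
    have := congrArg B2.v h
    rw [pow_two, mul_v, one_v, W_zero] at this
    revert this
    decide
  · refine ⟨?_, ?_⟩
    · rfl
    · decide
  · decide
  · have : Nat.card M ≤ 16 := by
      have hinj : Function.Injective (fun m : M => m.1.v) := by
        rintro ⟨m, h1, h2⟩ ⟨m', h1', h2'⟩ e
        apply Subtype.ext
        exact B2.ext (h1.trans h1'.symm) e
      have := Nat.card_le_card_of_injective _ hinj
      have h16 : Nat.card (ZMod 4 × ZMod 4) = 16 := by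
        rw [Nat.card_eq_fintype_card]; decide
      omega
    omega
  · intro σ hσ h1 h2
    obtain ⟨a, c, ha, hc, hca, hcs⟩ := two_cycles σ hσ h1 h2
    have hinv : ∀ x, σ (σ x) = x := by
      intro x
      have := congrArg (fun τ : Equiv.Perm (Fin 33) => τ x) h2
      simpa [pow_two] using this
    have hcs' : σ c ≠ a := fun e => hcs (by rw [← e, hinv])
    have hss : σ c ≠ σ a := fun e => hca (σ.injective e)
    let f : ZMod 2 × ZMod 2 → Fin 33 := fun x =>
      if x.2 = 0 then (if x.1 = 0 then a else σ a) else (if x.1 = 0 then c else σ c)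
    have two : ∀ z : ZMod 2, z = 0 ∨ z = 1 := by decide
    have h10 : (1 : ZMod 2) ≠ 0 := by decide
    have hf : Function.Injective f := by
      rintro ⟨x1, x2⟩ ⟨y1, y2⟩ e
      rcases two x1 with rfl | rfl <;> rcases two x2 with rfl | rfl <;>
        rcases two y1 with rfl | rfl <;> rcases two y2 with rfl | rfl <;>
        simp only [f, h10, if_true, if_false] at e <;>
        first
          | rfl
          | exact absurd e ha
          | exact absurd e.symm ha
          | exact absurd e hc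
          | exact absurd e.symm hc
          | exact absurd e hca
          | exact absurd e.symm hca
          | exact absurd e hcs
          | exact absurd e.symm hcs
          | exact absurd e hcs'
          | exact absurd e.symm hcs'
          | exact absurd e hss
          | exact absurd e.symm hss
    refine ⟨⟨f, hf⟩, ?_⟩
    rintro ⟨x1, x2⟩
    have e : (⟨0, (1, 0)⟩ : B2) • ((x1, x2) : ZMod 2 × ZMod 2) = (1 + x1, x2) := by
      rw [smul_def, W_zero]
      have : red ((1, 0) : ZMod 4 × ZMod 4) = (1, 0) := by decide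
      change red ((1, 0) : ZMod 4 × ZMod 4) + (x1, x2) = _
      rw [this]
      simp
    rw [e]
    have h11 : (1 + 1 : ZMod 2) = 0 := by decide
    change f (1 + x1, x2) = σ (f (x1, x2))
    rcases two x1 with rfl | rfl <;> rcases two x2 with rfl | rfl <;>
      simp [f, hinv, h11]
  · intro _; decide
  · intro _ k x y
    exact tmpl_ne _ _ _ _ (by omega) x y
  · intro _ k k' x y h
    exact tmpl_ne _ _ _ _ (fun e => h (Fin.ext (by omega))) x y

end Poly
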