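import Pool.Agent.Poly.Obj

set_option autoImplicit false

namespace Poly

/-- the affine maps `x ↦ u x + a` of `ZMod (r ^ 2)` with `u ^ (r - 1) = 1` -/
@[ext] structure AffB (r : ℕ) where
  u : (ZMod (r ^ 2))ˣ
  a : ZMod (r ^ 2)
  hu : u ^ (r - 1) = 1

namespace AffB

variable {r : ℕ}

instance : Mul (AffB r) := ⟨fun g h => ⟨g.u * h.u, g.u * h.a + g.a, by rw [mul_pow, g.hu, h.hu, one_mul]⟩⟩
instance : One (AffB r) := ⟨⟨1, 0, one_pow _⟩⟩
instance : Inv (AffB r) := ⟨fun g => ⟨g.u⁻¹, -((g.u⁻¹ : (ZMod (r ^ 2))ˣ) * g.a), by rw [inv_pow, g.hu, inv_one]⟩⟩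

@[simp] theorem mul_u (g h : AffB r) : (g * h).u = g.u * h.u := rfl
@[simp] theorem mul_a (g h : AffB r) : (g * h).a = g.u * h.a + g.a := rfl
@[simp] theorem one_u : (1 : AffB r).u = 1 := rfl
@[simp] theorem one_a : (1 : AffB r).a = 0 := rfl
@[simp] theorem inv_u (g : AffB r) : (g⁻¹).u = g.u⁻¹ := rfl
@[simp] theorem inv_a (g : AffB r) : (g⁻¹).a = -((g.u⁻¹ : (ZMod (r ^ 2))ˣ) * g.a) := rfl

instance : Group (AffB r) := Group.ofLeftAxioms
  (fun a b c => by
    ext1
    · simp [mul_assoc]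
    · simp only [mul_a, mul_u, Units.val_mul]
      ring)
  (fun a => by ext1 <;> simp)
  (fun a => by ext1 <;> simp)

theorem finite_AffB (hr : r ≠ 0) : Finite (AffB r) := by
  have : NeZero (r ^ 2) := ⟨pow_ne_zero 2 hr⟩
  refine Finite.of_injective (β := (ZMod (r ^ 2))ˣ × ZMod (r ^ 2)) (fun g => (g.u, g.a)) ?_
  rintro ⟨u, a, h⟩ ⟨u', a', h'⟩ e
  simp only [Prod.mk.injEq] at e
  ext1
  · exact e.1
  · exact e.2

/-- reduction modulo `r` -/
def red (r : ℕ) : ZMod (r ^ 2) →+* ZMod r := ZMod.castHom (dvd_pow_self r (by norm_num)) (ZMod r)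

instance actX : MulAction (AffB r) (ZMod r) where
  smul g x := red r g.u * x + red r g.a
  one_smul x := by
    change red r ((1 : (ZMod (r ^ 2))ˣ) : ZMod (r ^ 2)) * x + red r 0 = x
    simp
  mul_smul g h x := by
    change red r ((g.u * h.u : (ZMod (r ^ 2))ˣ) : ZMod (r ^ 2)) * x + red r (g.u * h.a + g.a) =
      red r g.u * (red r h.u * x + red r h.a) + red r g.a
    rw [Units.val_mul, map_mul, map_add, map_mul]
    ring

theorem smul_def (g : AffB r) (x : ZMod r) : g • x = red r g.u * x + red r g.a := rfl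

/-- the translations by multiples of `r` -/
def MM (r : ℕ) : Subgroup (AffB r) where
  carrier := {g | g.u = 1 ∧ red r g.a = 0}
  mul_mem' := by
    rintro g h ⟨h1, h2⟩ ⟨h3, h4⟩
    refine ⟨by simp [h1, h3], ?_⟩
    rw [mul_a, map_add, map_mul, h2, h4]
    simp
  one_mem' := ⟨rfl, by simp⟩
  inv_mem' := by
    rintro g ⟨h1, h2⟩
    refine ⟨by simp [h1], ?_⟩
    rw [inv_a, map_neg, map_mul, h2]
    simp

theorem mem_MM (g : AffB r) : g ∈ MM r ↔ g.u = 1 ∧ red r g.a = 0 := Iff.rfl

/-- conjugation of a translation -/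
theorem conj_eq (g m : AffB r) (hm : m.u = 1) :
    (g * m * g⁻¹).u = 1 ∧ (g * m * g⁻¹).a = g.u * m.a := by
  constructor
  · simp [hm]
  · simp only [mul_a, mul_u, hm, mul_one, inv_a]
    have h1 : (g.u : ZMod (r ^ 2)) * ((g.u⁻¹ : (ZMod (r ^ 2))ˣ) : ZMod (r ^ 2)) = 1 := Units.mul_inv _
    linear_combination (-g.a) * h1

theorem dvd_of_red {r : ℕ} (hr : r ≠ 0) {x : ZMod (r ^ 2)} (h : red r x = 0) :
    ∃ k < r, x = (r : ZMod (r ^ 2)) * (k : ZMod (r ^ 2)) := by
  have hne : NeZero (r ^ 2) := ⟨pow_ne_zero 2 hr⟩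
  have hx : ((x.val : ℕ) : ZMod (r ^ 2)) = x := ZMod.natCast_zmod_val x
  rw [← hx, map_natCast, ZMod.natCast_eq_zero_iff] at h
  obtain ⟨k, hk⟩ := h
  refine ⟨k, ?_, ?_⟩
  · have h1 := ZMod.val_lt x
    rw [hk, sq] at h1
    exact lt_of_mul_lt_mul_left h1 (Nat.zero_le r)
  · rw [← hx, hk]
    push_cast
    ring

theorem r_sq (r : ℕ) : (r : ZMod (r ^ 2)) * (r : ZMod (r ^ 2)) = 0 := by
  have : ((r ^ 2 : ℕ) : ZMod (r ^ 2)) = 0 := ZMod.natCast_self _
  rw [← Nat.cast_mul, ← sq]
  exact this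

theorem pow_eq_of_red {r : ℕ} (hr : r ≠ 0) {x y : ZMod (r ^ 2)} (h : red r x = red r y) : x ^ r = y ^ r := by
  have h1 : red r (x - y) = 0 := by rw [map_sub, h, sub_self]
  obtain ⟨k, _, hk⟩ := dvd_of_red hr h1
  have h2 : (r : ZMod (r ^ 2)) ∣ x - y := ⟨k, hk⟩
  have h3 := dvd_sub_pow_of_dvd_sub h2 1
  rw [pow_one] at h3
  have h4 : (r : ZMod (r ^ 2)) ^ (1 + 1) = 0 :=
    (pow_two (r : ZMod (r ^ 2))).trans (r_sq r)
  rw [h4, zero_dvd_iff] at h3
  exact sub_eq_zero.1 h3

theorem unit_eq_one {r : ℕ} (hr : 1 ≤ r) {u : (ZMod (r ^ 2))ˣ} (hu : u ^ (r - 1) = 1)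
    (h : red r (u : ZMod (r ^ 2)) = 1) : u = 1 := by
  have h1 : (u : ZMod (r ^ 2)) ^ r = 1 ^ r := pow_eq_of_red (by omega) (by rw [h, map_one])
  have h2 : u ^ r = 1 := by
    ext
    rw [Units.val_pow_eq_pow_val, h1, one_pow, Units.val_one]
  have h3 : u ^ r = u ^ (r - 1) * u := by
    rw [← pow_succ]
    congr 1
    omega
  rw [h3, hu, one_mul] at h2
  exact h2

theorem pow_a (k : ℕ) (g : AffB r) (hg : g.u = 1) : (g ^ k).u = 1 ∧ (g ^ k).a = k * g.a := by
  induction k with
  | zero => simp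
  | succ k ih =>
    have hs : g ^ (k + 1) = g ^ k * g := pow_succ g k
    rw [hs]
    refine ⟨by simp [ih.1, hg], ?_⟩
    rw [mul_a, ih.1, ih.2]
    push_cast
    ring

end AffB

open AffB in
theorem exists_loc_odd (r : ℕ) (hr : r.Prime) (h2 : r ≠ 2) (h : r ≤ 33) : Nonempty (Loc r) := by
  have hrF : Fact r.Prime := ⟨hr⟩
  have hr0 : r ≠ 0 := hr.ne_zero
  have hr3 : 3 ≤ r := by
    have := hr.two_le
    omega
  have hodd : Odd r := hr.odd_of_ne_two h2
  have h31 : r ≤ 31 := by
    by_contra hlt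
    have h32 : r = 32 ∨ r = 33 := by omega
    rcases h32 with rfl | rfl <;> revert hr <;> norm_num
  have hne : NeZero r := ⟨hr0⟩
  have hne2 : NeZero (r ^ 2) := ⟨pow_ne_zero 2 hr0⟩
  have hinj : ∀ k : ℕ, (r : ZMod (r ^ 2)) * (k : ZMod (r ^ 2)) = 0 ↔ r ∣ k := by
    intro k
    rw [← Nat.cast_mul, ZMod.natCast_eq_zero_iff, sq]
    exact Nat.mul_dvd_mul_iff_left (Nat.pos_of_ne_zero hr0)
  have hfin : Finite (AffB r) := finite_AffB hr0
  -- the templates
  have hb : ∃ (f : ZMod r → Fin 33) (g : Fin 3 → ZMod r → Fin 33), Function.Injective f ∧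
      (∀ k, Function.Injective (g k)) ∧
      (r ≤ 5 → ∀ k x y, f x ≠ g k y) ∧ (r ≤ 5 → ∀ k k' x y, k ≠ k' → g k x ≠ g k' y) := by
    have hlt : ∀ x : ZMod r, x.val < r := fun x => ZMod.val_lt x
    have hf : ∀ hx : ∀ x : ZMod r, x.val < 33, Function.Injective (fun x : ZMod r => (⟨x.val, hx x⟩ : Fin 33)) := by
      intro hx x y hxy
      exact ZMod.val_injective r (congrArg Fin.val hxy)
    have hx : ∀ x : ZMod r, x.val < 33 := fun x => by have := hlt x; omega
    by_cases h5 : r ≤ 5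
    · refine ⟨fun x => ⟨x.val, hx x⟩,
        fun k x => ⟨5 * (k.val + 1) + x.val, by have := hlt x; have := k.2; omega⟩, hf hx, ?_, ?_, ?_⟩
      · intro k x y hxy
        have h6 : 5 * (k.val + 1) + x.val = 5 * (k.val + 1) + y.val := congrArg Fin.val hxy
        exact ZMod.val_injective r (by omega)
      · intro _ k x y hxy
        have h6 : x.val = 5 * (k.val + 1) + y.val := congrArg Fin.val hxy
        have := hlt x
        omega
      · intro _ k k' x y hkk hxy
        have h6 : 5 * (k.val + 1) + x.val = 5 * (k'.val + 1) + y.val := congrArg Fin.val hxy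
        have h1 := hlt x
        have h2 := hlt y
        apply hkk
        ext
        omega
    · exact ⟨fun x => ⟨x.val, hx x⟩, fun _ x => ⟨x.val, hx x⟩,
        hf hx, fun _ => hf hx, fun h => absurd h h5, fun h => absurd h h5⟩
  obtain ⟨bt, tt, hbi, hti, hbt, htt⟩ := hb
  exact ⟨{
    X := ZMod r
    B := AffB r
    M := MM r
    normal := by
      rintro b m ⟨h1, h2⟩
      obtain ⟨h3, h4⟩ := conj_eq b m h1
      refine ⟨h3, ?_⟩
      rw [h4, map_mul, h2, mul_zero]
    abel := by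
      rintro m ⟨h1, _⟩ m' ⟨h1', _⟩
      ext1
      · simp [h1, h1']
      · simp [h1, h1', add_comm]
    ker := by
      intro b
      constructor
      · rintro ⟨h1, h2⟩ x
        rw [smul_def, h1, h2]
        simp
      · intro hx
        have h0 := hx 0
        have h1 := hx 1
        rw [smul_def, mul_zero, zero_add] at h0
        rw [smul_def, h0, add_zero, mul_one] at h1
        exact ⟨unit_eq_one hr.one_le b.hu h1, h0⟩
    expo := by
      rintro m ⟨h1, h2⟩
      obtain ⟨h3, h4⟩ := pow_a r m h1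
      obtain ⟨k, _, hk⟩ := dvd_of_red hr0 h2
      ext1
      · exact h3
      · rw [h4, hk, ← mul_assoc, r_sq, zero_mul]
        rfl
    tr := by
      rintro m ⟨h1, h2⟩ m' ⟨h1', h2'⟩ hm hm'
      obtain ⟨k, hkr, hk⟩ := dvd_of_red hr0 h2
      obtain ⟨k', hkr', hk'⟩ := dvd_of_red hr0 h2'
      have hk0 : ¬ r ∣ k := by
        intro hd
        apply hm
        ext1
        · exact h1
        · rw [hk]
          exact (hinj k).2 hd
      have hk0' : ¬ r ∣ k' := by
        intro hd
        apply hm'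
        ext1
        · exact h1'
        · rw [hk']
          exact (hinj k').2 hd
      have hc : k.Coprime (r ^ 2) := ((Nat.Prime.coprime_iff_not_dvd hr).2 hk0).symm.pow_right 2
      have hc' : k'.Coprime (r ^ 2) := ((Nat.Prime.coprime_iff_not_dvd hr).2 hk0').symm.pow_right 2
      set v : (ZMod (r ^ 2))ˣ := ZMod.unitOfCoprime k' hc' * (ZMod.unitOfCoprime k hc)⁻¹ with hv
      have hvr : (v ^ r) ^ (r - 1) = 1 := by
        rw [← pow_mul]
        have h3 := ZMod.pow_totient v
        rw [Nat.totient_prime_pow hr (by norm_num)] at h3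
        simpa using h3
      refine ⟨⟨v ^ r, 0, hvr⟩, ?_⟩
      obtain ⟨h3, h4⟩ := conj_eq (⟨v ^ r, 0, hvr⟩ : AffB r) m h1
      ext1
      · rw [h3, h1']
      · rw [h4, hk, hk']
        simp only [Units.val_pow_eq_pow_val]
        -- `v ^ r k ≡ v k = k'` modulo `r`
        have h5 : red r ((v : ZMod (r ^ 2)) ^ r * k - k') = 0 := by
          rw [map_sub, map_mul, map_pow, ZMod.pow_card, ← map_mul, ← map_sub]
          have h6 : (v : ZMod (r ^ 2)) * k = k' := by
            have h7 : ((ZMod.unitOfCoprime k hc : (ZMod (r ^ 2))ˣ) : ZMod (r ^ 2)) = k :=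
              ZMod.coe_unitOfCoprime k hc
            have h8 : ((ZMod.unitOfCoprime k' hc' : (ZMod (r ^ 2))ˣ) : ZMod (r ^ 2)) = k' :=
              ZMod.coe_unitOfCoprime k' hc'
            rw [hv, Units.val_mul, h8, mul_assoc, ← h7, Units.inv_mul, mul_one]
          rw [h6, sub_self, map_zero]
        obtain ⟨j, _, hj⟩ := dvd_of_red hr0 h5
        have h9 : (v : ZMod (r ^ 2)) ^ r * k = k' + r * j := by rw [← hj]; ring
        calc (v : ZMod (r ^ 2)) ^ r * ((r : ZMod (r ^ 2)) * k) = r * ((v : ZMod (r ^ 2)) ^ r * k) := by ring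
          _ = r * k' + (r * r) * j := by rw [h9]; ring
          _ = r * k' := by rw [r_sq, zero_mul, add_zero]
    c₀ := ⟨-1, 0, by
      have h3 : Even (r - 1) := Nat.Odd.sub_odd hodd odd_one
      exact h3.neg_one_pow⟩
    c₀_fix := by
      rintro m ⟨h1, h2⟩ hm
      obtain ⟨h3, h4⟩ := conj_eq (⟨-1, 0, by
        have h3 : Even (r - 1) := Nat.Odd.sub_odd hodd odd_one
        exact h3.neg_one_pow⟩ : AffB r) m h1
      rw [hm] at h4
      obtain ⟨k, _, hk⟩ := dvd_of_red hr0 h2
      have h5 : (r : ZMod (r ^ 2)) * ((2 * k : ℕ) : ZMod (r ^ 2)) = 0 := by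
        simp only [Units.val_neg, Units.val_one, neg_mul, one_mul] at h4
        rw [hk] at h4
        push_cast
        linear_combination h4
      rw [hinj] at h5
      have h6 : r ∣ k := by
        rcases (Nat.Prime.dvd_mul hr).1 h5 with h7 | h7
        · have := Nat.le_of_dvd (by norm_num) h7
          omega
        · exact h7
      ext1
      · exact h1
      · rw [hk]
        exact (hinj k).2 h6
    c₀_comm := by
      rintro b m ⟨h1, _⟩
      obtain ⟨h3, h4⟩ := conj_eq ((⟨-1, 0, by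
        have h3 : Even (r - 1) := Nat.Odd.sub_odd hodd odd_one
        exact h3.neg_one_pow⟩ : AffB r) * b) m h1
      obtain ⟨h5, h6⟩ := conj_eq (b * (⟨-1, 0, by
        have h3 : Even (r - 1) := Nat.Odd.sub_odd hodd odd_one
        exact h3.neg_one_pow⟩ : AffB r)) m h1
      ext1
      · rw [h3, h5]
      · rw [h4, h6]
        simp
    t := ⟨1, 1, one_pow _⟩
    t_comm := by
      rintro m ⟨h1, _⟩
      ext1
      · simp [h1]
      · simp [h1, add_comm]
    t_pow := by
      intro ht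
      obtain ⟨_, h4⟩ := pow_a r (⟨1, 1, one_pow _⟩ : AffB r) rfl
      rw [ht] at h4
      have h5 : (r : ZMod (r ^ 2)) * ((1 : ℕ) : ZMod (r ^ 2)) = 0 := by
        push_cast
        exact h4.symm
      rw [hinj] at h5
      have := Nat.le_of_dvd (by norm_num) h5
      omega
    t_pow_mem := by
      obtain ⟨h3, h4⟩ := pow_a r (⟨1, 1, one_pow _⟩ : AffB r) rfl
      refine ⟨h3, ?_⟩
      rw [h4, map_mul, map_natCast]
      simp
    card_X := by
      rw [ZMod.card]
      exact h31
    nonempty := ⟨0⟩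
    card_M := by
      have h3 : Function.Surjective (fun k : Fin r => (⟨⟨1, (r : ZMod (r ^ 2)) * ((k.val : ℕ) : ZMod (r ^ 2)), one_pow _⟩, by
          refine ⟨rfl, ?_⟩
          rw [map_mul, map_natCast]
          simp⟩ : MM r)) := by
        rintro ⟨m, h1, h2⟩
        obtain ⟨k, hkr, hk⟩ := dvd_of_red hr0 h2
        refine ⟨⟨k, hkr⟩, ?_⟩
        apply Subtype.ext
        ext1
        · exact h1.symm
        · exact hk.symm
      have h4 := Nat.card_le_card_of_surjective _ h3
      have h5 : Nat.card (Fin r) = r := by simp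
      rw [h5] at h4
      exact h4.trans h31
    emb := by
      intro σ _ hσ hσr
      obtain ⟨a, ha⟩ : ∃ a, σ a ≠ a := by
        by_contra hcon
        push Not at hcon
        exact hσ (Equiv.ext hcon)
      have hper : Function.IsPeriodicPt σ r a := by
        have h3 : (σ ^ r) a = a := by rw [hσr]; rfl
        rwa [← Equiv.Perm.iterate_eq_pow] at h3
      have hmin : Function.minimalPeriod σ a = r := by
        rcases (Nat.dvd_prime hr).1 hper.minimalPeriod_dvd with h3 | h3
        · exfalso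
          exact ha (Function.minimalPeriod_eq_one_iff_isFixedPt.1 h3)
        · exact h3
      refine ⟨⟨fun x => σ^[x.val] a, ?_⟩, ?_⟩
      · intro x y hxy
        apply ZMod.val_injective r
        apply Function.iterate_injOn_Iio_minimalPeriod (f := σ) (x := a)
        · rw [hmin]
          exact ZMod.val_lt x
        · rw [hmin]
          exact ZMod.val_lt y
        · exact hxy
      · intro x
        change σ^[((⟨1, 1, one_pow _⟩ : AffB r) • x).val] a = σ (σ^[x.val] a)
        have h3 : (⟨1, 1, one_pow _⟩ : AffB r) • x = x + 1 := by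
          rw [smul_def]
          simp
        rw [h3, ZMod.val_add]
        have h4 : (x.val + (1 : ZMod r).val) % r = (x.val + 1) % r := by
          rw [ZMod.val_one'' (by omega)]
        rw [h4]
        have h5 := Function.iterate_mod_minimalPeriod_eq (f := σ) (x := a) (n := x.val + 1)
        rw [hmin] at h5
        rw [h5, Function.iterate_succ_apply']
    small := by
      intro h5
      rw [ZMod.card]
      exact h5
    bt := ⟨bt, hbi⟩
    tt := fun k => ⟨tt k, hti k⟩
    bt_tt := hbt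
    tt_tt := htt }⟩

end Poly
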