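import Pool.Agent.Poly.Obj

set_option autoImplicit false

namespace Poly

/-! ### module TOP -/

instance finite_TObj {X : Type} [Finite X] {r : ℕ} : Finite (TObj X r) := by
  refine Finite.of_injective (β := Fin 6 → Option (X ↪ Fin 33)) (fun a => a.α) ?_
  intro a b e
  ext1
  exact e

theorem top_comm {r : ℕ} (L : Loc r) (h : HH) (b : L.B) (α : TObj L.X r) : h • b • α = b • h • α := by
  ext1
  funext j
  rw [HH_smul_T, B_smul_T, B_smul_T, HH_smul_T, Option.map_map, Option.map_map]
  congr 1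

/-- a nonempty top object has a fibre -/
theorem top_exists {X : Type} {r : ℕ} (hr : 1 ≤ r) (α : TObj X r) : ∃ (i : Fin 6) (f : X ↪ Fin 33), α.α i = some f := by
  have h : (Finset.univ.filter fun i => (α.α i).isSome = true).Nonempty := by
    rw [← Finset.card_pos, α.card]
    exact hr
  obtain ⟨i, hi⟩ := h
  rw [Finset.mem_filter] at hi
  obtain ⟨f, hf⟩ := Option.isSome_iff_exists.1 hi.2
  exact ⟨i, f, hf⟩

theorem pre_eq_of_mem {r : ℕ} (L : Loc r) (b : L.B) (hb : b ∈ L.M) (f : L.X ↪ Fin 33) : pre b f = f := by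
  ext x
  rw [pre_apply, (L.ker _).1 (L.M.inv_mem hb) x]

theorem mem_of_pre_eq {r : ℕ} (L : Loc r) (b : L.B) (f : L.X ↪ Fin 33) (h : pre b f = f) : b ∈ L.M := by
  rw [← inv_mem_iff]
  refine (L.ker _).2 fun x => ?_
  have := DFunLike.congr_fun h x
  rw [pre_apply] at this
  exact f.injective this

theorem top_stab {r : ℕ} (L : Loc r) (hr : 1 ≤ r) (b : L.B) (α : TObj L.X r) : b • α = α ↔ b ∈ L.M := by
  constructor
  · intro h
    obtain ⟨i, f, hf⟩ := top_exists hr α
    have h1 : (b • α).α i = α.α i := by rw [h]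
    rw [B_smul_T, hf, Option.map_some] at h1
    exact mem_of_pre_eq L b f (Option.some.inj h1)
  · intro h
    ext1
    funext j
    rw [B_smul_T]
    have e : pre (X := L.X) b = id := by
      funext f
      exact pre_eq_of_mem L b h f
    rw [e, Option.map_id, id]

theorem tperp_symm {X : Type} {r : ℕ} (α β : TObj X r) (h : tperp α β) : tperp β α :=
  ⟨fun i => (h.1 i).symm, fun i f f' hf hf' x y e => h.2 i f' f hf' hf y x e.symm⟩

theorem tperp_H {X : Type} {r : ℕ} (h : HH) (α β : TObj X r) (e : tperp α β) : tperp (h • α) (h • β) := by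
  refine ⟨fun i => ?_, fun i f f' hf hf' x y => ?_⟩
  · rw [HH_smul_T, HH_smul_T, Option.isSome_map, Option.isSome_map]
    exact e.1 _
  · rw [HH_smul_T, Option.map_eq_some_iff] at hf hf'
    obtain ⟨g, hg, rfl⟩ := hf
    obtain ⟨g', hg', rfl⟩ := hf'
    rw [lab_apply, lab_apply]
    intro e1
    exact e.2 _ g g' hg hg' x y (Equiv.injective _ e1)

theorem tperp_B {r : ℕ} (L : Loc r) (b : L.B) (α β : TObj L.X r) (e : tperp α β) : tperp (b • α) β := by
  refine ⟨fun i => ?_, fun i f f' hf hf' x y => ?_⟩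
  · rw [B_smul_T, Option.isSome_map]
    exact e.1 _
  · rw [B_smul_T, Option.map_eq_some_iff] at hf
    obtain ⟨g, hg, rfl⟩ := hf
    rw [pre_apply]
    exact e.2 _ g f' hg hf' _ y

theorem tperp_ne {r : ℕ} (L : Loc r) (hr : 1 ≤ r) (b : L.B) (α β : TObj L.X r) (e : tperp α β) : b • α ≠ β := by
  rintro rfl
  obtain ⟨i, f, hf⟩ := top_exists hr α
  obtain ⟨x⟩ := L.nonempty
  refine e.2 i f (pre b f) hf (by rw [B_smul_T, hf, Option.map_some]) (b⁻¹ • x) x ?_
  rw [pre_apply]

theorem tperp_tconst {r : ℕ} (L : Loc r) (hr : r ≤ 5) (i j : Fin 3) (h : i ≠ j) :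
    tperp (tconst r (hr.trans (by norm_num)) (L.tt i)) (tconst r (hr.trans (by norm_num)) (L.tt j)) := by
  refine ⟨fun k => ?_, fun k f f' hf hf' x y => ?_⟩
  · simp only [tconst]
    split_ifs <;> simp
  · simp only [tconst] at hf hf'
    split_ifs at hf hf' with hk
    cases Option.some.inj hf
    cases Option.some.inj hf'
    exact L.tt_tt hr i j x y h

end Poly
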