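import Pool.Agent.Poly.Alt

set_option autoImplicit false

namespace Poly

/-- the labels used by an optional injection -/
def top2Im {X : Type} [Fintype X] : Option (X ↪ Fin 33) → Finset (Fin 33)
  | none => ∅
  | some f => Finset.univ.map f

theorem top2_card {X : Type} [Fintype X] (o : Option (X ↪ Fin 33)) : (top2Im o).card ≤ Fintype.card X := by
  cases o with
  | none => simp [top2Im]
  | some f => simp [top2Im]

theorem top2_avoid {X : Type} [Fintype X] (hX : Fintype.card X ≤ 5) (S : Finset (Fin 33)) (hS : S.card ≤ 15) :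
    ∃ g : X ↪ Fin 33, ∀ x, g x ∉ S := by
  have h1 : Fintype.card X ≤ Fintype.card {a : Fin 33 // a ∉ S} := by
    rw [Fintype.card_subtype_compl]
    simp only [Fintype.card_fin, Fintype.card_coe]
    omega
  obtain ⟨g⟩ := Function.Embedding.nonempty_of_card_le h1
  exact ⟨g.trans (Function.Embedding.subtype _), fun x => (g x).2⟩

theorem top2_three {X : Type} [Fintype X] (hX : Fintype.card X ≤ 5) {r : ℕ} (α β β' : TObj X r)
    (h : ∀ i, (α.α i).isSome = (β.α i).isSome) (h' : ∀ i, (α.α i).isSome = (β'.α i).isSome) :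
    ∃ γ, tperp α γ ∧ tperp β γ ∧ tperp β' γ := by
  have hex : ∀ i : Fin 6, ∃ g : X ↪ Fin 33, ∀ x, g x ∉ top2Im (α.α i) ∪ top2Im (β.α i) ∪ top2Im (β'.α i) := by
    intro i
    apply top2_avoid hX
    have h1 := top2_card (α.α i)
    have h2 := top2_card (β.α i)
    have h3 := top2_card (β'.α i)
    have h4 := Finset.card_union_le (top2Im (α.α i) ∪ top2Im (β.α i)) (top2Im (β'.α i))
    have h5 := Finset.card_union_le (top2Im (α.α i)) (top2Im (β.α i))
    omega
  choose g hg using hex
  let a : Fin 6 → Option (X ↪ Fin 33) := fun i => if (α.α i).isSome = true then some (g i) else none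
  have hsome : ∀ i, (a i).isSome = (α.α i).isSome := by
    intro i
    change (if (α.α i).isSome = true then some (g i) else none).isSome = _
    by_cases e : (α.α i).isSome = true
    · rw [if_pos e, e]; rfl
    · rw [if_neg e]; simp only [Bool.not_eq_true] at e; rw [e]; rfl
  have hval : ∀ i f, a i = some f → f = g i := by
    intro i f e
    change (if (α.α i).isSome = true then some (g i) else none) = some f at e
    by_cases e' : (α.α i).isSome = true
    · rw [if_pos e'] at e; exact (Option.some.inj e).symm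
    · rw [if_neg e'] at e; exact absurd e (by simp)
  refine ⟨⟨a, ?_⟩, ⟨?_, ?_⟩, ⟨?_, ?_⟩, ⟨?_, ?_⟩⟩
  · simp only [hsome]
    exact α.card
  · intro i; exact (hsome i).symm
  · intro i f f' e e' x y hxy
    rw [hval i f' e'] at hxy
    apply hg i y
    rw [e, ← hxy]
    simp [top2Im]
  · intro i; exact (h i).symm.trans (hsome i).symm
  · intro i f f' e e' x y hxy
    rw [hval i f' e'] at hxy
    apply hg i y
    rw [e, ← hxy]
    simp [top2Im]
  · intro i; exact (h' i).symm.trans (hsome i).symm
  · intro i f f' e e' x y hxy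
    rw [hval i f' e'] at hxy
    apply hg i y
    rw [e, ← hxy]
    simp [top2Im]

/-- an object with labels disjoint from three given ones -/
theorem tperp_ex {r : ℕ} (L : Loc r) (hr : r ≤ 5) (α : TObj L.X r) : ∃ β, tperp α β := by
  obtain ⟨γ, h, _⟩ := top2_three (L.small hr) α α α (fun _ => rfl) (fun _ => rfl)
  exact ⟨γ, h⟩

theorem tperp2 {r : ℕ} (L : Loc r) (hr : r ≤ 5) (α β β' : TObj L.X r) (h : tperp α β) (h' : tperp α β') :
    ∃ γ, tperp α γ ∧ tperp β γ ∧ tperp β' γ :=
  top2_three (L.small hr) α β β' h.1 h'.1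

theorem tperp3 {r : ℕ} (L : Loc r) (hr : r ≤ 5) (f f' : Fin 3 → TObj L.X r)
    (hf : ∀ i j, i ≠ j → tperp (f i) (f j)) (hf' : ∀ i j, i ≠ j → tperp (f' i) (f' j)) :
    ∃ h : HH, ∀ i, h • f i = f' i := by
  classical
  have hX := L.small hr
  -- the sets of fibres
  let l : Finset (Fin 6) := Finset.univ.filter fun i => ((f 0).α i).isSome = true
  let l' : Finset (Fin 6) := Finset.univ.filter fun i => ((f' 0).α i).isSome = true
  have hl : l.card = r := (f 0).card
  have hl' : l'.card = r := (f' 0).card
  have hfl : ∀ k i, ((f k).α i).isSome = true ↔ i ∈ l := by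
    intro k i
    have : ((f k).α i).isSome = ((f 0).α i).isSome := by
      by_cases hk : k = 0
      · rw [hk]
      · exact (hf k 0 hk).1 i
    rw [this]
    simp [l]
  have hfl' : ∀ k i, ((f' k).α i).isSome = true ↔ i ∈ l' := by
    intro k i
    have : ((f' k).α i).isSome = ((f' 0).α i).isSome := by
      by_cases hk : k = 0
      · rw [hk]
      · exact (hf' k 0 hk).1 i
    rw [this]
    simp [l']
  obtain ⟨s, hs⟩ : ∃ s : Equiv.Perm (Fin 6), ∀ i, i ∈ l ↔ s i ∈ l' := by
    have e : l ≃ l' := Fintype.equivOfCardEq (by simp [hl, hl'])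
    obtain ⟨s, hs⟩ := perm_ext (Y := l) (fun y => (y : Fin 6)) (fun y => (e y : Fin 6))
      Subtype.val_injective (fun a b hab => e.injective (Subtype.ext hab))
    have h1 : ∀ i, i ∈ l → s i ∈ l' := by
      intro i hi
      have := hs ⟨i, hi⟩
      simp only at this
      rw [this]
      exact (e ⟨i, hi⟩).2
    refine ⟨s, fun i => ⟨h1 i, fun hi => ?_⟩⟩
    have := hs (e.symm ⟨s i, hi⟩)
    simp only [Equiv.apply_symm_apply] at this
    have h2 := s.injective this
    rw [← h2]
    exact (e.symm ⟨s i, hi⟩).2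
  have hex : ∀ i : Fin 6, ∃ σ : alternatingGroup (Fin 33),
      ∀ k, ((f k).α i).map (lab (σ : Equiv.Perm (Fin 33))) = (f' k).α (s i) := by
    intro i
    by_cases hi : i ∈ l
    · have h1 : ∀ k, ∃ g, (f k).α i = some g := fun k => Option.isSome_iff_exists.mp ((hfl k i).mpr hi)
      have h2 : ∀ k, ∃ g, (f' k).α (s i) = some g := fun k =>
        Option.isSome_iff_exists.mp ((hfl' k (s i)).mpr ((hs i).mp hi))
      choose g hg using h1
      choose g' hg' using h2
      have hinj : Function.Injective (fun p : Fin 3 × L.X => g p.1 p.2) := by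
        rintro ⟨k, x⟩ ⟨k', x'⟩ e
        simp only at e
        by_cases hk : k = k'
        · subst hk
          rw [(g k).injective e]
        · exact absurd e ((hf k k' hk).2 i _ _ (hg k) (hg k') x x')
      have hinj' : Function.Injective (fun p : Fin 3 × L.X => g' p.1 p.2) := by
        rintro ⟨k, x⟩ ⟨k', x'⟩ e
        simp only at e
        by_cases hk : k = k'
        · subst hk
          rw [(g' k).injective e]
        · exact absurd e ((hf' k k' hk).2 (s i) _ _ (hg' k) (hg' k') x x')
      obtain ⟨σ, hσ⟩ := alt_ext (Y := Fin 3 × L.X) (by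
        rw [Nat.card_eq_fintype_card, Fintype.card_prod, Fintype.card_fin]; omega) ⟨_, hinj⟩ ⟨_, hinj'⟩
      refine ⟨σ, fun k => ?_⟩
      rw [hg, hg', Option.map_some]
      congr 1
      ext x
      rw [lab_apply]
      exact congrArg Fin.val (hσ (k, x))
    · refine ⟨1, fun k => ?_⟩
      have h1 : (f k).α i = none := by
        rw [← Option.not_isSome_iff_eq_none, hfl]; exact hi
      have h2 : (f' k).α (s i) = none := by
        rw [← Option.not_isSome_iff_eq_none, hfl', ← hs]; exact hi
      rw [h1, h2]; rfl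
  choose σ hσ using hex
  refine ⟨⟨s, σ⟩, fun k => ?_⟩
  ext1
  funext j
  rw [HH_smul_T]
  change ((f k).α (s⁻¹ j)).map (lab (σ (s⁻¹ j) : Equiv.Perm (Fin 33))) = (f' k).α j
  rw [hσ]
  exact congrArg (f' k).α (Equiv.apply_symm_apply s j)

end Poly
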