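import Pool.Agent.Poly.Base
import Pool.Agent.Poly.Top
import Pool.Agent.Poly.Top2
import Pool.Agent.Poly.LocOdd
import Pool.Agent.Poly.Loc2
import Pool.Agent.Poly.Kill
import Pool.Agent.Poly.CoverB
import Pool.Agent.Poly.CoverT

set_option autoImplicit false

namespace Poly

/-- the base type of a local datum -/
noncomputable def baseType {r : ℕ} (L : Loc r) : PType HH where
  A := BObj L.X
  B := L.B
  comm := by
    intro h b α
    rw [B_smul_B, HH_smul_B, HH_smul_B, B_smul_B, lab_pre]
  M := L.M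
  normal := L.normal
  abel := L.abel
  stab := base_stab L
  c₀ := L.c₀
  c₀_fix := L.c₀_fix
  c₀_comm := L.c₀_comm
  perp α β := α.i ≠ β.i
  perp_symm := fun _ _ h => h.symm
  perp_H := by
    intro h α β e e'
    exact e (h.s.injective e')
  perp_B := fun _ _ _ e => e
  perp_ne := by
    intro b α β e e'
    exact e (by rw [← e']; rfl)
  perp_ex := by
    intro α
    obtain ⟨γ, h, -, -⟩ := base_perp2 α α α
    exact ⟨γ, h⟩
  perp2 := by
    intro α β β' _ _
    exact base_perp2 α β β'
  perp3 := base_perp3 L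
  tm := btm L.bt
  tm_perp := by
    intro i j e e'
    apply e
    have : (i.val : ℕ) = j.val := by
      simpa [btm] using congrArg Fin.val e'
    exact Fin.ext this

/-- the top type of a local datum -/
noncomputable def topType {r : ℕ} (L : Loc r) (hr : r ≤ 5) (hr1 : 1 ≤ r) : PType HH where
  A := TObj L.X r
  B := L.B
  comm := top_comm L
  M := L.M
  normal := L.normal
  abel := L.abel
  stab := top_stab L hr1
  c₀ := L.c₀
  c₀_fix := L.c₀_fix
  c₀_comm := L.c₀_comm
  perp := tperp
  perp_symm := tperp_symm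
  perp_H := tperp_H
  perp_B := tperp_B L
  perp_ne := tperp_ne L hr1
  perp_ex := tperp_ex L hr
  perp2 := tperp2 L hr
  perp3 := tperp3 L hr
  tm j := tconst r (hr.trans (by norm_num)) (L.tt j)
  tm_perp := tperp_tconst L hr

theorem exists_loc (r : ℕ) (hr : r.Prime) (h : r ≤ 33) : Nonempty (Loc r) := by
  by_cases h2 : r = 2
  · subst h2; exact exists_loc_two
  · exact exists_loc_odd r hr h2 h

/-- the chosen local datum -/
noncomputable def loc (r : ℕ) (hr : r.Prime) (h : r ≤ 33) : Loc r := Classical.choice (exists_loc r hr h)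

/-- the index set of the types -/
abbrev Idx : Type := {r : ℕ // r.Prime ∧ r ≤ 33} ⊕ {r : ℕ // r.Prime ∧ r ≤ 5}

/-- the types -/
noncomputable def TT : Idx → PType HH
  | Sum.inl r => baseType (loc r.1 r.2.1 r.2.2)
  | Sum.inr r => topType (loc r.1 r.2.1 (r.2.2.trans (by norm_num))) r.2.2 r.2.1.one_le

theorem finite_idx : Finite Idx := by
  have h1 : Finite {r : ℕ // r.Prime ∧ r ≤ 33} :=
    (Set.Finite.subset (Set.finite_Iic 33) (fun r hr => hr.2) : {r : ℕ | r.Prime ∧ r ≤ 33}.Finite).to_subtype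
  have h2 : Finite {r : ℕ // r.Prime ∧ r ≤ 5} :=
    (Set.Finite.subset (Set.finite_Iic 5) (fun r hr => hr.2) : {r : ℕ | r.Prime ∧ r ≤ 5}.Finite).to_subtype
  infer_instance

theorem card_idx : Nat.card Idx ≤ 14 := by
  have e1 : Nat.card {r : ℕ // r.Prime ∧ r ≤ 33} = 11 := by
    have : ∀ r : ℕ, (r.Prime ∧ r ≤ 33) ↔ r ∈ (Finset.range 34).filter Nat.Prime := by
      intro r; simp [Finset.mem_filter, Finset.mem_range, and_comm, Nat.lt_succ_iff]
    rw [Nat.card_congr (Equiv.subtypeEquivRight this)]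
    rw [Nat.card_eq_fintype_card, Fintype.card_coe]
    decide +kernel
  have e2 : Nat.card {r : ℕ // r.Prime ∧ r ≤ 5} = 3 := by
    have : ∀ r : ℕ, (r.Prime ∧ r ≤ 5) ↔ r ∈ (Finset.range 6).filter Nat.Prime := by
      intro r; simp [Finset.mem_filter, Finset.mem_range, and_comm, Nat.lt_succ_iff]
    rw [Nat.card_congr (Equiv.subtypeEquivRight this)]
    rw [Nat.card_eq_fintype_card, Fintype.card_coe]
    decide +kernel
  have := finite_idx
  have f1 : Finite {r : ℕ // r.Prime ∧ r ≤ 33} := Nat.finite_of_card_ne_zero (by rw [e1]; norm_num)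
  have f2 : Finite {r : ℕ // r.Prime ∧ r ≤ 5} := Nat.finite_of_card_ne_zero (by rw [e2]; norm_num)
  rw [Nat.card_sum, e1, e2]

theorem card_MT (i : Idx) : Nat.card (TT i).M ≤ 31 := by
  cases i with
  | inl r => exact (loc _ _ _).card_M
  | inr r => exact (loc _ _ _).card_M

theorem M_nontrivial (i : Idx) : ∃ m ∈ (TT i).M, m ≠ 1 := by
  cases i with
  | inl r => exact ⟨_, (loc r.1 r.2.1 r.2.2).t_pow_mem, (loc _ _ _).t_pow⟩
  | inr r => exact ⟨_, (loc r.1 r.2.1 _).t_pow_mem, (loc _ _ _).t_pow⟩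

/-- the prime of an index -/
def pr : Idx → ℕ
  | Sum.inl r => r.1
  | Sum.inr r => r.1

theorem pr_prime (i : Idx) : (pr i).Prime := by
  cases i with
  | inl r => exact r.2.1
  | inr r => exact r.2.1

theorem expoT (i : Idx) : ∀ m ∈ (TT i).M, m ^ pr i = 1 := by
  cases i with
  | inl r => exact (loc _ _ _).expo
  | inr r => exact (loc _ _ _).expo

theorem tinv_pow {r : ℕ} (L : Loc r) (m : L.B) (hm : m ∈ L.M) : (L.t⁻¹ * m) ^ r ≠ 1 := by
  intro h
  have hc : Commute L.t⁻¹ m := by
    have : Commute L.t m := L.t_comm m hm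
    exact this.inv_left
  rw [hc.mul_pow, L.expo m hm, mul_one, inv_pow, inv_eq_one] at h
  exact L.t_pow h

theorem kill (h : HH) (hne : h ≠ 1) (r : ℕ) (hr : r.Prime) (hp : h ^ r = 1) :
    ∃ (i : Idx) (α : (TT i).A) (t : (TT i).B), h • α = t • α ∧ ∀ m ∈ (TT i).M, (t * m) ^ r ≠ 1 := by
  by_cases hs : h.s = 1
  · obtain ⟨h33, hL⟩ := kill_base h hne hs r hr hp
    obtain ⟨α, hα⟩ := hL (loc r hr h33)
    exact ⟨Sum.inl ⟨r, hr, h33⟩, α, (loc r hr h33).t⁻¹, hα, tinv_pow _⟩
  · obtain ⟨h5, hL⟩ := kill_top h hs r hr hp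
    obtain ⟨α, hα⟩ := hL (loc r hr (h5.trans (by norm_num)))
    exact ⟨Sum.inr ⟨r, hr, h5⟩, α, (loc r hr _).t⁻¹, hα, tinv_pow _⟩

theorem w_one_of_ne (w : ∀ i, (TT i).A → (TT i).B) (hw : ∀ i, w i ∈ Eqv (TT i)) (r : ℕ) (hr : r.Prime)
    (hwr : ∀ i, w i ^ r = 1) (i : Idx) (hi : pr i ≠ r) (h : HH) : Fixes (TT i) (w i) h := by
  have key : ∀ α, w i α = 1 := by
    intro α
    have h1 : w i α ^ r = 1 := by
      have := congrFun (hwr i) α
      simpa using this
    have h2 := expoT i _ ((hw i).1 α)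
    have hc : Nat.Coprime r (pr i) := (Nat.coprime_primes hr (pr_prime i)).2 (Ne.symm hi)
    have h3 : orderOf (w i α) ∣ Nat.gcd r (pr i) := Nat.dvd_gcd (orderOf_dvd_of_pow_eq_one h1) (orderOf_dvd_of_pow_eq_one h2)
    rw [hc.gcd_eq_one, Nat.dvd_one, orderOf_eq_one_iff] at h3
    exact h3
  intro j k
  rw [key, key]

theorem cover_all (w : ∀ i, (TT i).A → (TT i).B) (hw : ∀ i, w i ∈ Eqv (TT i)) (r : ℕ) (hr : r.Prime)
    (hwr : ∀ i, w i ^ r = 1) : ∃ h : HH, ∀ i, Fixes (TT i) (w i) h := by
  by_cases h5 : r ≤ 5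
  · have h33 : r ≤ 33 := h5.trans (by norm_num)
    obtain ⟨h, h1, h2⟩ := cover_both (loc r hr h33) h5 hr.one_le (w (Sum.inl ⟨r, hr, h33⟩))
      (hw (Sum.inl ⟨r, hr, h33⟩)).1 (hw (Sum.inl ⟨r, hr, h33⟩)).2 (w (Sum.inr ⟨r, hr, h5⟩))
      (hw (Sum.inr ⟨r, hr, h5⟩)).1 (hw (Sum.inr ⟨r, hr, h5⟩)).2
    refine ⟨h, fun i => ?_⟩
    by_cases hi : pr i = r
    · cases i with
      | inl s =>
        obtain ⟨s, hs, hs'⟩ := s
        change s = r at hi
        subst hi
        exact h1
      | inr s =>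
        obtain ⟨s, hs, hs'⟩ := s
        change s = r at hi
        subst hi
        exact h2
    · exact w_one_of_ne w hw r hr hwr i hi h
  · by_cases h33 : r ≤ 33
    · obtain ⟨h, h1⟩ := cover_base (loc r hr h33) (w (Sum.inl ⟨r, hr, h33⟩))
        (hw (Sum.inl ⟨r, hr, h33⟩)).1 (hw (Sum.inl ⟨r, hr, h33⟩)).2
      refine ⟨h, fun i => ?_⟩
      by_cases hi : pr i = r
      · cases i with
        | inl s =>
          obtain ⟨s, hs, hs'⟩ := s
          change s = r at hi
          subst hi
          exact h1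
        | inr s =>
          obtain ⟨s, hs, hs'⟩ := s
          change s = r at hi
          subst hi
          exact absurd hs' h5
      · exact w_one_of_ne w hw r hr hwr i hi h
    · refine ⟨1, fun i => ?_⟩
      have hi : pr i ≠ r := by
        intro e
        cases i with
        | inl s =>
          obtain ⟨s, hs, hs'⟩ := s
          change s = r at e
          subst e
          exact h33 hs'
        | inr s =>
          obtain ⟨s, hs, hs'⟩ := s
          change s = r at e
          subst e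
          exact h5 hs'
      exact w_one_of_ne w hw r hr hwr i hi 1

theorem EE_tm (e : HH) (he : e ∈ EE) (i : Idx) (j : Fin 3) : e • (TT i).tm j = (TT i).tm j := by
  obtain ⟨h1, h2⟩ := he
  cases i with
  | inl r =>
    change e • btm (loc r.1 r.2.1 r.2.2).bt j = btm (loc r.1 r.2.1 r.2.2).bt j
    rw [HH_smul_B]
    have hj : (⟨j.val, by omega⟩ : Fin 6) ≠ 5 := by
      intro h
      have := congrArg Fin.val h
      simp at this
      omega
    simp only [btm, h1, h2 _ hj, Equiv.Perm.one_apply, OneMemClass.coe_one, lab_one]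
  | inr r =>
    obtain ⟨r, hr, hr5⟩ := r
    change e • tconst r (hr5.trans (by norm_num)) ((loc r hr (hr5.trans (by norm_num))).tt j) =
      tconst r (hr5.trans (by norm_num)) ((loc r hr (hr5.trans (by norm_num))).tt j)
    ext1
    funext k
    rw [HH_smul_T]
    simp only [h1, inv_one, Equiv.Perm.one_apply, tconst]
    by_cases hk : k.val < r
    · have hk5 : k ≠ 5 := by
        rintro rfl
        simp at hk
        omega
      simp [hk, h2 k hk5, lab_one]
    · simp [hk]

theorem xx_tm (i : Idx) : ∃ σ : Equiv.Perm (Fin 3), ∀ j, xx • (TT i).tm j = (TT i).tm (σ j) := by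
  cases i with
  | inl r =>
    refine ⟨Equiv.swap 0 1, fun j => ?_⟩
    change xx • btm (loc r.1 r.2.1 r.2.2).bt j = btm (loc r.1 r.2.1 r.2.2).bt (Equiv.swap 0 1 j)
    rw [HH_smul_B]
    have hj : (⟨j.val, by omega⟩ : Fin 6) ≠ 5 := by
      intro h
      have := congrArg Fin.val h
      simp at this
      omega
    ext1
    · simp only [btm, xx]
      fin_cases j <;> decide
    · simp only [btm, xx, if_neg hj, OneMemClass.coe_one, lab_one]
  | inr r =>
    obtain ⟨r, hr, hr5⟩ := r
    refine ⟨1, fun j => ?_⟩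
    change xx • tconst r (hr5.trans (by norm_num)) ((loc r hr (hr5.trans (by norm_num))).tt j) =
      tconst r (hr5.trans (by norm_num)) ((loc r hr (hr5.trans (by norm_num))).tt j)
    have h2 := hr.two_le
    ext1
    funext k
    rw [HH_smul_T]
    by_cases hk : k = 5
    · subst hk
      have e1 : xx.s⁻¹ 5 = 5 := by decide
      rw [e1]
      have : ¬ (5 : ℕ) < r := by omega
      simp [tconst, this]
    · have e1 : xx.s⁻¹ k ≠ 5 := by
        intro h
        apply hk
        have : k = xx.s 5 := by rw [← h]; simp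
        rw [this]; decide
      have e2 : ((xx.s⁻¹ k).val < r) ↔ (k.val < r) := by
        fin_cases k <;> simp [xx, Equiv.swap_apply_def] <;> omega
      simp only [tconst]
      by_cases hkr : k.val < r
      · rw [if_pos (e2.2 hkr), if_pos hkr]
        have e3 : xx.h (xx.s⁻¹ k) = 1 := if_neg e1
        rw [e3]
        simp [lab_one]
      · rw [if_neg (fun h => hkr (e2.1 h)), if_neg hkr]
        rfl

end Poly
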