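import Pool.Agent.Poly.AbsThm
import Pool.Agent.Poly.Types
import Pool.Agent.Poly.Closed
import Pool.Agent.Poly.Core
import Pool.Agent.Poly.ExtC
import Pool.Agent.Poly.Gen
import Pool.Agent.Poly.Efib

set_option autoImplicit false

namespace Poly

section

variable {G : Type} [Group G] (X : Ext TT G)

theorem W_one (i : Idx) : X.W 1 i = 1 := by
  have h := X.W_mul 1 X.π.ker.one_mem 1 X.π.ker.one_mem i
  rw [mul_one] at h
  exact (left_eq_mul).1 h

theorem W_inv (n : G) (hn : n ∈ X.π.ker) (i : Idx) : X.W n⁻¹ i = (X.W n i)⁻¹ := by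
  have h := X.W_mul n hn n⁻¹ (X.π.ker.inv_mem hn) i
  rw [mul_inv_cancel, W_one] at h
  exact eq_inv_of_mul_eq_one_right h.symm

theorem W_ext (n n' : G) (hn : n ∈ X.π.ker) (hn' : n' ∈ X.π.ker) (h : ∀ i, X.W n i = X.W n' i) : n = n' := by
  have : n * n'⁻¹ = 1 := by
    refine X.W_inj _ (X.π.ker.mul_mem hn (X.π.ker.inv_mem hn')) fun i => ?_
    rw [X.W_mul _ hn _ (X.π.ker.inv_mem hn'), W_inv X _ hn', h i, mul_inv_cancel]
  exact mul_inv_eq_one.1 this

theorem ker_comm (a b : G) (ha : a ∈ X.π.ker) (hb : b ∈ X.π.ker) : a * b = b * a := by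
  refine W_ext X _ _ (X.π.ker.mul_mem ha hb) (X.π.ker.mul_mem hb ha) fun i => ?_
  rw [X.W_mul _ ha _ hb, X.W_mul _ hb _ ha]
  funext α
  exact (TT i).abel _ ((X.W_mem a ha i).1 α) _ ((X.W_mem b hb i).1 α)

/-- the point stabiliser -/
def KK : Subgroup G where
  carrier := {n | n ∈ X.π.ker ∧ ∀ i, ∀ j k : Fin 3, X.W n i ((TT i).tm j) = X.W n i ((TT i).tm k)}
  mul_mem' := by
    rintro a b ⟨ha, ha'⟩ ⟨hb, hb'⟩
    refine ⟨X.π.ker.mul_mem ha hb, fun i j k => ?_⟩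
    rw [X.W_mul _ ha _ hb, Pi.mul_apply, Pi.mul_apply, ha' i j k, hb' i j k]
  one_mem' := ⟨X.π.ker.one_mem, fun i j k => by rw [W_one]; rfl⟩
  inv_mem' := by
    rintro a ⟨ha, ha'⟩
    refine ⟨X.π.ker.inv_mem ha, fun i j k => ?_⟩
    rw [W_inv X _ ha, Pi.inv_apply, Pi.inv_apply, ha' i j k]

theorem mem_KK (n : G) : n ∈ KK X ↔ n ∈ X.π.ker ∧ ∀ i, ∀ j k : Fin 3, X.W n i ((TT i).tm j) = X.W n i ((TT i).tm k) :=
  Iff.rfl

theorem W_conj' (x n : G) (hn : n ∈ X.π.ker) (i : Idx) (α : (TT i).A) :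
    X.W (x⁻¹ * n * x) i α = X.W n i (X.π x • α) := by
  have h := X.W_conj x⁻¹ n hn i (X.π x • α)
  rw [inv_inv, map_inv, inv_smul_smul] at h
  exact h

theorem conj_ker (x n : G) (hn : n ∈ X.π.ker) : x⁻¹ * n * x ∈ X.π.ker := by
  rw [MonoidHom.mem_ker] at hn ⊢
  rw [map_mul, map_mul, hn, map_inv]
  simp

theorem conj_mem_KK (x n : G) (hn : n ∈ X.π.ker) : x⁻¹ * n * x ∈ KK X ↔ ∀ i, Fixes (TT i) (X.W n i) (X.π x) := by
  rw [mem_KK]
  constructor
  · rintro ⟨-, h⟩ i j k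
    have := h i j k
    rwa [W_conj' X x n hn, W_conj' X x n hn] at this
  · intro h
    refine ⟨conj_ker X x n hn, fun i j k => ?_⟩
    rw [W_conj' X x n hn, W_conj' X x n hn]
    exact h i j k

theorem core_KK (n : G) (hn : ∀ x : G, x⁻¹ * n * x ∈ KK X) : n = 1 := by
  have hk : n ∈ X.π.ker := by
    have := (hn 1).1
    simpa using this
  refine X.W_inj n hk fun i => ?_
  refine core_type (TT i) _ (X.W_mem n hk i) fun h => ?_
  obtain ⟨x, rfl⟩ := X.surj h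
  exact (conj_mem_KK X x n hk).1 (hn x) i

/-- an element of the kernel with one prescribed template value in one type -/
theorem exists_single (i₀ : Idx) (f : Fin 3 → (TT i₀).B) (hf : ∀ j, f j ∈ (TT i₀).M) :
    ∃ n ∈ X.π.ker, (∀ j, X.W n i₀ ((TT i₀).tm j) = f j) ∧ ∀ i, i ≠ i₀ → ∀ j, X.W n i ((TT i).tm j) = 1 := by
  classical
  obtain ⟨w, hw, hw'⟩ := exists_val (TT i₀) f hf
  obtain ⟨n, hn, hn'⟩ := X.W_surj (Function.update (fun _ => 1) i₀ w) (by
    intro i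
    by_cases h : i = i₀
    · subst h
      rw [Function.update_self]
      exact hw
    · rw [Function.update_of_ne h]
      exact (Eqv (TT i)).one_mem)
  refine ⟨n, hn, fun j => ?_, fun i hi j => ?_⟩
  · rw [hn' i₀, Function.update_self, hw']
  · rw [hn' i, Function.update_of_ne hi]
    rfl

theorem big_KK : ∃ n₁ ∈ X.π.ker, ∃ n₂ ∈ X.π.ker, n₁ ∉ KK X ∧ n₂ ∉ KK X ∧ n₁⁻¹ * n₂ ∉ KK X := by
  let i₀ : Idx := Sum.inl ⟨2, Nat.prime_two, by norm_num⟩
  obtain ⟨m, hm, hm1⟩ := M_nontrivial i₀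
  obtain ⟨n₁, hn₁, h₁, -⟩ := exists_single X i₀ ![m, 1, 1] (by
    intro j; fin_cases j
    · exact hm
    · exact (TT i₀).M.one_mem
    · exact (TT i₀).M.one_mem)
  obtain ⟨n₂, hn₂, h₂, -⟩ := exists_single X i₀ ![1, m, 1] (by
    intro j; fin_cases j
    · exact (TT i₀).M.one_mem
    · exact hm
    · exact (TT i₀).M.one_mem)
  refine ⟨n₁, hn₁, n₂, hn₂, ?_, ?_, ?_⟩
  · rintro ⟨-, h⟩
    have := h i₀ 0 1
    rw [h₁ 0, h₁ 1] at this
    exact hm1 this
  · rintro ⟨-, h⟩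
    have := h i₀ 1 2
    rw [h₂ 1, h₂ 2] at this
    exact hm1 this
  · rintro ⟨-, h⟩
    have := h i₀ 1 2
    rw [X.W_mul _ (X.π.ker.inv_mem hn₁) _ hn₂, W_inv X _ hn₁, Pi.mul_apply, Pi.mul_apply, Pi.inv_apply, Pi.inv_apply,
      h₁ 1, h₁ 2, h₂ 1, h₂ 2] at this
    simp at this
    exact hm1 this

theorem closed_KK (w : HH → G) (hw : ∀ h, w h ∈ X.π.ker)
    (hc : ∀ x y : G, ∃ k ∈ KK X, ∃ k' ∈ KK X, (w (X.π x))⁻¹ * w (X.π y) = (x * k * x⁻¹) * (y * k' * y⁻¹)) :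
    ∃ v ∈ X.π.ker, ∀ x : G, x⁻¹ * ((w (X.π x))⁻¹ * v) * x ∈ KK X := by
  have hker : ∀ x k : G, k ∈ KK X → x * k * x⁻¹ ∈ X.π.ker := by
    intro x k hk
    have := conj_ker X x⁻¹ k hk.1
    simpa using this
  have key : ∀ i, ∃ v ∈ Eqv (TT i), ∀ h, Fixes (TT i) ((X.W (w h) i)⁻¹ * v) h := by
    intro i
    refine closed_type (TT i) (fun h => X.W (w h) i) (fun h => X.W_mem _ (hw h) i) fun h h' => ?_
    obtain ⟨x, rfl⟩ := X.surj h
    obtain ⟨y, rfl⟩ := X.surj h'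
    obtain ⟨k, hk, k', hk', e⟩ := hc x y
    refine ⟨X.W (x * k * x⁻¹) i, X.W_mem _ (hker x k hk) i, X.W (y * k' * y⁻¹) i, X.W_mem _ (hker y k' hk') i, ?_, ?_, ?_⟩
    · refine (conj_mem_KK X x _ (hker x k hk)).1 ?_ i
      simpa [mul_assoc] using hk
    · refine (conj_mem_KK X y _ (hker y k' hk')).1 ?_ i
      simpa [mul_assoc] using hk'
    · rw [← W_inv X _ (hw _), ← X.W_mul _ (X.π.ker.inv_mem (hw _)) _ (hw _), e,
        X.W_mul _ (hker x k hk) _ (hker y k' hk')]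
  choose v hv hv' using key
  obtain ⟨n, hn, hn'⟩ := X.W_surj v hv
  refine ⟨n, hn, fun x => ?_⟩
  refine (conj_mem_KK X x _ (X.π.ker.mul_mem (X.π.ker.inv_mem (hw _)) hn)).2 fun i => ?_
  rw [X.W_mul _ (X.π.ker.inv_mem (hw _)) _ hn, W_inv X _ (hw _), hn' i]
  exact hv' i _

theorem act_KK (g : G) (hg : X.π g ∈ EE) (n : G) (hn : n ∈ X.π.ker) : g⁻¹ * n * g * n⁻¹ ∈ KK X := by
  rw [mem_KK]
  refine ⟨X.π.ker.mul_mem (conj_ker X g n hn) (X.π.ker.inv_mem hn), ?_⟩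
  have : ∀ i j, X.W (g⁻¹ * n * g * n⁻¹) i ((TT i).tm j) = 1 := by
    intro i j
    rw [X.W_mul _ (conj_ker X g n hn) _ (X.π.ker.inv_mem hn), W_inv X _ hn, Pi.mul_apply, Pi.inv_apply,
      W_conj' X g n hn, EE_tm _ hg, mul_inv_cancel]
  intro i j k
  rw [this, this]

theorem norm_KK (g : G) (hg : X.π g = xx) (k : G) (hk : k ∈ KK X) : g⁻¹ * k * g ∈ KK X := by
  rw [conj_mem_KK X g k hk.1]
  intro i j j'
  obtain ⟨σ, hσ⟩ := xx_tm i
  rw [hg, hσ, hσ]
  exact hk.2 i _ _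

/-- index set of the generators -/
abbrev JJ : Type := Σ i : Idx, Fin 3 × (TT i).M

theorem finite_JJ : Finite JJ := by
  have := finite_idx
  infer_instance

theorem card_JJ : Nat.card JJ ≤ 1302 := by
  have h0 := finite_idx
  have : Fintype Idx := Fintype.ofFinite _
  rw [Nat.card_sigma]
  calc ∑ i : Idx, Nat.card (Fin 3 × (TT i).M) ≤ ∑ _i : Idx, 93 := by
        refine Finset.sum_le_sum fun i _ => ?_
        rw [Nat.card_prod, Nat.card_fin]
        have := card_MT i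
        omega
    _ = Nat.card Idx * 93 := by rw [Finset.sum_const, Finset.card_univ, Nat.card_eq_fintype_card, smul_eq_mul]
    _ ≤ 14 * 93 := Nat.mul_le_mul_right _ card_idx
    _ = 1302 := by norm_num

theorem exists_gens : ∃ e : JJ → G, (∀ j, e j ∈ X.π.ker) ∧
    X.π.ker ≤ Subgroup.closure ((KK X : Set G) ∪ Set.range e) := by
  classical
  have key : ∀ j : JJ, ∃ n ∈ X.π.ker, X.W n j.1 ((TT j.1).tm j.2.1) = j.2.2.1 ∧
      ∀ i k, (⟨i, k⟩ : Σ _ : Idx, Fin 3) ≠ ⟨j.1, j.2.1⟩ → X.W n i ((TT i).tm k) = 1 := by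
    rintro ⟨i₀, j₀, m, hm⟩
    obtain ⟨n, hn, h1, h2⟩ := exists_single X i₀ (Function.update (fun _ => 1) j₀ m) (by
      intro j
      by_cases h : j = j₀
      · subst h; rw [Function.update_self]; exact hm
      · rw [Function.update_of_ne h]; exact (TT i₀).M.one_mem)
    refine ⟨n, hn, by rw [h1, Function.update_self], fun i k hik => ?_⟩
    by_cases hi : i = i₀
    · subst hi
      rw [h1, Function.update_of_ne]
      rintro rfl
      exact hik rfl
    · exact h2 i hi k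
  choose e he he1 he2 using key
  refine ⟨e, he, ?_⟩
  have h0 := finite_idx
  have main : ∀ (S : Finset (Σ _ : Idx, Fin 3)) (n : G), n ∈ X.π.ker →
      (∀ i k, (⟨i, k⟩ : Σ _ : Idx, Fin 3) ∉ S → X.W n i ((TT i).tm k) = 1) →
      n ∈ Subgroup.closure ((KK X : Set G) ∪ Set.range e) := by
    intro S
    induction S using Finset.induction_on with
    | empty =>
      intro n hn h
      refine Subgroup.subset_closure (Or.inl ⟨hn, fun i j k => ?_⟩)
      rw [h i j (by simp), h i k (by simp)]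
    | insert p S hp ih =>
      intro n hn h
      obtain ⟨i₀, j₀⟩ := p
      let q : JJ := ⟨i₀, j₀, ⟨X.W n i₀ ((TT i₀).tm j₀), (X.W_mem n hn i₀).1 _⟩⟩
      have h3 : n * (e q)⁻¹ ∈ Subgroup.closure ((KK X : Set G) ∪ Set.range e) := by
        refine ih _ (X.π.ker.mul_mem hn (X.π.ker.inv_mem (he q))) fun i k hik => ?_
        rw [X.W_mul _ hn _ (X.π.ker.inv_mem (he q)), W_inv X _ (he q), Pi.mul_apply, Pi.inv_apply]
        by_cases hp' : (⟨i, k⟩ : Σ _ : Idx, Fin 3) = ⟨i₀, j₀⟩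
        · have hi : i = i₀ := by simpa using congrArg Sigma.fst hp'
          subst hi
          have hk : k = j₀ := by simpa using hp'
          subst hk
          have := he1 q
          change X.W (e q) i ((TT i).tm k) = X.W n i ((TT i).tm k) at this
          rw [this, mul_inv_cancel]
        · rw [he2 q i k hp', h i k (by simp only [Finset.mem_insert, not_or]; exact ⟨hp', hik⟩)]
          simp
      have h4 : e q ∈ Subgroup.closure ((KK X : Set G) ∪ Set.range e) :=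
        Subgroup.subset_closure (Or.inr ⟨q, rfl⟩)
      have := Subgroup.mul_mem _ h3 h4
      simpa using this
  intro n hn
  have : Fintype (Σ _ : Idx, Fin 3) := Fintype.ofFinite _
  exact main Finset.univ n hn (fun i k h => absurd (Finset.mem_univ _) h)

theorem tors_KK (g : G) (r : ℕ) (hr : r.Prime) (h : ∀ x : G, x⁻¹ * g ^ r * x ∈ KK X) : X.π g = 1 := by
  have h1 : g ^ r = 1 := core_KK X _ h
  by_contra hne
  have hp : (X.π g) ^ r = 1 := by rw [← map_pow, h1, map_one]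
  obtain ⟨i, α, t, ht, ht'⟩ := kill (X.π g) hne r hr hp
  obtain ⟨m, hm, e⟩ := X.W_pow g i α t ht r hp
  rw [h1, W_one] at e
  exact ht' m hm e.symm

theorem cover_KK (n : G) (hn : n ∈ X.π.ker) (r : ℕ) (hr : r.Prime) (h : ∀ x : G, x⁻¹ * n ^ r * x ∈ KK X) :
    ∃ x : G, x⁻¹ * n * x ∈ KK X := by
  have h1 : n ^ r = 1 := core_KK X _ h
  have hpow : ∀ k : ℕ, n ^ k ∈ X.π.ker ∧ ∀ i, X.W (n ^ k) i = X.W n i ^ k := by
    intro k
    induction k with
    | zero => exact ⟨by simp, fun i => by rw [pow_zero, pow_zero, W_one]⟩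
    | succ k ih =>
      refine ⟨by rw [pow_succ]; exact X.π.ker.mul_mem ih.1 hn, fun i => ?_⟩
      rw [pow_succ, X.W_mul _ ih.1 _ hn, ih.2, pow_succ]
  obtain ⟨h', hh⟩ := cover_all (X.W n) (X.W_mem n hn) r hr (fun i => by rw [← (hpow r).2, h1, W_one])
  obtain ⟨x, rfl⟩ := X.surj h'
  exact ⟨x, (conj_mem_KK X x n hn).2 hh⟩

include X in
theorem exists_cdata : Nonempty (CData G HH (Equiv.Perm (Fin 6))) := by
  obtain ⟨e, he, hgen⟩ := exists_gens X
  obtain ⟨a, ha, ha'⟩ := exists_a_EE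
  have := finite_JJ
  let q : Fin (Nat.card JJ) ≃ JJ := (Finite.equivFin JJ).symm
  refine ⟨{
    π := X.π
    surj := X.surj
    K := KK X
    K_le := fun n hn => hn.1
    comm := fun a ha b hb => ker_comm X a b ha hb
    big := big_KK X
    closed := closed_KK X
    s := HH.sHom
    ρ := rr
    x₀ := xx
    gen := gen_top
    x₀_sq := xx_sq
    x₀_norm := norm_KK X
    s_ρ := rr_s
    s_x₀ := xx_s
    s_x₀_sq := xx_s_sq
    E := EE
    E_le := fun g hg => hg.1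
    E_na := EE_na
    E_gen := EE_gen
    E_act := act_KK X
    a := a
    a_mem := ha
    m := Nat.card JJ
    n := fun j => e (q j)
    n_mem := fun j => he _
    n_gen := ?_
    a_pow := ?_
    tors := tors_KK X
    cover := cover_KK X }⟩
  · refine hgen.trans (Subgroup.closure_mono (Set.union_subset_union_right _ ?_))
    rintro _ ⟨j, rfl⟩
    exact ⟨q.symm j, by simp⟩
  · intro j h1 h2
    refine ha' j h1 (h2.trans ?_)
    have := card_JJ
    omega

end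

theorem final :
    ¬ (∀ (V : Type) [Fintype V] [Nontrivial V] (Γ : Digraph V),
      (∀ u v : V, ∃ σ : Equiv.Perm V,
          (∀ x y : V, Γ.Adj (σ x) (σ y) ↔ Γ.Adj x y) ∧ σ u = v) →
      ∃ σ : Equiv.Perm V,
        (∀ x y : V, Γ.Adj (σ x) (σ y) ↔ Γ.Adj x y) ∧ σ ≠ 1 ∧
        ∀ x y : V, Function.minimalPeriod σ x = Function.minimalPeriod σ y) := by
  have := finite_idx
  obtain ⟨G, gG, fG, ⟨X⟩⟩ := exists_ext TT
  obtain ⟨D⟩ := exists_cdata X
  exact thmA D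

end Poly
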