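import Pool.Agent.Poly.Obj

set_option autoImplicit false

/-! # Module HALF: a choice of one of `d, d⁻¹`, and a section with prescribed values -/

namespace Poly

section

variable {G H S : Type} [Group G] [Group H] [Group S] (D : CData G H S)

theorem half_ρ_inv_ne : D.ρ⁻¹ ≠ D.ρ := by
  intro h
  refine D.s_ρ ?_
  rw [← map_pow, sq]
  nth_rewrite 1 [← h]
  rw [inv_mul_cancel, map_one]

theorem half_ρ_inv_ne_x₀ : D.ρ⁻¹ ≠ D.x₀ := by
  intro h
  refine D.s_ρ ?_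
  have h1 := D.s_x₀_sq
  rw [← h, map_inv, inv_pow, inv_eq_one] at h1
  exact h1

theorem half_x₀_inv_ne_ρ : D.x₀⁻¹ ≠ D.ρ := by
  intro h
  refine half_ρ_inv_ne_x₀ D ?_
  rw [← h, inv_inv]

theorem half_x₀_inv_ne : D.x₀⁻¹ ≠ D.x₀ := by
  intro h
  refine D.x₀_sq ?_
  rw [sq]
  nth_rewrite 1 [← h]
  rw [inv_mul_cancel]

theorem exists_half : ∃ A : Set H, Half D A := by
  classical
  let _ : LinearOrder H := linearOrderOfSTO WellOrderingRel
  refine ⟨{d | (d < d⁻¹ ∧ d ≠ D.ρ⁻¹ ∧ d ≠ D.x₀⁻¹) ∨ d = D.ρ ∨ d = D.x₀}, ?_, ?_, ?_, ?_⟩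
  · rintro d (⟨h1, h2, h3⟩ | rfl | rfl)
    · rintro (⟨h4, -, -⟩ | h4 | h4)
      · rw [inv_inv] at h4
        exact lt_asymm h1 h4
      · exact h2 (by rw [← h4, inv_inv])
      · exact h3 (by rw [← h4, inv_inv])
    · rintro (⟨-, h4, -⟩ | h4 | h4)
      · exact h4 rfl
      · exact half_ρ_inv_ne D h4
      · exact half_ρ_inv_ne_x₀ D h4
    · rintro (⟨-, -, h4⟩ | h4 | h4)
      · exact h4 rfl
      · exact half_x₀_inv_ne_ρ D h4
      · exact half_x₀_inv_ne D h4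
  · have key : ∀ d : H, d < d⁻¹ → d ∈ {d | (d < d⁻¹ ∧ d ≠ D.ρ⁻¹ ∧ d ≠ D.x₀⁻¹) ∨ d = D.ρ ∨ d = D.x₀} ∨
        d⁻¹ ∈ {d | (d < d⁻¹ ∧ d ≠ D.ρ⁻¹ ∧ d ≠ D.x₀⁻¹) ∨ d = D.ρ ∨ d = D.x₀} := by
      intro d hd
      by_cases h1 : d = D.ρ⁻¹
      · exact Or.inr (Or.inr (Or.inl (by rw [h1, inv_inv])))
      · by_cases h2 : d = D.x₀⁻¹
        · exact Or.inr (Or.inr (Or.inr (by rw [h2, inv_inv])))
        · exact Or.inl (Or.inl ⟨hd, h1, h2⟩)
    intro d hd
    have hne : d ≠ d⁻¹ := by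
      intro h
      refine hd ?_
      rw [sq]
      nth_rewrite 1 [h]
      rw [inv_mul_cancel]
    rcases lt_or_gt_of_ne hne with h | h
    · exact key d h
    · have h' : d⁻¹ < d⁻¹⁻¹ := by rw [inv_inv]; exact h
      rcases key d⁻¹ h' with h1 | h1
      · exact Or.inr h1
      · rw [inv_inv] at h1
        exact Or.inl h1
  · exact Or.inr (Or.inl rfl)
  · exact Or.inr (Or.inr rfl)

theorem half_n'_mem (j : Fin (D.m + 1)) : D.n' j ∈ D.π.ker := by
  unfold CData.n'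
  refine Fin.cases ?_ (fun i => ?_) j
  · rw [Fin.cons_zero]
    exact D.π.ker.one_mem
  · rw [Fin.cons_succ]
    exact D.n_mem i

theorem half_pow_inj {j k : ℕ} (hj : j < D.m + 1) (hk : k < D.m + 1)
    (h : D.a ^ (j + 1) = D.a ^ (k + 1)) : j = k := by
  wlog hjk : j ≤ k generalizing j k
  · exact (this hk hj h.symm (by omega)).symm
  · by_contra hne
    refine D.a_pow (k - j) (by omega) (by omega) ?_
    have h1 : D.a ^ (k + 1) = D.a ^ (j + 1) * D.a ^ (k - j) := by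
      rw [← pow_add]; congr 1; omega
    rw [h1] at h
    exact (mul_eq_left.1 h.symm)

theorem half_pow_ne {j k : ℕ} (hj : j < D.m + 1) (hk : k < D.m + 1) :
    D.a ^ (j + 1) ≠ (D.a ^ (k + 1))⁻¹ := by
  intro h
  refine D.a_pow ((j + 1) + (k + 1)) (by omega) (by omega) ?_
  rw [pow_add, h, inv_mul_cancel]

theorem exists_lift : ∃ (g : H → G) (a₁ : G), Lift D g a₁ := by
  classical
  obtain ⟨a₁, ha₁⟩ := D.surj D.a
  have hval : ∀ j : Fin (D.m + 1), D.π (a₁ ^ (j.val + 1) * D.n' j) = D.a ^ (j.val + 1) := by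
    intro j
    have h1 : D.π (D.n' j) = 1 := half_n'_mem D j
    rw [map_mul, map_pow, ha₁, h1, mul_one]
  let g : H → G := fun d =>
    if h : ∃ j : Fin (D.m + 1), d = D.a ^ (j.val + 1) then
      a₁ ^ (h.choose.val + 1) * D.n' h.choose
    else if h : ∃ j : Fin (D.m + 1), d = (D.a ^ (j.val + 1))⁻¹ then
      (a₁ ^ (h.choose.val + 1) * D.n' h.choose)⁻¹
    else Function.surjInv D.surj d
  refine ⟨g, a₁, ?_, ha₁, ?_, ?_⟩
  · intro d
    by_cases h : ∃ j : Fin (D.m + 1), d = D.a ^ (j.val + 1)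
    · have e : g d = a₁ ^ (h.choose.val + 1) * D.n' h.choose := dif_pos h
      rw [e, hval]
      exact h.choose_spec.symm
    · by_cases h' : ∃ j : Fin (D.m + 1), d = (D.a ^ (j.val + 1))⁻¹
      · have e : g d = (a₁ ^ (h'.choose.val + 1) * D.n' h'.choose)⁻¹ := by
          show dite _ _ _ = _
          rw [dif_neg h, dif_pos h']
        rw [e, map_inv, hval]
        exact h'.choose_spec.symm
      · have e : g d = Function.surjInv D.surj d := by
          show dite _ _ _ = _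
          rw [dif_neg h, dif_neg h']
        rw [e]
        exact Function.surjInv_eq D.surj d
  · intro j
    have h : ∃ k : Fin (D.m + 1), D.a ^ (j.val + 1) = D.a ^ (k.val + 1) := ⟨j, rfl⟩
    have e : g (D.a ^ (j.val + 1)) = a₁ ^ (h.choose.val + 1) * D.n' h.choose := dif_pos h
    have e2 : j = h.choose := Fin.ext (half_pow_inj D j.isLt h.choose.isLt h.choose_spec)
    rw [e, ← e2]
  · intro j
    have h : ¬ ∃ k : Fin (D.m + 1), (D.a ^ (j.val + 1))⁻¹ = D.a ^ (k.val + 1) := by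
      rintro ⟨k, hk⟩
      exact half_pow_ne D k.isLt j.isLt hk.symm
    have h' : ∃ k : Fin (D.m + 1), (D.a ^ (j.val + 1))⁻¹ = (D.a ^ (k.val + 1))⁻¹ := ⟨j, rfl⟩
    have e : g (D.a ^ (j.val + 1))⁻¹ = (a₁ ^ (h'.choose.val + 1) * D.n' h'.choose)⁻¹ := by
      show dite _ _ _ = _
      rw [dif_neg h, dif_pos h']
    have e2 : j = h'.choose :=
      Fin.ext (half_pow_inj D j.isLt h'.choose.isLt (inv_injective h'.choose_spec))
    rw [e, ← e2]

end

end Poly
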