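import Pool.Agent.Poly.Defs

set_option autoImplicit false

namespace Poly

/-! ### the group `A_33 wr S_6` -/

/-- `A_33 wr S_6`, acting on `Fin 6 × Fin 33` by `(i, a) ↦ (s i, h i a)` -/
@[ext] structure HH where
  s : Equiv.Perm (Fin 6)
  h : Fin 6 → alternatingGroup (Fin 33)

namespace HH

instance : Mul HH := ⟨fun a b => ⟨a.s * b.s, fun i => a.h (b.s i) * b.h i⟩⟩
instance : One HH := ⟨⟨1, fun _ => 1⟩⟩
instance : Inv HH := ⟨fun a => ⟨a.s⁻¹, fun i => (a.h (a.s⁻¹ i))⁻¹⟩⟩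

@[simp] theorem mul_s (a b : HH) : (a * b).s = a.s * b.s := rfl
@[simp] theorem mul_h (a b : HH) (i : Fin 6) : (a * b).h i = a.h (b.s i) * b.h i := rfl
@[simp] theorem one_s : (1 : HH).s = 1 := rfl
@[simp] theorem one_h (i : Fin 6) : (1 : HH).h i = 1 := rfl
@[simp] theorem inv_s (a : HH) : (a⁻¹).s = a.s⁻¹ := rfl
@[simp] theorem inv_h (a : HH) (i : Fin 6) : (a⁻¹).h i = (a.h (a.s⁻¹ i))⁻¹ := rfl

instance : Group HH := Group.ofLeftAxioms
  (fun a b c => by ext1 <;> simp [mul_assoc, funext_iff])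
  (fun a => by ext1 <;> simp [funext_iff])
  (fun a => by ext1 <;> simp [funext_iff])

/-- the projection to `S_6` -/
def sHom : HH →* Equiv.Perm (Fin 6) where
  toFun := HH.s
  map_one' := rfl
  map_mul' _ _ := rfl

instance : Finite HH := by
  refine Finite.of_injective (β := Equiv.Perm (Fin 6) × (Fin 6 → alternatingGroup (Fin 33)))
    (fun a => (a.s, a.h)) ?_
  rintro ⟨s, h⟩ ⟨s', h'⟩ e
  simp only [Prod.mk.injEq] at e
  ext1 <;> simp [e.1, e.2]

end HH

/-! ### objects -/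

/-- base objects: a fibre and an injection of `X` into the labels -/
@[ext] structure BObj (X : Type) where
  i : Fin 6
  β : X ↪ Fin 33

/-- top objects: a family of injections over `r` fibres -/
@[ext] structure TObj (X : Type) (r : ℕ) where
  α : Fin 6 → Option (X ↪ Fin 33)
  card : (Finset.univ.filter fun i => (α i).isSome = true).card = r

section

variable {X B : Type} [Group B] [MulAction B X]

/-- a permutation of the labels acting on injections -/
def lab (σ : Equiv.Perm (Fin 33)) (β : X ↪ Fin 33) : X ↪ Fin 33 := β.trans σ.toEmbedding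

/-- precomposition with `b⁻¹` -/
def pre (b : B) (β : X ↪ Fin 33) : X ↪ Fin 33 := (MulAction.toPerm (b⁻¹) : Equiv.Perm X).toEmbedding.trans β

@[simp] theorem lab_apply (σ : Equiv.Perm (Fin 33)) (β : X ↪ Fin 33) (x : X) : lab σ β x = σ (β x) := rfl
@[simp] theorem pre_apply (b : B) (β : X ↪ Fin 33) (x : X) : pre b β x = β (b⁻¹ • x) := rfl

theorem lab_one (β : X ↪ Fin 33) : lab 1 β = β := by ext x; simp
theorem lab_mul (σ τ : Equiv.Perm (Fin 33)) (β : X ↪ Fin 33) : lab (σ * τ) β = lab σ (lab τ β) := by ext x; simp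
theorem pre_one (β : X ↪ Fin 33) : pre (1 : B) β = β := by ext x; simp
theorem pre_mul (b c : B) (β : X ↪ Fin 33) : pre (b * c) β = pre b (pre c β) := by
  ext x; simp [mul_smul]
theorem lab_pre (σ : Equiv.Perm (Fin 33)) (b : B) (β : X ↪ Fin 33) : lab σ (pre b β) = pre b (lab σ β) := by
  ext x; simp

instance : MulAction HH (BObj X) where
  smul g o := ⟨g.s o.i, lab (g.h o.i) o.β⟩
  one_smul o := by
    change (⟨(1 : HH).s o.i, lab ((1 : HH).h o.i) o.β⟩ : BObj X) = o
    ext1 <;> simp [lab_one]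
  mul_smul a b o := by
    change (⟨(a * b).s o.i, lab ((a * b).h o.i) o.β⟩ : BObj X) = ⟨a.s (b.s o.i), lab (a.h (b.s o.i)) (lab (b.h o.i) o.β)⟩
    ext1 <;> simp [lab_mul]

theorem HH_smul_B (g : HH) (o : BObj X) : g • o = ⟨g.s o.i, lab (g.h o.i) o.β⟩ := rfl

instance : MulAction B (BObj X) where
  smul b o := ⟨o.i, pre b o.β⟩
  one_smul o := by
    change (⟨o.i, pre (1 : B) o.β⟩ : BObj X) = o
    rw [pre_one]
  mul_smul b c o := by
    change (⟨o.i, pre (b * c) o.β⟩ : BObj X) = ⟨o.i, pre b (pre c o.β)⟩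
    rw [pre_mul]

theorem B_smul_B (b : B) (o : BObj X) : b • o = ⟨o.i, pre b o.β⟩ := rfl

variable {r : ℕ}

instance : MulAction HH (TObj X r) where
  smul g o := ⟨fun j => (o.α (g.s⁻¹ j)).map (lab (g.h (g.s⁻¹ j))), by
    refine Eq.trans ?_ o.card
    refine Finset.card_bij (fun i _ => g.s⁻¹ i) ?_ ?_ ?_
    · intro i hi; simpa using hi
    · intro i _ j _ h; exact g.s⁻¹.injective h
    · intro i hi
      exact ⟨g.s i, by simpa using hi, by simp⟩⟩
  one_smul o := by
    ext1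
    funext j
    change (o.α ((1 : HH).s⁻¹ j)).map (lab ((1 : HH).h ((1 : HH).s⁻¹ j))) = o.α j
    cases h : o.α j <;> simp [h, lab_one]
  mul_smul a b o := by
    ext1
    funext j
    change (o.α ((a * b).s⁻¹ j)).map (lab ((a * b).h ((a * b).s⁻¹ j))) =
      ((o.α (b.s⁻¹ (a.s⁻¹ j))).map (lab (b.h (b.s⁻¹ (a.s⁻¹ j))))).map (lab (a.h (a.s⁻¹ j)))
    rw [Option.map_map]
    have e : lab (X := X) ((a * b).h ((a * b).s⁻¹ j) : Equiv.Perm (Fin 33)) =
        lab (a.h (a.s⁻¹ j) : Equiv.Perm (Fin 33)) ∘ lab (b.h (b.s⁻¹ (a.s⁻¹ j)) : Equiv.Perm (Fin 33)) := by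
      funext β
      simp [lab_mul]
    rw [e]
    rfl

theorem HH_smul_T (g : HH) (o : TObj X r) (j : Fin 6) :
    (g • o).α j = (o.α (g.s⁻¹ j)).map (lab (g.h (g.s⁻¹ j))) := rfl

instance : MulAction B (TObj X r) where
  smul b o := ⟨fun j => (o.α j).map (pre b), by
    refine Eq.trans ?_ o.card; congr 1; ext i; simp⟩
  one_smul o := by
    ext1
    funext j
    change (o.α j).map (pre (1 : B)) = o.α j
    cases h : o.α j <;> simp [pre_one]
  mul_smul b c o := by
    ext1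
    funext j
    change (o.α j).map (pre (b * c)) = ((o.α j).map (pre c)).map (pre b)
    cases h : o.α j <;> simp [pre_mul]

theorem B_smul_T (b : B) (o : TObj X r) (j : Fin 6) : (b • o).α j = (o.α j).map (pre b) := rfl

end

/-! ### local data -/

/-- the local group for the prime `r`: affine maps of a Galois ring of characteristic `r ^ 2`,
acting on the residue field `X`, together with the templates -/
structure Loc (r : ℕ) where
  X : Type
  B : Type
  [finX : Fintype X]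
  [decX : DecidableEq X]
  [groupB : Group B]
  [finB : Finite B]
  [act : MulAction B X]
  M : Subgroup B
  normal : ∀ b : B, ∀ m ∈ M, b * m * b⁻¹ ∈ M
  abel : ∀ m ∈ M, ∀ m' ∈ M, m * m' = m' * m
  ker : ∀ b : B, b ∈ M ↔ ∀ x : X, b • x = x
  expo : ∀ m ∈ M, m ^ r = 1
  tr : ∀ m ∈ M, ∀ m' ∈ M, m ≠ 1 → m' ≠ 1 → ∃ b : B, b * m * b⁻¹ = m'
  c₀ : B
  c₀_fix : ∀ m ∈ M, c₀ * m * c₀⁻¹ = m → m = 1
  c₀_comm : ∀ b : B, ∀ m ∈ M, (c₀ * b) * m * (c₀ * b)⁻¹ = (b * c₀) * m * (b * c₀)⁻¹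
  t : B
  t_comm : ∀ m ∈ M, t * m = m * t
  t_pow : t ^ r ≠ 1
  t_pow_mem : t ^ r ∈ M
  card_X : Fintype.card X ≤ 31
  nonempty : Nonempty X
  card_M : Nat.card M ≤ 31
  emb : ∀ σ : Equiv.Perm (Fin 33), σ ∈ alternatingGroup (Fin 33) → σ ≠ 1 → σ ^ r = 1 →
    ∃ β : X ↪ Fin 33, ∀ x, β (t • x) = σ (β x)
  small : r ≤ 5 → Fintype.card X ≤ 5
  bt : X ↪ Fin 33
  tt : Fin 3 → (X ↪ Fin 33)
  bt_tt : r ≤ 5 → ∀ k x y, bt x ≠ tt k y
  tt_tt : r ≤ 5 → ∀ k k' x y, k ≠ k' → tt k x ≠ tt k' y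

attribute [instance] Loc.finX Loc.decX Loc.groupB Loc.finB Loc.act Loc.nonempty

/-! ### perpendicularity and templates -/

/-- perpendicular top objects: the same fibres, disjoint labels -/
def tperp {X : Type} {r : ℕ} (α β : TObj X r) : Prop :=
  (∀ i, (α.α i).isSome = (β.α i).isSome) ∧
    ∀ i f f', α.α i = some f → β.α i = some f' → ∀ x y, f x ≠ f' y

/-- the top object with the same injection in the fibres `0, …, r-1` -/
def tconst {X : Type} (r : ℕ) (hr : r ≤ 6) (f : X ↪ Fin 33) : TObj X r where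
  α i := if i.val < r then some f else none
  card := by
    interval_cases r <;> simp <;> decide

/-- the base templates, in the fibres 0, 1, 2 -/
def btm {X : Type} (f : X ↪ Fin 33) (j : Fin 3) : BObj X := ⟨⟨j.val, by omega⟩, f⟩

/-! ### generators -/

/-- the 33-cycle -/
def cyc : alternatingGroup (Fin 33) := ⟨finRotate 33, by
  rw [Equiv.Perm.mem_alternatingGroup, sign_finRotate]; decide⟩

/-- the 3-cycle `(0 1 2)` -/
def thr : alternatingGroup (Fin 33) :=
  ⟨Equiv.swap 0 1 * Equiv.swap 1 2, by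
    rw [Equiv.Perm.mem_alternatingGroup, map_mul, Equiv.Perm.sign_swap (by decide), Equiv.Perm.sign_swap (by decide)]
    simp⟩

/-- the element `ρ`: rotation of the fibres, followed by the 33-cycle when passing from fibre 5 to fibre 0 -/
def rr : HH := ⟨finRotate 6, fun i => if i = 5 then cyc else 1⟩

/-- the element `x₀`: swap of the fibres 0 and 1, and a 3-cycle in the fibre 5 -/
def xx : HH := ⟨Equiv.swap 0 1, fun i => if i = 5 then thr else 1⟩

/-- the alternating group in the fibre 5 -/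
def EE : Subgroup HH where
  carrier := {g | g.s = 1 ∧ ∀ i, i ≠ 5 → g.h i = 1}
  mul_mem' := by
    rintro a b ⟨h1, h2⟩ ⟨h1', h2'⟩
    refine ⟨by simp [h1, h1'], fun i hi => ?_⟩
    simp [h1', h2 i hi, h2' i hi]
  one_mem' := ⟨rfl, fun _ _ => rfl⟩
  inv_mem' := by
    rintro a ⟨h1, h2⟩
    refine ⟨by simp [h1], fun i hi => ?_⟩
    simp [h1, h2 i hi]

end Poly
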